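import Pool.Agent.Lib_helper76.UEG.TAB
import Pool.Agent.Lib_helper76.UE5.U4

/-!
# Functions supported on the multiples of a point of order 8
-/

set_option autoImplicit false
set_option linter.unusedSectionVars false
set_option linter.unusedSimpArgs false
set_option linter.unusedVariables false
set_option linter.unusedTactic false
set_option linter.unreachableTactic false

namespace Pool.Agent.UE8

open WeierstrassCurve.Affine Polynomial UEG
open TN (Wt)

variable {k : Type*} [Field k] {F : Type*} [Field F] [Algebra k F] {t : k} {x y : F}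

/-- the coefficient `b` -/
def bb (t : k) : k := (2 * t - 1) * (t - 1)

/-- the coefficient `c` -/
def cc (t : k) : k := (2 * t - 1) * (t - 1) / t

/-- the basis of the functions supported on the multiples -/
def uF (t : k) (x y : F) : Fin 7 → F := ![x, (x - algebraMap k F (bb t)), (x - algebraMap k F (cc t)), (x - algebraMap k F (t * (t - 1))), y, (y - algebraMap k F (cc t) * x), (y - algebraMap k F (t - 1) * x)]

/-- the abscissae of the multiples -/
def px (t : k) : Fin 7 → k := ![0, (t - 1) * (2 * t - 1), (t - 1) * (2 * t - 1) / t, t * (t - 1), (t - 1) * (2 * t - 1) / t, (t - 1) * (2 * t - 1), 0]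

/-- the ordinates of the multiples -/
def py (t : k) : Fin 7 → k := ![0, (t - 1) ^ 2 * (2 * t - 1) ^ 2 / t, (t - 1) ^ 2 * (2 * t - 1) / t, t * (t - 1) ^ 2, (t - 1) ^ 2 * (2 * t - 1) ^ 2 / t ^ 2, 0, (t - 1) * (2 * t - 1)]

section lines

variable (ht : t ≠ 0) (hu : ∀ j, uF t x y j ≠ 0)
  (he : y ^ 2 + (1 - algebraMap k F (cc t)) * x * y - algebraMap k F (bb t) * y =
    x ^ 3 - algebraMap k F (bb t) * x ^ 2)

include ht hu he in
lemma l116 : IsMon k (uF t x y) (y - (algebraMap k F (0) * x + algebraMap k F (0))) := by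
  have M4 : IsMon k (uF t x y) (y) := isMon_u (u := uF t x y) 4
  have e : (y - (algebraMap k F (0) * x + algebraMap k F (0))) = y := by
    simp only [bb, cc, map_add, map_sub, map_mul, map_pow, map_neg, map_one, map_zero, map_ofNat, map_div₀, map_inv₀, div_eq_mul_inv, mul_inv, inv_pow]
    ring
  rw [e]
  exact M4

include ht hu he in
lemma l125 : IsMon k (uF t x y) (y - (algebraMap k F ((t - 1) * (2 * t - 1) / t) * x + algebraMap k F (0))) := by
  have M5 : IsMon k (uF t x y) ((y - algebraMap k F (cc t) * x)) := isMon_u (u := uF t x y) 5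
  have e : (y - (algebraMap k F ((t - 1) * (2 * t - 1) / t) * x + algebraMap k F (0))) = (y - algebraMap k F (cc t) * x) := by
    simp only [bb, cc, map_add, map_sub, map_mul, map_pow, map_neg, map_one, map_zero, map_ofNat, map_div₀, map_inv₀, div_eq_mul_inv, mul_inv, inv_pow]
    ring
  rw [e]
  exact M5

include ht hu he in
lemma l134 : IsMon k (uF t x y) (y - (algebraMap k F ((t - 1)) * x + algebraMap k F (0))) := by
  have M6 : IsMon k (uF t x y) ((y - algebraMap k F (t - 1) * x)) := isMon_u (u := uF t x y) 6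
  have e : (y - (algebraMap k F ((t - 1)) * x + algebraMap k F (0))) = (y - algebraMap k F (t - 1) * x) := by
    simp only [bb, cc, map_add, map_sub, map_mul, map_pow, map_neg, map_one, map_zero, map_ofNat, map_div₀, map_inv₀, div_eq_mul_inv, mul_inv, inv_pow]
    ring
  rw [e]
  exact M6

include ht hu he in
lemma l224 : IsMon k (uF t x y) (y - (algebraMap k F ((t - 1) * (3 * t - 1) / t) * x + algebraMap k F (-((t - 1) ^ 2 * (2 * t - 1))))) := by
  have M1 : IsMon k (uF t x y) ((x - algebraMap k F (bb t))) := isMon_u (u := uF t x y) 1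
  have M2 : IsMon k (uF t x y) ((x - algebraMap k F (cc t))) := isMon_u (u := uF t x y) 2
  have M4 : IsMon k (uF t x y) (y) := isMon_u (u := uF t x y) 4
  have M5 : IsMon k (uF t x y) ((y - algebraMap k F (cc t) * x)) := isMon_u (u := uF t x y) 5
  have M6 : IsMon k (uF t x y) ((y - algebraMap k F (t - 1) * x)) := isMon_u (u := uF t x y) 6
  have N2 : (x - algebraMap k F (cc t)) ≠ 0 := hu 2
  have N4 : y ≠ 0 := hu 4
  have e : (y - (algebraMap k F ((t - 1) * (3 * t - 1) / t) * x + algebraMap k F (-((t - 1) ^ 2 * (2 * t - 1))))) =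
      (x - algebraMap k F (bb t)) * (y - algebraMap k F (cc t) * x) * (y - algebraMap k F (t - 1) * x) * ((x - algebraMap k F (cc t)) * y)⁻¹ := by
    rw [eq_mul_inv_iff_mul_eq₀ (mul_ne_zero N2 N4)]
    obtain ⟨T, hT⟩ : ∃ T, T = algebraMap k F t := ⟨_, rfl⟩
    have hT0 : T ≠ 0 := by rw [hT]; exact (_root_.map_ne_zero _).mpr ht
    obtain ⟨W, hW⟩ : ∃ W, W = T⁻¹ := ⟨_, rfl⟩
    have hTW : T * W = 1 := by rw [hW]; exact mul_inv_cancel₀ hT0
    simp only [bb, cc, map_add, map_sub, map_mul, map_pow, map_neg, map_one, map_zero, map_ofNat, map_div₀, map_inv₀, div_eq_mul_inv, mul_inv, inv_pow, ← hT, ← hW] at he ⊢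
    linear_combination (2 * T ^ 3 * W - 5 * T ^ 2 * W + 4 * T * W - W) * he + (-x ^ 2 * y * T + x ^ 2 * y + 4 * x * y * T ^ 4 * W - 10 * x * y * T ^ 3 * W + 8 * x * y * T ^ 2 * W - 2 * x * y * T * W - 2 * y ^ 2 * T ^ 2 + 3 * y ^ 2 * T - y ^ 2) * hTW
  rw [e]
  exact (((M1).mul hu M5).mul hu M6).mul hu ((M2).mul hu M4).inv

include ht hu he in
lemma l233 : IsMon k (uF t x y) (y - (algebraMap k F (2 * (t - 1)) * x + algebraMap k F (-((t - 1) ^ 2 * (2 * t - 1)) / t))) := by
  have M1 : IsMon k (uF t x y) ((x - algebraMap k F (bb t))) := isMon_u (u := uF t x y) 1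
  have M3 : IsMon k (uF t x y) ((x - algebraMap k F (t * (t - 1)))) := isMon_u (u := uF t x y) 3
  have M4 : IsMon k (uF t x y) (y) := isMon_u (u := uF t x y) 4
  have M6 : IsMon k (uF t x y) ((y - algebraMap k F (t - 1) * x)) := isMon_u (u := uF t x y) 6
  have N3 : (x - algebraMap k F (t * (t - 1))) ≠ 0 := hu 3
  have N4 : y ≠ 0 := hu 4
  have e : (y - (algebraMap k F (2 * (t - 1)) * x + algebraMap k F (-((t - 1) ^ 2 * (2 * t - 1)) / t))) =
      (x - algebraMap k F (bb t)) * (y - algebraMap k F (t - 1) * x) * (y - algebraMap k F (t - 1) * x) * ((x - algebraMap k F (t * (t - 1))) * y)⁻¹ := by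
    rw [eq_mul_inv_iff_mul_eq₀ (mul_ne_zero N3 N4)]
    obtain ⟨T, hT⟩ : ∃ T, T = algebraMap k F t := ⟨_, rfl⟩
    have hT0 : T ≠ 0 := by rw [hT]; exact (_root_.map_ne_zero _).mpr ht
    obtain ⟨W, hW⟩ : ∃ W, W = T⁻¹ := ⟨_, rfl⟩
    have hTW : T * W = 1 := by rw [hW]; exact mul_inv_cancel₀ hT0
    simp only [bb, cc, map_add, map_sub, map_mul, map_pow, map_neg, map_one, map_zero, map_ofNat, map_div₀, map_inv₀, div_eq_mul_inv, mul_inv, inv_pow, ← hT, ← hW] at he ⊢
    linear_combination (T ^ 2 - 2 * T + 1) * he + (2 * x * y * T ^ 3 - 5 * x * y * T ^ 2 + 4 * x * y * T - x * y - 2 * y * T ^ 4 + 7 * y * T ^ 3 - 9 * y * T ^ 2 + 5 * y * T - y) * hTW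
  rw [e]
  exact (((M1).mul hu M6).mul hu M6).mul hu ((M3).mul hu M4).inv

include ht hu he in
lemma l277 : IsMon k (uF t x y) (y - (algebraMap k F ((2 * t ^ 2 - 4 * t + 1) / t) * x + algebraMap k F ((t - 1) * (2 * t - 1)))) := by
  have M0 : IsMon k (uF t x y) (x) := isMon_u (u := uF t x y) 0
  have M1 : IsMon k (uF t x y) ((x - algebraMap k F (bb t))) := isMon_u (u := uF t x y) 1
  have M4 : IsMon k (uF t x y) (y) := isMon_u (u := uF t x y) 4
  have N4 : y ≠ 0 := hu 4
  have e : (y - (algebraMap k F ((2 * t ^ 2 - 4 * t + 1) / t) * x + algebraMap k F ((t - 1) * (2 * t - 1)))) =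
      x * x * (x - algebraMap k F (bb t)) * (y)⁻¹ := by
    rw [eq_mul_inv_iff_mul_eq₀ N4]
    obtain ⟨T, hT⟩ : ∃ T, T = algebraMap k F t := ⟨_, rfl⟩
    have hT0 : T ≠ 0 := by rw [hT]; exact (_root_.map_ne_zero _).mpr ht
    obtain ⟨W, hW⟩ : ∃ W, W = T⁻¹ := ⟨_, rfl⟩
    have hTW : T * W = 1 := by rw [hW]; exact mul_inv_cancel₀ hT0
    simp only [bb, cc, map_add, map_sub, map_mul, map_pow, map_neg, map_one, map_zero, map_ofNat, map_div₀, map_inv₀, div_eq_mul_inv, mul_inv, inv_pow, ← hT, ← hW] at he ⊢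
    linear_combination (1) * he + (x * y) * hTW
  rw [e]
  exact (((M0).mul hu M0).mul hu M1).mul hu (M4).inv

include ht hu he in
lemma l367 : IsMon k (uF t x y) (y - (algebraMap k F (-(1)) * x + algebraMap k F ((t - 1) * (2 * t - 1)))) := by
  have M0 : IsMon k (uF t x y) (x) := isMon_u (u := uF t x y) 0
  have M1 : IsMon k (uF t x y) ((x - algebraMap k F (bb t))) := isMon_u (u := uF t x y) 1
  have M2 : IsMon k (uF t x y) ((x - algebraMap k F (cc t))) := isMon_u (u := uF t x y) 2
  have M5 : IsMon k (uF t x y) ((y - algebraMap k F (cc t) * x)) := isMon_u (u := uF t x y) 5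
  have N5 : (y - algebraMap k F (cc t) * x) ≠ 0 := hu 5
  have e : (y - (algebraMap k F (-(1)) * x + algebraMap k F ((t - 1) * (2 * t - 1)))) =
      x * (x - algebraMap k F (bb t)) * (x - algebraMap k F (cc t)) * ((y - algebraMap k F (cc t) * x))⁻¹ := by
    rw [eq_mul_inv_iff_mul_eq₀ N5]
    obtain ⟨T, hT⟩ : ∃ T, T = algebraMap k F t := ⟨_, rfl⟩
    have hT0 : T ≠ 0 := by rw [hT]; exact (_root_.map_ne_zero _).mpr ht
    obtain ⟨W, hW⟩ : ∃ W, W = T⁻¹ := ⟨_, rfl⟩
    have hTW : T * W = 1 := by rw [hW]; exact mul_inv_cancel₀ hT0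
    simp only [bb, cc, map_add, map_sub, map_mul, map_pow, map_neg, map_one, map_zero, map_ofNat, map_div₀, map_inv₀, div_eq_mul_inv, mul_inv, inv_pow, ← hT, ← hW] at he ⊢
    linear_combination (1) * he + (0) * hTW
  rw [e]
  exact (((M0).mul hu M1).mul hu M2).mul hu (M5).inv

include ht hu he in
lemma l457 : IsMon k (uF t x y) (y - (algebraMap k F ((t ^ 2 - 3 * t + 1) / t) * x + algebraMap k F ((t - 1) * (2 * t - 1)))) := by
  have M0 : IsMon k (uF t x y) (x) := isMon_u (u := uF t x y) 0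
  have M2 : IsMon k (uF t x y) ((x - algebraMap k F (cc t))) := isMon_u (u := uF t x y) 2
  have M3 : IsMon k (uF t x y) ((x - algebraMap k F (t * (t - 1)))) := isMon_u (u := uF t x y) 3
  have M6 : IsMon k (uF t x y) ((y - algebraMap k F (t - 1) * x)) := isMon_u (u := uF t x y) 6
  have N6 : (y - algebraMap k F (t - 1) * x) ≠ 0 := hu 6
  have e : (y - (algebraMap k F ((t ^ 2 - 3 * t + 1) / t) * x + algebraMap k F ((t - 1) * (2 * t - 1)))) =
      x * (x - algebraMap k F (cc t)) * (x - algebraMap k F (t * (t - 1))) * ((y - algebraMap k F (t - 1) * x))⁻¹ := by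
    rw [eq_mul_inv_iff_mul_eq₀ N6]
    obtain ⟨T, hT⟩ : ∃ T, T = algebraMap k F t := ⟨_, rfl⟩
    have hT0 : T ≠ 0 := by rw [hT]; exact (_root_.map_ne_zero _).mpr ht
    obtain ⟨W, hW⟩ : ∃ W, W = T⁻¹ := ⟨_, rfl⟩
    have hTW : T * W = 1 := by rw [hW]; exact mul_inv_cancel₀ hT0
    simp only [bb, cc, map_add, map_sub, map_mul, map_pow, map_neg, map_one, map_zero, map_ofNat, map_div₀, map_inv₀, div_eq_mul_inv, mul_inv, inv_pow, ← hT, ← hW] at he ⊢
    linear_combination (1) * he + (x ^ 2 * T ^ 2 - 2 * x ^ 2 * T + x ^ 2 + x * y * T - 2 * x * T ^ 3 + 5 * x * T ^ 2 - 4 * x * T + x) * hTW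
  rw [e]
  exact (((M0).mul hu M2).mul hu M3).mul hu (M6).inv

include ht hu he in
lemma l466 : IsMon k (uF t x y) (y - (algebraMap k F (-(t)) * x + algebraMap k F (t * (t - 1) * (2 * t - 1)))) := by
  have M1 : IsMon k (uF t x y) ((x - algebraMap k F (bb t))) := isMon_u (u := uF t x y) 1
  have M2 : IsMon k (uF t x y) ((x - algebraMap k F (cc t))) := isMon_u (u := uF t x y) 2
  have M3 : IsMon k (uF t x y) ((x - algebraMap k F (t * (t - 1)))) := isMon_u (u := uF t x y) 3
  have M4 : IsMon k (uF t x y) (y) := isMon_u (u := uF t x y) 4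
  have M5 : IsMon k (uF t x y) ((y - algebraMap k F (cc t) * x)) := isMon_u (u := uF t x y) 5
  have M6 : IsMon k (uF t x y) ((y - algebraMap k F (t - 1) * x)) := isMon_u (u := uF t x y) 6
  have N5 : (y - algebraMap k F (cc t) * x) ≠ 0 := hu 5
  have N6 : (y - algebraMap k F (t - 1) * x) ≠ 0 := hu 6
  have e : (y - (algebraMap k F (-(t)) * x + algebraMap k F (t * (t - 1) * (2 * t - 1)))) =
      (x - algebraMap k F (bb t)) * (x - algebraMap k F (cc t)) * (x - algebraMap k F (t * (t - 1))) * y * ((y - algebraMap k F (cc t) * x) * (y - algebraMap k F (t - 1) * x))⁻¹ := by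
    rw [eq_mul_inv_iff_mul_eq₀ (mul_ne_zero N5 N6)]
    obtain ⟨T, hT⟩ : ∃ T, T = algebraMap k F t := ⟨_, rfl⟩
    have hT0 : T ≠ 0 := by rw [hT]; exact (_root_.map_ne_zero _).mpr ht
    obtain ⟨W, hW⟩ : ∃ W, W = T⁻¹ := ⟨_, rfl⟩
    have hTW : T * W = 1 := by rw [hW]; exact mul_inv_cancel₀ hT0
    simp only [bb, cc, map_add, map_sub, map_mul, map_pow, map_neg, map_one, map_zero, map_ofNat, map_div₀, map_inv₀, div_eq_mul_inv, mul_inv, inv_pow, ← hT, ← hW] at he ⊢
    linear_combination (y - 2 * T ^ 3 + 5 * T ^ 2 - 4 * T + 1) * he + (2 * x ^ 3 * T ^ 3 - 5 * x ^ 3 * T ^ 2 + 4 * x ^ 3 * T - x ^ 3 - 4 * x ^ 2 * T ^ 5 + 16 * x ^ 2 * T ^ 4 - 25 * x ^ 2 * T ^ 3 + 19 * x ^ 2 * T ^ 2 - 7 * x ^ 2 * T + x ^ 2 - 2 * x * y * T ^ 3 + 5 * x * y * T ^ 2 - 4 * x * y * T + x * y + 4 * y * T ^ 5 - 16 * y * T ^ 4 + 25 * y * T ^ 3 - 19 * y * T ^ 2 + 7 * y * T - y) * hTW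
  rw [e]
  exact ((((M1).mul hu M2).mul hu M3).mul hu M4).mul hu ((M5).mul hu M6).inv

include ht hu he in
lemma l556 : IsMon k (uF t x y) (y - (algebraMap k F (-((2 * t - 1)) / t) * x + algebraMap k F ((t - 1) * (2 * t - 1) ^ 2 / t))) := by
  have M2 : IsMon k (uF t x y) ((x - algebraMap k F (cc t))) := isMon_u (u := uF t x y) 2
  have M3 : IsMon k (uF t x y) ((x - algebraMap k F (t * (t - 1)))) := isMon_u (u := uF t x y) 3
  have M4 : IsMon k (uF t x y) (y) := isMon_u (u := uF t x y) 4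
  have M6 : IsMon k (uF t x y) ((y - algebraMap k F (t - 1) * x)) := isMon_u (u := uF t x y) 6
  have N6 : (y - algebraMap k F (t - 1) * x) ≠ 0 := hu 6
  have e : (y - (algebraMap k F (-((2 * t - 1)) / t) * x + algebraMap k F ((t - 1) * (2 * t - 1) ^ 2 / t))) =
      (x - algebraMap k F (cc t)) * (x - algebraMap k F (cc t)) * (x - algebraMap k F (t * (t - 1))) * y * ((y - algebraMap k F (t - 1) * x) * (y - algebraMap k F (t - 1) * x))⁻¹ := by
    rw [eq_mul_inv_iff_mul_eq₀ (mul_ne_zero N6 N6)]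
    obtain ⟨T, hT⟩ : ∃ T, T = algebraMap k F t := ⟨_, rfl⟩
    have hT0 : T ≠ 0 := by rw [hT]; exact (_root_.map_ne_zero _).mpr ht
    obtain ⟨W, hW⟩ : ∃ W, W = T⁻¹ := ⟨_, rfl⟩
    have hTW : T * W = 1 := by rw [hW]; exact mul_inv_cancel₀ hT0
    simp only [bb, cc, map_add, map_sub, map_mul, map_pow, map_neg, map_one, map_zero, map_ofNat, map_div₀, map_inv₀, div_eq_mul_inv, mul_inv, inv_pow, ← hT, ← hW] at he ⊢
    linear_combination (y - 2 * T ^ 3 * W + 5 * T ^ 2 * W - 4 * T * W + W) * he + (2 * x * y ^ 2 * T - x * y ^ 2 - 4 * x * y * T ^ 4 * W + 12 * x * y * T ^ 3 * W - 13 * x * y * T ^ 2 * W + 6 * x * y * T * W - x * y * W - 2 * y ^ 2 * T ^ 2 + 3 * y ^ 2 * T - y ^ 2 + 4 * y * T ^ 5 * W - 16 * y * T ^ 4 * W + 25 * y * T ^ 3 * W - 19 * y * T ^ 2 * W + 7 * y * T * W - y * W) * hTW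
  rw [e]
  exact ((((M2).mul hu M2).mul hu M3).mul hu M4).mul hu ((M6).mul hu M6).inv

end lines

section table

variable (ht : t ≠ 0) (ht1 : t - 1 ≠ 0) (ht2 : 2 * t - 1 ≠ 0)

include ht ht1 ht2 in
lemma nz (a b c : ℕ) : t ^ a * (t - 1) ^ b * (2 * t - 1) ^ c ≠ 0 :=
  mul_ne_zero (mul_ne_zero (pow_ne_zero _ ht) (pow_ne_zero _ ht1)) (pow_ne_zero _ ht2)

include ht ht1 ht2 in
lemma r11 : LineOK (bb t) (cc t) (0) (0) (0) (0)
    (0) (0) := by
  refine ⟨by (first | rfl | ring1 | (field_simp; ring1) | (field_simp; done) | (simp only [bb, cc]; ring1) | (simp only [bb, cc]; field_simp; ring1) | (simp only [bb, cc]; field_simp; done)), Or.inr ⟨rfl, rfl, fun h => by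
      have e0 : t ^ 0 * (t - 1) ^ 1 * (2 * t - 1) ^ 1 = (-1 : k) * (2 * (0) + (1 - cc t) * (0) - bb t) := by (first | rfl | ring1 | (field_simp; ring1) | (field_simp; done) | (simp only [bb, cc]; ring1) | (simp only [bb, cc]; field_simp; ring1) | (simp only [bb, cc]; field_simp; done))
      rw [h, mul_zero] at e0
      exact nz ht ht1 ht2 0 1 1 e0, by (first | rfl | ring1 | (field_simp; ring1) | (field_simp; done) | (simp only [bb, cc]; ring1) | (simp only [bb, cc]; field_simp; ring1) | (simp only [bb, cc]; field_simp; done))⟩⟩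

include ht ht1 ht2 in
lemma r12 : LineOK (bb t) (cc t) (0) (0) ((t - 1) * (2 * t - 1)) ((t - 1) ^ 2 * (2 * t - 1) ^ 2 / t)
    ((t - 1) * (2 * t - 1) / t) (0) := by
  refine ⟨by (first | rfl | ring1 | (field_simp; ring1) | (field_simp; done) | (simp only [bb, cc]; ring1) | (simp only [bb, cc]; field_simp; ring1) | (simp only [bb, cc]; field_simp; done)), Or.inl ⟨fun h => by
      have e0 : t ^ 0 * (t - 1) ^ 1 * (2 * t - 1) ^ 1 = (-1 : k) * ((0) - ((t - 1) * (2 * t - 1))) := by (first | rfl | ring1 | (field_simp; ring1) | (field_simp; done) | (simp only [bb, cc]; ring1) | (simp only [bb, cc]; field_simp; ring1) | (simp only [bb, cc]; field_simp; done))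
      rw [sub_eq_zero.mpr h, mul_zero] at e0
      exact nz ht ht1 ht2 0 1 1 e0, by (first | rfl | ring1 | (field_simp; ring1) | (field_simp; done) | (simp only [bb, cc]; ring1) | (simp only [bb, cc]; field_simp; ring1) | (simp only [bb, cc]; field_simp; done))⟩⟩

include ht ht1 ht2 in
lemma r13 : LineOK (bb t) (cc t) (0) (0) ((t - 1) * (2 * t - 1) / t) ((t - 1) ^ 2 * (2 * t - 1) / t)
    ((t - 1)) (0) := by
  refine ⟨by (first | rfl | ring1 | (field_simp; ring1) | (field_simp; done) | (simp only [bb, cc]; ring1) | (simp only [bb, cc]; field_simp; ring1) | (simp only [bb, cc]; field_simp; done)), Or.inl ⟨fun h => by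
      have e0 : t ^ 0 * (t - 1) ^ 1 * (2 * t - 1) ^ 1 = (-1 : k) * t ^ 1 * ((0) - ((t - 1) * (2 * t - 1) / t)) := by (first | rfl | ring1 | (field_simp; ring1) | (field_simp; done) | (simp only [bb, cc]; ring1) | (simp only [bb, cc]; field_simp; ring1) | (simp only [bb, cc]; field_simp; done))
      rw [sub_eq_zero.mpr h, mul_zero] at e0
      exact nz ht ht1 ht2 0 1 1 e0, by (first | rfl | ring1 | (field_simp; ring1) | (field_simp; done) | (simp only [bb, cc]; ring1) | (simp only [bb, cc]; field_simp; ring1) | (simp only [bb, cc]; field_simp; done))⟩⟩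

include ht ht1 ht2 in
lemma r14 : LineOK (bb t) (cc t) (0) (0) (t * (t - 1)) (t * (t - 1) ^ 2)
    ((t - 1)) (0) := by
  refine ⟨by (first | rfl | ring1 | (field_simp; ring1) | (field_simp; done) | (simp only [bb, cc]; ring1) | (simp only [bb, cc]; field_simp; ring1) | (simp only [bb, cc]; field_simp; done)), Or.inl ⟨fun h => by
      have e0 : t ^ 1 * (t - 1) ^ 1 * (2 * t - 1) ^ 0 = (-1 : k) * ((0) - (t * (t - 1))) := by (first | rfl | ring1 | (field_simp; ring1) | (field_simp; done) | (simp only [bb, cc]; ring1) | (simp only [bb, cc]; field_simp; ring1) | (simp only [bb, cc]; field_simp; done))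
      rw [sub_eq_zero.mpr h, mul_zero] at e0
      exact nz ht ht1 ht2 1 1 0 e0, by (first | rfl | ring1 | (field_simp; ring1) | (field_simp; done) | (simp only [bb, cc]; ring1) | (simp only [bb, cc]; field_simp; ring1) | (simp only [bb, cc]; field_simp; done))⟩⟩

include ht ht1 ht2 in
lemma r15 : LineOK (bb t) (cc t) (0) (0) ((t - 1) * (2 * t - 1) / t) ((t - 1) ^ 2 * (2 * t - 1) ^ 2 / t ^ 2)
    ((t - 1) * (2 * t - 1) / t) (0) := by
  refine ⟨by (first | rfl | ring1 | (field_simp; ring1) | (field_simp; done) | (simp only [bb, cc]; ring1) | (simp only [bb, cc]; field_simp; ring1) | (simp only [bb, cc]; field_simp; done)), Or.inl ⟨fun h => by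
      have e0 : t ^ 0 * (t - 1) ^ 1 * (2 * t - 1) ^ 1 = (-1 : k) * t ^ 1 * ((0) - ((t - 1) * (2 * t - 1) / t)) := by (first | rfl | ring1 | (field_simp; ring1) | (field_simp; done) | (simp only [bb, cc]; ring1) | (simp only [bb, cc]; field_simp; ring1) | (simp only [bb, cc]; field_simp; done))
      rw [sub_eq_zero.mpr h, mul_zero] at e0
      exact nz ht ht1 ht2 0 1 1 e0, by (first | rfl | ring1 | (field_simp; ring1) | (field_simp; done) | (simp only [bb, cc]; ring1) | (simp only [bb, cc]; field_simp; ring1) | (simp only [bb, cc]; field_simp; done))⟩⟩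

include ht ht1 ht2 in
lemma r16 : LineOK (bb t) (cc t) (0) (0) ((t - 1) * (2 * t - 1)) (0)
    (0) (0) := by
  refine ⟨by (first | rfl | ring1 | (field_simp; ring1) | (field_simp; done) | (simp only [bb, cc]; ring1) | (simp only [bb, cc]; field_simp; ring1) | (simp only [bb, cc]; field_simp; done)), Or.inl ⟨fun h => by
      have e0 : t ^ 0 * (t - 1) ^ 1 * (2 * t - 1) ^ 1 = (-1 : k) * ((0) - ((t - 1) * (2 * t - 1))) := by (first | rfl | ring1 | (field_simp; ring1) | (field_simp; done) | (simp only [bb, cc]; ring1) | (simp only [bb, cc]; field_simp; ring1) | (simp only [bb, cc]; field_simp; done))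
      rw [sub_eq_zero.mpr h, mul_zero] at e0
      exact nz ht ht1 ht2 0 1 1 e0, by (first | rfl | ring1 | (field_simp; ring1) | (field_simp; done) | (simp only [bb, cc]; ring1) | (simp only [bb, cc]; field_simp; ring1) | (simp only [bb, cc]; field_simp; done))⟩⟩

include ht ht1 ht2 in
lemma r22 : LineOK (bb t) (cc t) ((t - 1) * (2 * t - 1)) ((t - 1) ^ 2 * (2 * t - 1) ^ 2 / t) ((t - 1) * (2 * t - 1)) ((t - 1) ^ 2 * (2 * t - 1) ^ 2 / t)
    ((t - 1) * (3 * t - 1) / t) (-((t - 1) ^ 2 * (2 * t - 1))) := by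
  refine ⟨by (first | rfl | ring1 | (field_simp; ring1) | (field_simp; done) | (simp only [bb, cc]; ring1) | (simp only [bb, cc]; field_simp; ring1) | (simp only [bb, cc]; field_simp; done)), Or.inr ⟨rfl, rfl, fun h => by
      have e0 : t ^ 0 * (t - 1) ^ 2 * (2 * t - 1) ^ 2 = (1 : k) * t ^ 1 * (2 * ((t - 1) ^ 2 * (2 * t - 1) ^ 2 / t) + (1 - cc t) * ((t - 1) * (2 * t - 1)) - bb t) := by (first | rfl | ring1 | (field_simp; ring1) | (field_simp; done) | (simp only [bb, cc]; ring1) | (simp only [bb, cc]; field_simp; ring1) | (simp only [bb, cc]; field_simp; done))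
      rw [h, mul_zero] at e0
      exact nz ht ht1 ht2 0 2 2 e0, by (first | rfl | ring1 | (field_simp; ring1) | (field_simp; done) | (simp only [bb, cc]; ring1) | (simp only [bb, cc]; field_simp; ring1) | (simp only [bb, cc]; field_simp; done))⟩⟩

include ht ht1 ht2 in
lemma r23 : LineOK (bb t) (cc t) ((t - 1) * (2 * t - 1)) ((t - 1) ^ 2 * (2 * t - 1) ^ 2 / t) ((t - 1) * (2 * t - 1) / t) ((t - 1) ^ 2 * (2 * t - 1) / t)
    (2 * (t - 1)) (-((t - 1) ^ 2 * (2 * t - 1)) / t) := by
  refine ⟨by (first | rfl | ring1 | (field_simp; ring1) | (field_simp; done) | (simp only [bb, cc]; ring1) | (simp only [bb, cc]; field_simp; ring1) | (simp only [bb, cc]; field_simp; done)), Or.inl ⟨fun h => by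
      have e0 : t ^ 0 * (t - 1) ^ 2 * (2 * t - 1) ^ 1 = (1 : k) * t ^ 1 * (((t - 1) * (2 * t - 1)) - ((t - 1) * (2 * t - 1) / t)) := by (first | rfl | ring1 | (field_simp; ring1) | (field_simp; done) | (simp only [bb, cc]; ring1) | (simp only [bb, cc]; field_simp; ring1) | (simp only [bb, cc]; field_simp; done))
      rw [sub_eq_zero.mpr h, mul_zero] at e0
      exact nz ht ht1 ht2 0 2 1 e0, by (first | rfl | ring1 | (field_simp; ring1) | (field_simp; done) | (simp only [bb, cc]; ring1) | (simp only [bb, cc]; field_simp; ring1) | (simp only [bb, cc]; field_simp; done))⟩⟩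

include ht ht1 ht2 in
lemma r24 : LineOK (bb t) (cc t) ((t - 1) * (2 * t - 1)) ((t - 1) ^ 2 * (2 * t - 1) ^ 2 / t) (t * (t - 1)) (t * (t - 1) ^ 2)
    ((t - 1) * (3 * t - 1) / t) (-((t - 1) ^ 2 * (2 * t - 1))) := by
  refine ⟨by (first | rfl | ring1 | (field_simp; ring1) | (field_simp; done) | (simp only [bb, cc]; ring1) | (simp only [bb, cc]; field_simp; ring1) | (simp only [bb, cc]; field_simp; done)), Or.inl ⟨fun h => by
      have e0 : t ^ 0 * (t - 1) ^ 2 * (2 * t - 1) ^ 0 = (1 : k) * (((t - 1) * (2 * t - 1)) - (t * (t - 1))) := by (first | rfl | ring1 | (field_simp; ring1) | (field_simp; done) | (simp only [bb, cc]; ring1) | (simp only [bb, cc]; field_simp; ring1) | (simp only [bb, cc]; field_simp; done))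
      rw [sub_eq_zero.mpr h, mul_zero] at e0
      exact nz ht ht1 ht2 0 2 0 e0, by (first | rfl | ring1 | (field_simp; ring1) | (field_simp; done) | (simp only [bb, cc]; ring1) | (simp only [bb, cc]; field_simp; ring1) | (simp only [bb, cc]; field_simp; done))⟩⟩

include ht ht1 ht2 in
lemma r25 : LineOK (bb t) (cc t) ((t - 1) * (2 * t - 1)) ((t - 1) ^ 2 * (2 * t - 1) ^ 2 / t) ((t - 1) * (2 * t - 1) / t) ((t - 1) ^ 2 * (2 * t - 1) ^ 2 / t ^ 2)
    ((t - 1) * (2 * t - 1) / t) (0) := by
  refine ⟨by (first | rfl | ring1 | (field_simp; ring1) | (field_simp; done) | (simp only [bb, cc]; ring1) | (simp only [bb, cc]; field_simp; ring1) | (simp only [bb, cc]; field_simp; done)), Or.inl ⟨fun h => by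
      have e0 : t ^ 0 * (t - 1) ^ 2 * (2 * t - 1) ^ 1 = (1 : k) * t ^ 1 * (((t - 1) * (2 * t - 1)) - ((t - 1) * (2 * t - 1) / t)) := by (first | rfl | ring1 | (field_simp; ring1) | (field_simp; done) | (simp only [bb, cc]; ring1) | (simp only [bb, cc]; field_simp; ring1) | (simp only [bb, cc]; field_simp; done))
      rw [sub_eq_zero.mpr h, mul_zero] at e0
      exact nz ht ht1 ht2 0 2 1 e0, by (first | rfl | ring1 | (field_simp; ring1) | (field_simp; done) | (simp only [bb, cc]; ring1) | (simp only [bb, cc]; field_simp; ring1) | (simp only [bb, cc]; field_simp; done))⟩⟩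

include ht ht1 ht2 in
lemma r27 : LineOK (bb t) (cc t) ((t - 1) * (2 * t - 1)) ((t - 1) ^ 2 * (2 * t - 1) ^ 2 / t) (0) ((t - 1) * (2 * t - 1))
    ((2 * t ^ 2 - 4 * t + 1) / t) ((t - 1) * (2 * t - 1)) := by
  refine ⟨by (first | rfl | ring1 | (field_simp; ring1) | (field_simp; done) | (simp only [bb, cc]; ring1) | (simp only [bb, cc]; field_simp; ring1) | (simp only [bb, cc]; field_simp; done)), Or.inl ⟨fun h => by
      have e0 : t ^ 0 * (t - 1) ^ 1 * (2 * t - 1) ^ 1 = (1 : k) * (((t - 1) * (2 * t - 1)) - (0)) := by (first | rfl | ring1 | (field_simp; ring1) | (field_simp; done) | (simp only [bb, cc]; ring1) | (simp only [bb, cc]; field_simp; ring1) | (simp only [bb, cc]; field_simp; done))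
      rw [sub_eq_zero.mpr h, mul_zero] at e0
      exact nz ht ht1 ht2 0 1 1 e0, by (first | rfl | ring1 | (field_simp; ring1) | (field_simp; done) | (simp only [bb, cc]; ring1) | (simp only [bb, cc]; field_simp; ring1) | (simp only [bb, cc]; field_simp; done))⟩⟩

include ht ht1 ht2 in
lemma r33 : LineOK (bb t) (cc t) ((t - 1) * (2 * t - 1) / t) ((t - 1) ^ 2 * (2 * t - 1) / t) ((t - 1) * (2 * t - 1) / t) ((t - 1) ^ 2 * (2 * t - 1) / t)
    (2 * (t - 1)) (-((t - 1) ^ 2 * (2 * t - 1)) / t) := by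
  refine ⟨by (first | rfl | ring1 | (field_simp; ring1) | (field_simp; done) | (simp only [bb, cc]; ring1) | (simp only [bb, cc]; field_simp; ring1) | (simp only [bb, cc]; field_simp; done)), Or.inr ⟨rfl, rfl, fun h => by
      have e0 : t ^ 0 * (t - 1) ^ 3 * (2 * t - 1) ^ 1 = (-1 : k) * t ^ 2 * (2 * ((t - 1) ^ 2 * (2 * t - 1) / t) + (1 - cc t) * ((t - 1) * (2 * t - 1) / t) - bb t) := by (first | rfl | ring1 | (field_simp; ring1) | (field_simp; done) | (simp only [bb, cc]; ring1) | (simp only [bb, cc]; field_simp; ring1) | (simp only [bb, cc]; field_simp; done))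
      rw [h, mul_zero] at e0
      exact nz ht ht1 ht2 0 3 1 e0, by (first | rfl | ring1 | (field_simp; ring1) | (field_simp; done) | (simp only [bb, cc]; ring1) | (simp only [bb, cc]; field_simp; ring1) | (simp only [bb, cc]; field_simp; done))⟩⟩

include ht ht1 ht2 in
lemma r34 : LineOK (bb t) (cc t) ((t - 1) * (2 * t - 1) / t) ((t - 1) ^ 2 * (2 * t - 1) / t) (t * (t - 1)) (t * (t - 1) ^ 2)
    ((t - 1)) (0) := by
  refine ⟨by (first | rfl | ring1 | (field_simp; ring1) | (field_simp; done) | (simp only [bb, cc]; ring1) | (simp only [bb, cc]; field_simp; ring1) | (simp only [bb, cc]; field_simp; done)), Or.inl ⟨fun h => by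
      have e0 : t ^ 0 * (t - 1) ^ 3 * (2 * t - 1) ^ 0 = (-1 : k) * t ^ 1 * (((t - 1) * (2 * t - 1) / t) - (t * (t - 1))) := by (first | rfl | ring1 | (field_simp; ring1) | (field_simp; done) | (simp only [bb, cc]; ring1) | (simp only [bb, cc]; field_simp; ring1) | (simp only [bb, cc]; field_simp; done))
      rw [sub_eq_zero.mpr h, mul_zero] at e0
      exact nz ht ht1 ht2 0 3 0 e0, by (first | rfl | ring1 | (field_simp; ring1) | (field_simp; done) | (simp only [bb, cc]; ring1) | (simp only [bb, cc]; field_simp; ring1) | (simp only [bb, cc]; field_simp; done))⟩⟩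

include ht ht1 ht2 in
lemma r36 : LineOK (bb t) (cc t) ((t - 1) * (2 * t - 1) / t) ((t - 1) ^ 2 * (2 * t - 1) / t) ((t - 1) * (2 * t - 1)) (0)
    (-(1)) ((t - 1) * (2 * t - 1)) := by
  refine ⟨by (first | rfl | ring1 | (field_simp; ring1) | (field_simp; done) | (simp only [bb, cc]; ring1) | (simp only [bb, cc]; field_simp; ring1) | (simp only [bb, cc]; field_simp; done)), Or.inl ⟨fun h => by
      have e0 : t ^ 0 * (t - 1) ^ 2 * (2 * t - 1) ^ 1 = (-1 : k) * t ^ 1 * (((t - 1) * (2 * t - 1) / t) - ((t - 1) * (2 * t - 1))) := by (first | rfl | ring1 | (field_simp; ring1) | (field_simp; done) | (simp only [bb, cc]; ring1) | (simp only [bb, cc]; field_simp; ring1) | (simp only [bb, cc]; field_simp; done))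
      rw [sub_eq_zero.mpr h, mul_zero] at e0
      exact nz ht ht1 ht2 0 2 1 e0, by (first | rfl | ring1 | (field_simp; ring1) | (field_simp; done) | (simp only [bb, cc]; ring1) | (simp only [bb, cc]; field_simp; ring1) | (simp only [bb, cc]; field_simp; done))⟩⟩

include ht ht1 ht2 in
lemma r37 : LineOK (bb t) (cc t) ((t - 1) * (2 * t - 1) / t) ((t - 1) ^ 2 * (2 * t - 1) / t) (0) ((t - 1) * (2 * t - 1))
    (-(1)) ((t - 1) * (2 * t - 1)) := by
  refine ⟨by (first | rfl | ring1 | (field_simp; ring1) | (field_simp; done) | (simp only [bb, cc]; ring1) | (simp only [bb, cc]; field_simp; ring1) | (simp only [bb, cc]; field_simp; done)), Or.inl ⟨fun h => by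
      have e0 : t ^ 0 * (t - 1) ^ 1 * (2 * t - 1) ^ 1 = (1 : k) * t ^ 1 * (((t - 1) * (2 * t - 1) / t) - (0)) := by (first | rfl | ring1 | (field_simp; ring1) | (field_simp; done) | (simp only [bb, cc]; ring1) | (simp only [bb, cc]; field_simp; ring1) | (simp only [bb, cc]; field_simp; done))
      rw [sub_eq_zero.mpr h, mul_zero] at e0
      exact nz ht ht1 ht2 0 1 1 e0, by (first | rfl | ring1 | (field_simp; ring1) | (field_simp; done) | (simp only [bb, cc]; ring1) | (simp only [bb, cc]; field_simp; ring1) | (simp only [bb, cc]; field_simp; done))⟩⟩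

include ht ht1 ht2 in
lemma r45 : LineOK (bb t) (cc t) (t * (t - 1)) (t * (t - 1) ^ 2) ((t - 1) * (2 * t - 1) / t) ((t - 1) ^ 2 * (2 * t - 1) ^ 2 / t ^ 2)
    ((t ^ 2 - 3 * t + 1) / t) ((t - 1) * (2 * t - 1)) := by
  refine ⟨by (first | rfl | ring1 | (field_simp; ring1) | (field_simp; done) | (simp only [bb, cc]; ring1) | (simp only [bb, cc]; field_simp; ring1) | (simp only [bb, cc]; field_simp; done)), Or.inl ⟨fun h => by
      have e0 : t ^ 0 * (t - 1) ^ 3 * (2 * t - 1) ^ 0 = (1 : k) * t ^ 1 * ((t * (t - 1)) - ((t - 1) * (2 * t - 1) / t)) := by (first | rfl | ring1 | (field_simp; ring1) | (field_simp; done) | (simp only [bb, cc]; ring1) | (simp only [bb, cc]; field_simp; ring1) | (simp only [bb, cc]; field_simp; done))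
      rw [sub_eq_zero.mpr h, mul_zero] at e0
      exact nz ht ht1 ht2 0 3 0 e0, by (first | rfl | ring1 | (field_simp; ring1) | (field_simp; done) | (simp only [bb, cc]; ring1) | (simp only [bb, cc]; field_simp; ring1) | (simp only [bb, cc]; field_simp; done))⟩⟩

include ht ht1 ht2 in
lemma r46 : LineOK (bb t) (cc t) (t * (t - 1)) (t * (t - 1) ^ 2) ((t - 1) * (2 * t - 1)) (0)
    (-(t)) (t * (t - 1) * (2 * t - 1)) := by
  refine ⟨by (first | rfl | ring1 | (field_simp; ring1) | (field_simp; done) | (simp only [bb, cc]; ring1) | (simp only [bb, cc]; field_simp; ring1) | (simp only [bb, cc]; field_simp; done)), Or.inl ⟨fun h => by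
      have e0 : t ^ 0 * (t - 1) ^ 2 * (2 * t - 1) ^ 0 = (-1 : k) * ((t * (t - 1)) - ((t - 1) * (2 * t - 1))) := by (first | rfl | ring1 | (field_simp; ring1) | (field_simp; done) | (simp only [bb, cc]; ring1) | (simp only [bb, cc]; field_simp; ring1) | (simp only [bb, cc]; field_simp; done))
      rw [sub_eq_zero.mpr h, mul_zero] at e0
      exact nz ht ht1 ht2 0 2 0 e0, by (first | rfl | ring1 | (field_simp; ring1) | (field_simp; done) | (simp only [bb, cc]; ring1) | (simp only [bb, cc]; field_simp; ring1) | (simp only [bb, cc]; field_simp; done))⟩⟩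

include ht ht1 ht2 in
lemma r47 : LineOK (bb t) (cc t) (t * (t - 1)) (t * (t - 1) ^ 2) (0) ((t - 1) * (2 * t - 1))
    ((t ^ 2 - 3 * t + 1) / t) ((t - 1) * (2 * t - 1)) := by
  refine ⟨by (first | rfl | ring1 | (field_simp; ring1) | (field_simp; done) | (simp only [bb, cc]; ring1) | (simp only [bb, cc]; field_simp; ring1) | (simp only [bb, cc]; field_simp; done)), Or.inl ⟨fun h => by
      have e0 : t ^ 1 * (t - 1) ^ 1 * (2 * t - 1) ^ 0 = (1 : k) * ((t * (t - 1)) - (0)) := by (first | rfl | ring1 | (field_simp; ring1) | (field_simp; done) | (simp only [bb, cc]; ring1) | (simp only [bb, cc]; field_simp; ring1) | (simp only [bb, cc]; field_simp; done))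
      rw [sub_eq_zero.mpr h, mul_zero] at e0
      exact nz ht ht1 ht2 1 1 0 e0, by (first | rfl | ring1 | (field_simp; ring1) | (field_simp; done) | (simp only [bb, cc]; ring1) | (simp only [bb, cc]; field_simp; ring1) | (simp only [bb, cc]; field_simp; done))⟩⟩

include ht ht1 ht2 in
lemma r55 : LineOK (bb t) (cc t) ((t - 1) * (2 * t - 1) / t) ((t - 1) ^ 2 * (2 * t - 1) ^ 2 / t ^ 2) ((t - 1) * (2 * t - 1) / t) ((t - 1) ^ 2 * (2 * t - 1) ^ 2 / t ^ 2)
    (-((2 * t - 1)) / t) ((t - 1) * (2 * t - 1) ^ 2 / t) := by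
  refine ⟨by (first | rfl | ring1 | (field_simp; ring1) | (field_simp; done) | (simp only [bb, cc]; ring1) | (simp only [bb, cc]; field_simp; ring1) | (simp only [bb, cc]; field_simp; done)), Or.inr ⟨rfl, rfl, fun h => by
      have e0 : t ^ 0 * (t - 1) ^ 3 * (2 * t - 1) ^ 1 = (1 : k) * t ^ 2 * (2 * ((t - 1) ^ 2 * (2 * t - 1) ^ 2 / t ^ 2) + (1 - cc t) * ((t - 1) * (2 * t - 1) / t) - bb t) := by (first | rfl | ring1 | (field_simp; ring1) | (field_simp; done) | (simp only [bb, cc]; ring1) | (simp only [bb, cc]; field_simp; ring1) | (simp only [bb, cc]; field_simp; done))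
      rw [h, mul_zero] at e0
      exact nz ht ht1 ht2 0 3 1 e0, by (first | rfl | ring1 | (field_simp; ring1) | (field_simp; done) | (simp only [bb, cc]; ring1) | (simp only [bb, cc]; field_simp; ring1) | (simp only [bb, cc]; field_simp; done))⟩⟩

include ht ht1 ht2 in
lemma r56 : LineOK (bb t) (cc t) ((t - 1) * (2 * t - 1) / t) ((t - 1) ^ 2 * (2 * t - 1) ^ 2 / t ^ 2) ((t - 1) * (2 * t - 1)) (0)
    (-((2 * t - 1)) / t) ((t - 1) * (2 * t - 1) ^ 2 / t) := by
  refine ⟨by (first | rfl | ring1 | (field_simp; ring1) | (field_simp; done) | (simp only [bb, cc]; ring1) | (simp only [bb, cc]; field_simp; ring1) | (simp only [bb, cc]; field_simp; done)), Or.inl ⟨fun h => by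
      have e0 : t ^ 0 * (t - 1) ^ 2 * (2 * t - 1) ^ 1 = (-1 : k) * t ^ 1 * (((t - 1) * (2 * t - 1) / t) - ((t - 1) * (2 * t - 1))) := by (first | rfl | ring1 | (field_simp; ring1) | (field_simp; done) | (simp only [bb, cc]; ring1) | (simp only [bb, cc]; field_simp; ring1) | (simp only [bb, cc]; field_simp; done))
      rw [sub_eq_zero.mpr h, mul_zero] at e0
      exact nz ht ht1 ht2 0 2 1 e0, by (first | rfl | ring1 | (field_simp; ring1) | (field_simp; done) | (simp only [bb, cc]; ring1) | (simp only [bb, cc]; field_simp; ring1) | (simp only [bb, cc]; field_simp; done))⟩⟩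

include ht ht1 ht2 in
lemma r57 : LineOK (bb t) (cc t) ((t - 1) * (2 * t - 1) / t) ((t - 1) ^ 2 * (2 * t - 1) ^ 2 / t ^ 2) (0) ((t - 1) * (2 * t - 1))
    ((t ^ 2 - 3 * t + 1) / t) ((t - 1) * (2 * t - 1)) := by
  refine ⟨by (first | rfl | ring1 | (field_simp; ring1) | (field_simp; done) | (simp only [bb, cc]; ring1) | (simp only [bb, cc]; field_simp; ring1) | (simp only [bb, cc]; field_simp; done)), Or.inl ⟨fun h => by
      have e0 : t ^ 0 * (t - 1) ^ 1 * (2 * t - 1) ^ 1 = (1 : k) * t ^ 1 * (((t - 1) * (2 * t - 1) / t) - (0)) := by (first | rfl | ring1 | (field_simp; ring1) | (field_simp; done) | (simp only [bb, cc]; ring1) | (simp only [bb, cc]; field_simp; ring1) | (simp only [bb, cc]; field_simp; done))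
      rw [sub_eq_zero.mpr h, mul_zero] at e0
      exact nz ht ht1 ht2 0 1 1 e0, by (first | rfl | ring1 | (field_simp; ring1) | (field_simp; done) | (simp only [bb, cc]; ring1) | (simp only [bb, cc]; field_simp; ring1) | (simp only [bb, cc]; field_simp; done))⟩⟩

include ht ht1 ht2 in
lemma r66 : LineOK (bb t) (cc t) ((t - 1) * (2 * t - 1)) (0) ((t - 1) * (2 * t - 1)) (0)
    (-(t)) (t * (t - 1) * (2 * t - 1)) := by
  refine ⟨by (first | rfl | ring1 | (field_simp; ring1) | (field_simp; done) | (simp only [bb, cc]; ring1) | (simp only [bb, cc]; field_simp; ring1) | (simp only [bb, cc]; field_simp; done)), Or.inr ⟨rfl, rfl, fun h => by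
      have e0 : t ^ 0 * (t - 1) ^ 2 * (2 * t - 1) ^ 2 = (-1 : k) * t ^ 1 * (2 * (0) + (1 - cc t) * ((t - 1) * (2 * t - 1)) - bb t) := by (first | rfl | ring1 | (field_simp; ring1) | (field_simp; done) | (simp only [bb, cc]; ring1) | (simp only [bb, cc]; field_simp; ring1) | (simp only [bb, cc]; field_simp; done))
      rw [h, mul_zero] at e0
      exact nz ht ht1 ht2 0 2 2 e0, by (first | rfl | ring1 | (field_simp; ring1) | (field_simp; done) | (simp only [bb, cc]; ring1) | (simp only [bb, cc]; field_simp; ring1) | (simp only [bb, cc]; field_simp; done))⟩⟩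

include ht ht1 ht2 in
lemma r67 : LineOK (bb t) (cc t) ((t - 1) * (2 * t - 1)) (0) (0) ((t - 1) * (2 * t - 1))
    (-(1)) ((t - 1) * (2 * t - 1)) := by
  refine ⟨by (first | rfl | ring1 | (field_simp; ring1) | (field_simp; done) | (simp only [bb, cc]; ring1) | (simp only [bb, cc]; field_simp; ring1) | (simp only [bb, cc]; field_simp; done)), Or.inl ⟨fun h => by
      have e0 : t ^ 0 * (t - 1) ^ 1 * (2 * t - 1) ^ 1 = (1 : k) * (((t - 1) * (2 * t - 1)) - (0)) := by (first | rfl | ring1 | (field_simp; ring1) | (field_simp; done) | (simp only [bb, cc]; ring1) | (simp only [bb, cc]; field_simp; ring1) | (simp only [bb, cc]; field_simp; done))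
      rw [sub_eq_zero.mpr h, mul_zero] at e0
      exact nz ht ht1 ht2 0 1 1 e0, by (first | rfl | ring1 | (field_simp; ring1) | (field_simp; done) | (simp only [bb, cc]; ring1) | (simp only [bb, cc]; field_simp; ring1) | (simp only [bb, cc]; field_simp; done))⟩⟩

include ht ht1 ht2 in
lemma r77 : LineOK (bb t) (cc t) (0) ((t - 1) * (2 * t - 1)) (0) ((t - 1) * (2 * t - 1))
    ((2 * t ^ 2 - 4 * t + 1) / t) ((t - 1) * (2 * t - 1)) := by
  refine ⟨by (first | rfl | ring1 | (field_simp; ring1) | (field_simp; done) | (simp only [bb, cc]; ring1) | (simp only [bb, cc]; field_simp; ring1) | (simp only [bb, cc]; field_simp; done)), Or.inr ⟨rfl, rfl, fun h => by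
      have e0 : t ^ 0 * (t - 1) ^ 1 * (2 * t - 1) ^ 1 = (1 : k) * (2 * ((t - 1) * (2 * t - 1)) + (1 - cc t) * (0) - bb t) := by (first | rfl | ring1 | (field_simp; ring1) | (field_simp; done) | (simp only [bb, cc]; ring1) | (simp only [bb, cc]; field_simp; ring1) | (simp only [bb, cc]; field_simp; done))
      rw [h, mul_zero] at e0
      exact nz ht ht1 ht2 0 1 1 e0, by (first | rfl | ring1 | (field_simp; ring1) | (field_simp; done) | (simp only [bb, cc]; ring1) | (simp only [bb, cc]; field_simp; ring1) | (simp only [bb, cc]; field_simp; done))⟩⟩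

end table

variable [DecidableEq k]

/-- the multiples -/
lemma mem8 (ht : t ≠ 0) (ht1 : t - 1 ≠ 0) (ht2 : 2 * t - 1 ≠ 0) (hb : bb t ≠ 0) (h8 : (8 : ℕ) • P0 (cc t) hb = 0) {a a' : k}
    (h : inH (AddSubgroup.zmultiples (P0 (cc t) hb)) a a') : ∃ i, a = px t i ∧ a' = py t i := by
  obtain ⟨h1, h2⟩ := h
  obtain ⟨n, hn, hn'⟩ := mem_zm (by norm_num : 0 < 8) h8 h2
  obtain ⟨n2, e2⟩ := two_P0 (c := cc t) hb
  obtain ⟨n3, e3⟩ := three_P0 (c := cc t) hb
  have hc : cc t ≠ 0 := by
    unfold cc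
    exact div_ne_zero (mul_ne_zero ht2 ht1) ht
  have hd : bb t = t * cc t := by unfold bb cc; field_simp
  obtain ⟨n4, e4⟩ := four_P0 hb hc hd
  have e1 : (1 : ℕ) • P0 (cc t) hb = .some 0 0 (ns0 hb) := by rw [one_nsmul]; rfl
  interval_cases n
  · rw [zero_nsmul] at hn'
    exact absurd hn'.symm (Point.some_ne_zero _)
  · rw [e1] at hn'
    simp only [Point.some.injEq] at hn'
    refine ⟨0, ?_, ?_⟩
    · rw [← hn'.1]; show _ = 0; (first | rfl | ring1 | (field_simp; ring1) | (field_simp; done) | (simp only [bb, cc]; ring1) | (simp only [bb, cc]; field_simp; ring1) | (simp only [bb, cc]; field_simp; done))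
    · rw [← hn'.2]; show _ = 0; (first | rfl | ring1 | (field_simp; ring1) | (field_simp; done) | (simp only [bb, cc]; ring1) | (simp only [bb, cc]; field_simp; ring1) | (simp only [bb, cc]; field_simp; done))
  · rw [e2] at hn'
    simp only [Point.some.injEq] at hn'
    refine ⟨1, ?_, ?_⟩
    · rw [← hn'.1]; show _ = (t - 1) * (2 * t - 1); (first | rfl | ring1 | (field_simp; ring1) | (field_simp; done) | (simp only [bb, cc]; ring1) | (simp only [bb, cc]; field_simp; ring1) | (simp only [bb, cc]; field_simp; done))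
    · rw [← hn'.2]; show _ = (t - 1) ^ 2 * (2 * t - 1) ^ 2 / t; (first | rfl | ring1 | (field_simp; ring1) | (field_simp; done) | (simp only [bb, cc]; ring1) | (simp only [bb, cc]; field_simp; ring1) | (simp only [bb, cc]; field_simp; done))
  · rw [e3] at hn'
    simp only [Point.some.injEq] at hn'
    refine ⟨2, ?_, ?_⟩
    · rw [← hn'.1]; show _ = (t - 1) * (2 * t - 1) / t; (first | rfl | ring1 | (field_simp; ring1) | (field_simp; done) | (simp only [bb, cc]; ring1) | (simp only [bb, cc]; field_simp; ring1) | (simp only [bb, cc]; field_simp; done))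
    · rw [← hn'.2]; show _ = (t - 1) ^ 2 * (2 * t - 1) / t; (first | rfl | ring1 | (field_simp; ring1) | (field_simp; done) | (simp only [bb, cc]; ring1) | (simp only [bb, cc]; field_simp; ring1) | (simp only [bb, cc]; field_simp; done))
  · rw [e4] at hn'
    simp only [Point.some.injEq] at hn'
    refine ⟨3, ?_, ?_⟩
    · rw [← hn'.1]; show _ = t * (t - 1); (first | rfl | ring1 | (field_simp; ring1) | (field_simp; done) | (simp only [bb, cc]; ring1) | (simp only [bb, cc]; field_simp; ring1) | (simp only [bb, cc]; field_simp; done))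
    · rw [← hn'.2]; show _ = t * (t - 1) ^ 2; (first | rfl | ring1 | (field_simp; ring1) | (field_simp; done) | (simp only [bb, cc]; ring1) | (simp only [bb, cc]; field_simp; ring1) | (simp only [bb, cc]; field_simp; done))
  · obtain ⟨g1, g2⟩ := mem_neg hb h8 (by norm_num : 5 + 3 = 8) hn' e3
    refine ⟨4, ?_, ?_⟩
    · rw [g1]; show _ = (t - 1) * (2 * t - 1) / t; (first | rfl | ring1 | (field_simp; ring1) | (field_simp; done) | (simp only [bb, cc]; ring1) | (simp only [bb, cc]; field_simp; ring1) | (simp only [bb, cc]; field_simp; done))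
    · rw [g2]; show _ = (t - 1) ^ 2 * (2 * t - 1) ^ 2 / t ^ 2; (first | rfl | ring1 | (field_simp; ring1) | (field_simp; done) | (simp only [bb, cc]; ring1) | (simp only [bb, cc]; field_simp; ring1) | (simp only [bb, cc]; field_simp; done))
  · obtain ⟨g1, g2⟩ := mem_neg hb h8 (by norm_num : 6 + 2 = 8) hn' e2
    refine ⟨5, ?_, ?_⟩
    · rw [g1]; show _ = (t - 1) * (2 * t - 1); (first | rfl | ring1 | (field_simp; ring1) | (field_simp; done) | (simp only [bb, cc]; ring1) | (simp only [bb, cc]; field_simp; ring1) | (simp only [bb, cc]; field_simp; done))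
    · rw [g2]; show _ = 0; (first | rfl | ring1 | (field_simp; ring1) | (field_simp; done) | (simp only [bb, cc]; ring1) | (simp only [bb, cc]; field_simp; ring1) | (simp only [bb, cc]; field_simp; done))
  · obtain ⟨g1, g2⟩ := mem_neg hb h8 (by norm_num : 7 + 1 = 8) hn' e1
    refine ⟨6, ?_, ?_⟩
    · rw [g1]; show _ = 0; (first | rfl | ring1 | (field_simp; ring1) | (field_simp; done) | (simp only [bb, cc]; ring1) | (simp only [bb, cc]; field_simp; ring1) | (simp only [bb, cc]; field_simp; done))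
    · rw [g2]; show _ = (t - 1) * (2 * t - 1); (first | rfl | ring1 | (field_simp; ring1) | (field_simp; done) | (simp only [bb, cc]; ring1) | (simp only [bb, cc]; field_simp; ring1) | (simp only [bb, cc]; field_simp; done))

/-- the basis consists of functions supported on the multiples -/
lemma isUn_uF (ht : t ≠ 0) (ht1 : t - 1 ≠ 0) (ht2 : 2 * t - 1 ≠ 0) (hb : bb t ≠ 0) (h : UEG.Gen (Wt (bb t) (cc t)) x y) (j : Fin 7) :
    IsUn (AddSubgroup.zmultiples (P0 (cc t) hb)) x y (uF t x y j) := by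
  have m1 := inH_one (c := cc t) hb
  have m2 := inH_two (c := cc t) hb
  have m3 := inH_three (c := cc t) hb
  have hc : cc t ≠ 0 := by
    unfold cc
    exact div_ne_zero (mul_ne_zero ht2 ht1) ht
  have hd : bb t = t * cc t := by unfold bb cc; field_simp
  have m4 := inH_four (c := cc t) hb hc hd
  fin_cases j
  · have := isUn_x h m1
    rwa [map_zero, sub_zero] at this
  · exact isUn_x h m2
  · exact isUn_x h m3
  · exact isUn_x h m4
  · have h' : LineOK (bb t) (cc t) 0 0 0 0 0 0 := by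
      refine ⟨by ring, Or.inr ⟨rfl, rfl, fun h' => hb (by linear_combination -h'), by ring⟩⟩
    have := isUn_line h m1 m1 h'
    show IsUn _ _ _ y
    simpa using this
  · have h' : LineOK (bb t) (cc t) 0 0 (bb t) (bb t * cc t) (cc t) 0 :=
      ⟨by ring, Or.inl ⟨Ne.symm hb, by ring⟩⟩
    have := isUn_line h m1 m2 h'
    rwa [map_zero, add_zero] at this
  · have h' : LineOK (bb t) (cc t) 0 0 (cc t) (bb t - cc t) (t - 1) 0 :=
      ⟨by ring, Or.inl ⟨Ne.symm hc, by rw [hd]; ring⟩⟩
    have := isUn_line h m1 m3 h'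
    rwa [map_zero, add_zero] at this

/-- **the functions supported on the multiples of a point of order 8** -/
theorem isUn8 (ht : t ≠ 0) (ht1 : t - 1 ≠ 0) (ht2 : 2 * t - 1 ≠ 0) (hb : bb t ≠ 0) (h8 : (8 : ℕ) • P0 (cc t) hb = 0)
    (h : UEG.Gen (Wt (bb t) (cc t)) x y) (f : F) :
    IsUn (AddSubgroup.zmultiples (P0 (cc t) hb)) x y f ↔ IsMon k (uF t x y) f := by
  have hg := UE4.of_UEG h
  have hun := isUn_uF ht ht1 ht2 hb h
  have hu : ∀ j, uF t x y j ≠ 0 := fun j => (hun j).1
  have he := hg.eq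
  have M0 : IsMon k (uF t x y) x := isMon_u (u := uF t x y) 0
  have M1 : IsMon k (uF t x y) (x - algebraMap k F (bb t)) := isMon_u (u := uF t x y) 1
  have M2 : IsMon k (uF t x y) (x - algebraMap k F (cc t)) := isMon_u (u := uF t x y) 2
  have M3 : IsMon k (uF t x y) (x - algebraMap k F (t * (t - 1))) := isMon_u (u := uF t x y) 3
  refine isUn_tab h hu hun (px t) (py t) (fun a a' ha => mem8 ht ht1 ht2 hb h8 ha) ?_ ?_ f
  · intro i
    fin_cases i
    · show IsMon k _ (x - algebraMap k F 0)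
      rw [map_zero, sub_zero]; exact M0
    · show IsMon k _ (x - algebraMap k F ((t - 1) * (2 * t - 1)))
      rw [show ((t - 1) * (2 * t - 1) : k) = bb t by (first | rfl | ring1 | (field_simp; ring1) | (field_simp; done) | (simp only [bb, cc]; ring1) | (simp only [bb, cc]; field_simp; ring1) | (simp only [bb, cc]; field_simp; done))]; exact M1
    · show IsMon k _ (x - algebraMap k F ((t - 1) * (2 * t - 1) / t))
      rw [show ((t - 1) * (2 * t - 1) / t : k) = cc t by (first | rfl | ring1 | (field_simp; ring1) | (field_simp; done) | (simp only [bb, cc]; ring1) | (simp only [bb, cc]; field_simp; ring1) | (simp only [bb, cc]; field_simp; done))]; exact M2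
    · show IsMon k _ (x - algebraMap k F (t * (t - 1)))
      rw [show (t * (t - 1) : k) = t * (t - 1) by (first | rfl | ring1 | (field_simp; ring1) | (field_simp; done) | (simp only [bb, cc]; ring1) | (simp only [bb, cc]; field_simp; ring1) | (simp only [bb, cc]; field_simp; done))]; exact M3
    · show IsMon k _ (x - algebraMap k F ((t - 1) * (2 * t - 1) / t))
      rw [show ((t - 1) * (2 * t - 1) / t : k) = cc t by (first | rfl | ring1 | (field_simp; ring1) | (field_simp; done) | (simp only [bb, cc]; ring1) | (simp only [bb, cc]; field_simp; ring1) | (simp only [bb, cc]; field_simp; done))]; exact M2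
    · show IsMon k _ (x - algebraMap k F ((t - 1) * (2 * t - 1)))
      rw [show ((t - 1) * (2 * t - 1) : k) = bb t by (first | rfl | ring1 | (field_simp; ring1) | (field_simp; done) | (simp only [bb, cc]; ring1) | (simp only [bb, cc]; field_simp; ring1) | (simp only [bb, cc]; field_simp; done))]; exact M1
    · show IsMon k _ (x - algebraMap k F 0)
      rw [map_zero, sub_zero]; exact M0
  · intro i j hij
    fin_cases i <;> fin_cases j
    · exact Or.inr ⟨_, _, r11 ht ht1 ht2, l116 ht hu he⟩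
    · exact Or.inr ⟨_, _, r12 ht ht1 ht2, l125 ht hu he⟩
    · exact Or.inr ⟨_, _, r13 ht ht1 ht2, l134 ht hu he⟩
    · exact Or.inr ⟨_, _, r14 ht ht1 ht2, l134 ht hu he⟩
    · exact Or.inr ⟨_, _, r15 ht ht1 ht2, l125 ht hu he⟩
    · exact Or.inr ⟨_, _, r16 ht ht1 ht2, l116 ht hu he⟩
    · exact Or.inl ⟨rfl, by show (0 : k) = -((t - 1) * (2 * t - 1)) - (1 - cc t) * (0) + bb t; (first | rfl | ring1 | (field_simp; ring1) | (field_simp; done) | (simp only [bb, cc]; ring1) | (simp only [bb, cc]; field_simp; ring1) | (simp only [bb, cc]; field_simp; done))⟩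
    · exact absurd hij (by decide)
    · exact Or.inr ⟨_, _, r22 ht ht1 ht2, l224 ht hu he⟩
    · exact Or.inr ⟨_, _, r23 ht ht1 ht2, l233 ht hu he⟩
    · exact Or.inr ⟨_, _, r24 ht ht1 ht2, l224 ht hu he⟩
    · exact Or.inr ⟨_, _, r25 ht ht1 ht2, l125 ht hu he⟩
    · exact Or.inl ⟨rfl, by show ((t - 1) ^ 2 * (2 * t - 1) ^ 2 / t : k) = -(0) - (1 - cc t) * ((t - 1) * (2 * t - 1)) + bb t; (first | rfl | ring1 | (field_simp; ring1) | (field_simp; done) | (simp only [bb, cc]; ring1) | (simp only [bb, cc]; field_simp; ring1) | (simp only [bb, cc]; field_simp; done))⟩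
    · exact Or.inr ⟨_, _, r27 ht ht1 ht2, l277 ht hu he⟩
    · exact absurd hij (by decide)
    · exact absurd hij (by decide)
    · exact Or.inr ⟨_, _, r33 ht ht1 ht2, l233 ht hu he⟩
    · exact Or.inr ⟨_, _, r34 ht ht1 ht2, l134 ht hu he⟩
    · exact Or.inl ⟨rfl, by show ((t - 1) ^ 2 * (2 * t - 1) / t : k) = -((t - 1) ^ 2 * (2 * t - 1) ^ 2 / t ^ 2) - (1 - cc t) * ((t - 1) * (2 * t - 1) / t) + bb t; (first | rfl | ring1 | (field_simp; ring1) | (field_simp; done) | (simp only [bb, cc]; ring1) | (simp only [bb, cc]; field_simp; ring1) | (simp only [bb, cc]; field_simp; done))⟩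
    · exact Or.inr ⟨_, _, r36 ht ht1 ht2, l367 ht hu he⟩
    · exact Or.inr ⟨_, _, r37 ht ht1 ht2, l367 ht hu he⟩
    · exact absurd hij (by decide)
    · exact absurd hij (by decide)
    · exact absurd hij (by decide)
    · exact Or.inl ⟨rfl, by show (t * (t - 1) ^ 2 : k) = -(t * (t - 1) ^ 2) - (1 - cc t) * (t * (t - 1)) + bb t; (first | rfl | ring1 | (field_simp; ring1) | (field_simp; done) | (simp only [bb, cc]; ring1) | (simp only [bb, cc]; field_simp; ring1) | (simp only [bb, cc]; field_simp; done))⟩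
    · exact Or.inr ⟨_, _, r45 ht ht1 ht2, l457 ht hu he⟩
    · exact Or.inr ⟨_, _, r46 ht ht1 ht2, l466 ht hu he⟩
    · exact Or.inr ⟨_, _, r47 ht ht1 ht2, l457 ht hu he⟩
    · exact absurd hij (by decide)
    · exact absurd hij (by decide)
    · exact absurd hij (by decide)
    · exact absurd hij (by decide)
    · exact Or.inr ⟨_, _, r55 ht ht1 ht2, l556 ht hu he⟩
    · exact Or.inr ⟨_, _, r56 ht ht1 ht2, l556 ht hu he⟩
    · exact Or.inr ⟨_, _, r57 ht ht1 ht2, l457 ht hu he⟩
    · exact absurd hij (by decide)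
    · exact absurd hij (by decide)
    · exact absurd hij (by decide)
    · exact absurd hij (by decide)
    · exact absurd hij (by decide)
    · exact Or.inr ⟨_, _, r66 ht ht1 ht2, l466 ht hu he⟩
    · exact Or.inr ⟨_, _, r67 ht ht1 ht2, l367 ht hu he⟩
    · exact absurd hij (by decide)
    · exact absurd hij (by decide)
    · exact absurd hij (by decide)
    · exact absurd hij (by decide)
    · exact absurd hij (by decide)
    · exact absurd hij (by decide)
    · exact Or.inr ⟨_, _, r77 ht ht1 ht2, l277 ht hu he⟩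

end Pool.Agent.UE8
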