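import Pool.Agent.Lib_helper76.UE8.P11
import Pool.Agent.Lib_helper40.UP.Comb8
import Pool.Agent.Lib_helper76.FAM.Conj

/-!
# Points of order eight: the combinatorial statement holds
-/

set_option autoImplicit false
set_option linter.unusedSectionVars false

namespace Pool.Agent.UE8

open WeierstrassCurve.Affine GK UP
open UEG (P0)
open TN (Wt)
open FK4 (Generic UnitEq8 Indep3 ClosedIn SameS OnlyConst)

/-- **the combinatorial statement for the cyclic group of order eight** -/
theorem main8 : Main8 := by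
  intro D E G d h hRH h1 h2
  have e : ∀ D : ZMod 8 → ℤ, ∑ x, (if D x ≠ 0 then (1 : ℤ) else 0) =
      ((Finset.univ.filter fun x => D x ≠ 0).card : ℤ) := fun D => by
    rw [Finset.sum_boole]
  rw [e, e, e] at hRH
  rcases h.main8 hRH h1 h2 with h3 | ⟨t, h3⟩
  · exact Or.inl h3
  · exact Or.inr ⟨t, h3⟩

variable {k : Type*} [Field k] [DecidableEq k] [CharZero k] {t : k}
  {F : Type*} [Field F] [Algebra k F] {x y : F} {W : WeierstrassCurve.Affine k} {X Y : F}
  {P : W.Point}

/-- **points of order eight with independent parameters** -/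
theorem eight_general (hg : Generic W X Y) (ht : t ≠ 0) {hb : bb t ≠ 0}
    (hO : addOrderOf (P0 (cc t) hb) = 8) (h : Generic (Wt (bb t) (cc t)) x y)
    (hS : SameS (AddSubgroup.zmultiples P) X Y (AddSubgroup.zmultiples (P0 (cc t) hb)) x y)
    (hi : Indep3 t (t - 1) (2 * t - 1)) :
    UnitEq8 (AddSubgroup.zmultiples P) X Y ((2 * t - 1) * (t - 1)) ((2 * t - 1) * (t - 1) / t) x y ∧
      ClosedIn (AddSubgroup.zmultiples P) X Y ⊥ :=
  eight_gen main8 hg ht hO h hS hi

end Pool.Agent.UE8

namespace Pool.Agent.FK4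

open Pool.Agent.MK4 WeierstrassCurve.Affine
open Pool.Agent.TN (Wt)
open Pool.Agent.UEG (P0)

variable {k : Type*} [Field k] [DecidableEq k] [CharZero k] {W : WeierstrassCurve.Affine k}
  {F : Type*} [Field F] [Algebra k F] {X Y : F}

/-- **points of order eight**: the generic clause, and the two special curves -/
theorem eight_main (hg : Generic W X Y) (P : W.Point) (h : addOrderOf P = 8) :
    ∃ (d : k) (x y : F), Tate P X Y ((2 * d - 1) * (d - 1)) ((2 * d - 1) * (d - 1) / d) x y ∧
      (Indep3 d (d - 1) (2 * d - 1) →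
        UnitEq8 (AddSubgroup.zmultiples P) X Y ((2 * d - 1) * (d - 1))
          ((2 * d - 1) * (d - 1) / d) x y ∧ ClosedIn (AddSubgroup.zmultiples P) X Y ⊥) ∧
      (d = 2 ∨ d = -1 → To8 P X Y) ∧ (3 * d = 1 ∨ 3 * d = 2 → To8' P X Y) := by
  obtain ⟨t, x, y, hb, ht, -, -, hT, hg', hO, hS, -, h1, h2⟩ := tate8s hg P h
  exact ⟨t, x, y, hT, fun hi => UE8.eight_general hg ht hO hg' hS hi, h1, h2⟩

end Pool.Agent.FK4
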