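import Pool.Agent.Lib_helper76.UE8.P9
import Pool.Agent.Lib_helper40.MC.P2
import Pool.Agent.Lib_helper40.MC.T8g.Ix
import Pool.Agent.Lib_helper87.FAM.Siegel

/-!
# Closed elements for a point of order eight, from the certificate
-/

set_option autoImplicit false
set_option linter.unusedSectionVars false
set_option maxRecDepth 100000

open scoped TensorProduct

namespace Pool.Agent.UE8

open WeierstrassCurve.Affine Polynomial WithZero GK UP
open UEG (Gen IsUn LineOK P0 negY_wt)
open TN (Wt Orb)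
open MK4 (FT lg)
open FK4 (LineS Supp supp_iff OnlyConst Generic)
open KC72 N8C

section general

variable {k : Type*} [Field k] [DecidableEq k] [CharZero k] {W : WeierstrassCurve.Affine k}
  {F : Type*} [Field F] [DecidableEq F] [Algebra k F] {X Y : F} {P : W.Point}
  {hO : addOrderOf P = 8}
  [Fintype (AddSubgroup.zmultiples P)] [DecidableEq (AddSubgroup.zmultiples P)]
  {hg : Gen W X Y}

lemma pq_evl {g : List F} {ds : List (ZMod 8 → ℤ)}
    (h : List.Forall₂ (fun f d => PQ hO hg f d) g ds) (e : List ℤ) :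
    PQ hO hg (evl g e) (dvl ds e) := by
  induction h generalizing e with
  | nil =>
    rw [evl_nil_left]
    refine (PQ.one hg).congr fun x => ?_
    cases e <;> rfl
  | cons h1 _ ih =>
    cases e with
    | nil =>
      rw [evl_nil_right]
      exact (PQ.one hg).congr fun x => rfl
    | cons n es =>
      rw [evl_cons]
      exact ((h1.zpow n).mul (ih es)).congr fun x => rfl

lemma pq_ne {g : List F} {ds : List (ZMod 8 → ℤ)}
    (h : List.Forall₂ (fun f d => PQ hO hg f d) g ds) : ∀ z ∈ g, z ≠ 0 := by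
  induction h with
  | nil => simp
  | cons h1 _ ih =>
    intro z hz
    rcases List.mem_cons.mp hz with rfl | hz
    · exact h1.1.1
    · exact ih z hz

lemma pq_ev {g : List F} {ds : List (ZMod 8 → ℤ)}
    (h : List.Forall₂ (fun f d => PQ hO hg f d) g ds) (a : Mo) :
    PQ hO hg (ev g a) (dvl ds a.2) := by
  unfold ev
  rcases a with ⟨_ | _, a⟩
  · rw [cond_false, one_mul]; exact pq_evl h a
  · rw [cond_true, neg_one_mul]; exact (pq_evl h a).neg

end general

section main

variable {k : Type*} [Field k] [DecidableEq k] [CharZero k] {t : k}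
  {F : Type*} [Field F] [Algebra k F] {x y : F}

/-- the generators of the certificate -/
def G8 (t : k) (x y : F) : Fin 10 → F := ![x, x - algebraMap k F (bb t), x - algebraMap k F (cc t),
  x - algebraMap k F (t * (t - 1)), y, y - algebraMap k F (cc t) * x,
  y - algebraMap k F (t - 1) * x, algebraMap k F t, algebraMap k F (t - 1),
  algebraMap k F (2 * t - 1)]

section

variable [DecidableEq F]

lemma ofFn_G8 (ht : t ≠ 0) : List.ofFn (G8 t x y) =
    gl8 x y (algebraMap k F t) (algebraMap k F (cc t)) := by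
  have e1 : List.ofFn (G8 t x y) = [x, x - algebraMap k F (bb t), x - algebraMap k F (cc t),
    x - algebraMap k F (t * (t - 1)), y, y - algebraMap k F (cc t) * x,
    y - algebraMap k F (t - 1) * x, algebraMap k F t, algebraMap k F (t - 1),
    algebraMap k F (2 * t - 1)] := rfl
  rw [e1, eB ht]
  unfold gl8
  simp only [map_mul, map_sub, map_one, map_ofNat]

variable (ht : t ≠ 0) (ht1 : t - 1 ≠ 0) (ht2 : 2 * t - 1 ≠ 0) {hb : bb t ≠ 0}
    (hO : addOrderOf (P0 (cc t) hb) = 8) [Fintype (AddSubgroup.zmultiples (P0 (cc t) hb))]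
    [DecidableEq (AddSubgroup.zmultiples (P0 (cc t) hb))] (hg : Gen (Wt (bb t) (cc t)) x y)

include ht ht1 ht2 in
lemma pq_G8 : List.Forall₂ (fun f d => PQ hO hg f d)
    (gl8 x y (algebraMap k F t) (algebraMap k F (cc t))) ds8 := by
  rw [← ofFn_G8 ht]
  have e1 : List.ofFn (G8 t x y) = [x, x - algebraMap k F (bb t), x - algebraMap k F (cc t),
    x - algebraMap k F (t * (t - 1)), y, y - algebraMap k F (cc t) * x,
    y - algebraMap k F (t - 1) * x, algebraMap k F t, algebraMap k F (t - 1),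
    algebraMap k F (2 * t - 1)] := rfl
  rw [e1]
  unfold ds8
  have h := pq_uF ht ht1 ht2 hb hO hg
  exact .cons (h 0) (.cons (h 1) (.cons (h 2) (.cons (h 3) (.cons (h 4) (.cons (h 5)
    (.cons (h 6) (.cons (PQ.const hg ht) (.cons (PQ.const hg ht1)
    (.cons (PQ.const hg ht2) .nil)))))))))

include ht ht1 ht2 hO hg in
lemma gl8_ne : ∀ z ∈ gl8 x y (algebraMap k F t) (algebraMap k F (cc t)), z ≠ 0 :=
  pq_ne (pq_G8 ht ht1 ht2 hO hg)

include ht ht1 ht2 hO hg in
lemma sols8' : Sols (gl8 x y (algebraMap k F t) (algebraMap k F (cc t))) c8g_cls := by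
  obtain ⟨he, hC, -⟩ := dat ht ht1 ht2 hb hg
  exact sols8 he hC (gl8_ne ht ht1 ht2 hO hg)

/-- the orbits of the classes -/
def R8 (t : k) (x y f : F) : Prop :=
  ∃ c ∈ c8g_cls, Orb (ev (gl8 x y (algebraMap k F t) (algebraMap k F (cc t))) c.1) f

include ht ht1 ht2 hO hg in
lemma ev_ne01 {c : Mo × Mo} (hc : c ∈ c8g_cls) :
    ev (gl8 x y (algebraMap k F t) (algebraMap k F (cc t))) c.1 ≠ 0 ∧
    ev (gl8 x y (algebraMap k F t) (algebraMap k F (cc t))) c.1 - 1 ≠ 0 ∧
    1 - ev (gl8 x y (algebraMap k F t) (algebraMap k F (cc t))) c.1 =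
      ev (gl8 x y (algebraMap k F t) (algebraMap k F (cc t))) c.2 := by
  have h1 := sols8' ht ht1 ht2 hO hg c hc
  have h2 := ev_ne (gl8_ne ht ht1 ht2 hO hg) c.2
  refine ⟨ev_ne (gl8_ne ht ht1 ht2 hO hg) c.1, fun h3 => h2 ?_, by linear_combination -h1⟩
  linear_combination h1 - h3

include ht ht1 ht2 hO hg in
lemma r8_sub (f : F) (h : R8 t x y (1 - f)) : R8 t x y f := by
  obtain ⟨c, hc, h⟩ := h
  obtain ⟨h1, h2, -⟩ := ev_ne01 ht ht1 ht2 hO hg hc
  exact ⟨c, hc, orb_sub h1 h2 h⟩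

include ht ht1 ht2 hO hg in
lemma r8_inv (f : F) (h : R8 t x y f⁻¹) : R8 t x y f := by
  obtain ⟨c, hc, h⟩ := h
  obtain ⟨h1, h2, -⟩ := ev_ne01 ht ht1 ht2 hO hg hc
  exact ⟨c, hc, orb_inv h1 h2 h⟩

include ht ht1 ht2 in
lemma r8_mat {f : F} {D E G : ZMod 8 → ℤ} (h : Q3 hO hg f D E G) (hm : Mat D E G) :
    R8 t x y f := by
  obtain ⟨c, hc, ⟨z, hz⟩, ho⟩ := hm
  obtain ⟨f', A, B, C, ⟨hE1, hE2⟩, h', hR⟩ := h.six (r8_sub ht ht1 ht2 hO hg)
    (r8_inv ht ht1 ht2 hO hg) ho
  apply hR
  refine ⟨c, hc, Or.inl ?_⟩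
  have p1 := pq_ev (pq_G8 ht ht1 ht2 hO hg) c.1
  have p2 := pq_ev (pq_G8 ht ht1 ht2 hO hg) c.2
  rw [← (ev_ne01 ht ht1 ht2 hO hg hc).2.2] at p2
  exact (h'.p.congr hE1).eq p1 (h'.q.congr hE2) p2 hz

include ht ht1 ht2 in
lemma st8R : St8 hO hg (R8 t x y) where
  hs := r8_sub ht ht1 ht2 hO hg
  hi := r8_inv ht ht1 ht2 hO hg
  hp _ _ _ _ _ hn h := r8_mat ht ht1 ht2 hO hg h (mat_nd hn)
  h1 _ h := r8_mat ht ht1 ht2 hO hg h mat_1
  h2 _ h := r8_mat ht ht1 ht2 hO hg h mat_2

end

/-- the divisors are independent -/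
lemma dM_inj {e : Fin 7 → ℤ} (h : ∀ x, dM e x = 0) : e = 0 := by
  have q1 : e 0 * (1) + e 1 * (0) + e 2 * (0) + e 3 * (0) + e 4 * (2) + e 5 * (1) + e 6 * (1) = 0 := by
    have := h 1
    unfold dM at this
    rw [Fin.sum_univ_seven] at this
    exact this
  have q2 : e 0 * (0) + e 1 * (1) + e 2 * (0) + e 3 * (0) + e 4 * (0) + e 5 * (1) + e 6 * (0) = 0 := by
    have := h 2
    unfold dM at this
    rw [Fin.sum_univ_seven] at this
    exact this
  have q3 : e 0 * (0) + e 1 * (0) + e 2 * (1) + e 3 * (0) + e 4 * (0) + e 5 * (0) + e 6 * (1) = 0 := by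
    have := h 3
    unfold dM at this
    rw [Fin.sum_univ_seven] at this
    exact this
  have q4 : e 0 * (0) + e 1 * (0) + e 2 * (0) + e 3 * (2) + e 4 * (0) + e 5 * (0) + e 6 * (1) = 0 := by
    have := h 4
    unfold dM at this
    rw [Fin.sum_univ_seven] at this
    exact this
  have q5 : e 0 * (0) + e 1 * (0) + e 2 * (1) + e 3 * (0) + e 4 * (0) + e 5 * (1) + e 6 * (0) = 0 := by
    have := h 5
    unfold dM at this
    rw [Fin.sum_univ_seven] at this
    exact this
  have q6 : e 0 * (0) + e 1 * (1) + e 2 * (0) + e 3 * (0) + e 4 * (1) + e 5 * (0) + e 6 * (0) = 0 := by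
    have := h 6
    unfold dM at this
    rw [Fin.sum_univ_seven] at this
    exact this
  have q7 : e 0 * (1) + e 1 * (0) + e 2 * (0) + e 3 * (0) + e 4 * (0) + e 5 * (0) + e 6 * (0) = 0 := by
    have := h 7
    unfold dM at this
    rw [Fin.sum_univ_seven] at this
    exact this
  funext i
  fin_cases i
  · show e 0 = 0; omega
  · show e 1 = 0; omega
  · show e 2 = 0; omega
  · show e 3 = 0; omega
  · show e 4 = 0; omega
  · show e 5 = 0; omega
  · show e 6 = 0; omega

/-- **the closed elements for a point of order eight are constant** -/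
theorem closed8 (hM : Main8) (ht : t ≠ 0) (hb : bb t ≠ 0) (hi : Ind3 t)
    (hO : addOrderOf (P0 (cc t) hb) = 8) (h : Generic (Wt (bb t) (cc t)) x y) :
    OnlyConst (AddSubgroup.zmultiples (P0 (cc t) hb)) x y := by
  classical
  have ht1 : t - 1 ≠ 0 := by intro h; apply hb; unfold bb; rw [h, mul_zero]
  have ht2 : 2 * t - 1 ≠ 0 := by intro h; apply hb; unfold bb; rw [h, zero_mul]
  have hfin : Finite (AddSubgroup.zmultiples (P0 (cc t) hb)) :=
    Finite.of_equiv _ (e8 hO).toEquiv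
  have hft : Fintype (AddSubgroup.zmultiples (P0 (cc t) hb)) := Fintype.ofFinite _
  have hg := h.toU
  have hG := indG_of (F := F) (siegel8 hb ht hO hi)
  have hU := fun (f : F) => unit8' ht ht1 ht2 hO hg hM hi hG (st8R ht ht1 ht2 hO hg) (f := f)
  have hs := pq_uF ht ht1 ht2 hb hO hg
  have hsc : MC.sameC MC8g.c8g.cls c8g_cls = true := MC8g.same
  refine FK4.only_rcert MC8g.c8g_ok (n := 10) (r := 7) rfl rfl (cls := c8g_cls) hsc
    (G := G8 t x y) (by norm_num) ?_ ?_ ?_ ?_ ?_ ?_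
  · intro i
    rw [supp_iff]
    fin_cases i
    · exact (hs 0).1
    · exact (hs 1).1
    · exact (hs 2).1
    · exact (hs 3).1
    · exact (hs 4).1
    · exact (hs 5).1
    · exact (hs 6).1
    · exact (PQ.const (hO := hO) hg ht).1
    · exact (PQ.const (hO := hO) hg ht1).1
    · exact (PQ.const (hO := hO) hg ht2).1
  · intro i hi'
    fin_cases i
    · simp at hi'
    · simp at hi'
    · simp at hi'
    · simp at hi'
    · simp at hi'
    · simp at hi'
    · simp at hi'
    · exact ⟨t, rfl⟩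
    · exact ⟨t - 1, rfl⟩
    · exact ⟨2 * t - 1, rfl⟩
  · intro e c hc he
    apply dM_inj
    intro z
    have h1 := pq_mo ht ht1 ht2 hO hg e
    have h2 : mo t x y e = algebraMap k F c := by
      rw [← he]
      unfold mo
      refine Finset.prod_congr rfl fun i _ => ?_
      congr 1
      fin_cases i <;> rfl
    rw [h2] at h1
    exact h1.unique (PQ.const hg hc) z
  · intro e h0 he
    have z0 := h0 0 (by norm_num)
    have z1 := h0 1 (by norm_num)
    have z2 := h0 2 (by norm_num)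
    have z3 := h0 3 (by norm_num)
    have z4 := h0 4 (by norm_num)
    have z5 := h0 5 (by norm_num)
    have z6 := h0 6 (by norm_num)
    have h1 : algebraMap k F (t ^ e 7 * (t - 1) ^ e 8 * (2 * t - 1) ^ e 9) = 1 := by
      rw [← he, map_mul, map_mul, map_zpow₀, map_zpow₀, map_zpow₀]
      simp only [Fin.prod_univ_succ, Fin.prod_univ_zero, mul_one]
      have e0 : ∀ z : F, z ^ (0 : ℤ) = 1 := fun z => zpow_zero z
      show _ = G8 t x y 0 ^ e 0 * (G8 t x y 1 ^ e 1 * (G8 t x y 2 ^ e 2 * (G8 t x y 3 ^ e 3 *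
        (G8 t x y 4 ^ e 4 * (G8 t x y 5 ^ e 5 * (G8 t x y 6 ^ e 6 * (G8 t x y 7 ^ e 7 *
        (G8 t x y 8 ^ e 8 * G8 t x y 9 ^ e 9))))))))
      rw [z0, z1, z2, z3, z4, z5, z6, e0, e0, e0, e0, e0, e0, e0]
      simp only [one_mul]
      rw [mul_assoc]
      rfl
    rw [← map_one (algebraMap k F)] at h1
    obtain ⟨g1, g2, g3⟩ := hi _ _ _ ((algebraMap k F).injective h1)
    funext i
    fin_cases i
    · exact z0
    · exact z1
    · exact z2
    · exact z3
    · exact z4
    · exact z5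
    · exact z6
    · exact g1
    · exact g2
    · exact g3
  · rw [ofFn_G8 ht]
    exact sols8' ht ht1 ht2 hO hg
  · intro f h1 h2
    rw [ofFn_G8 ht]
    exact hU f (supp_iff.mp h1) (supp_iff.mp h2)

end main

end Pool.Agent.UE8
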