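import Pool.Agent.Lib_helper76.UE8.P6
import Pool.Agent.Lib_helper76.FAM.Thr

/-!
# The unit equation on the multiples of a point of order eight, from the three fibres
-/

set_option autoImplicit false
set_option linter.unusedSectionVars false

open scoped TensorProduct

namespace Pool.Agent.UE8

open WeierstrassCurve.Affine Polynomial WithZero GK UP
open UEG (Gen IsUn LineOK P0 negY_wt)
open TN (Wt Orb)
open MK4 (FT lg)
open FK4 (LineS Supp supp_iff)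

section orb

variable {F : Type*} [Field F] {u f : F}

lemma orb_sub (hu0 : u ≠ 0) (hu1 : u - 1 ≠ 0) (h : Orb u (1 - f)) : Orb u f := by
  have hu2 : 1 - u ≠ 0 := by rw [← neg_sub]; exact neg_ne_zero.mpr hu1
  have e : ∀ v : F, 1 - f = v → f = 1 - v := fun v hv => by rw [← hv]; ring
  rcases h with h | h | h | h | h | h
  · exact Or.inr (Or.inl (e _ h))
  · exact Or.inl (by rw [e _ h]; ring)
  · exact Or.inr (Or.inr (Or.inr (Or.inl (e _ h))))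
  · exact Or.inr (Or.inr (Or.inl (by rw [e _ h]; ring)))
  · refine Or.inr (Or.inr (Or.inr (Or.inr (Or.inr ?_))))
    rw [e _ h]
    field_simp
    ring
  · refine Or.inr (Or.inr (Or.inr (Or.inr (Or.inl ?_))))
    rw [e _ h]
    field_simp
    ring

lemma orb_inv (hu0 : u ≠ 0) (hu1 : u - 1 ≠ 0) (h : Orb u f⁻¹) : Orb u f := by
  have hu2 : 1 - u ≠ 0 := by rw [← neg_sub]; exact neg_ne_zero.mpr hu1
  have e : ∀ v : F, f⁻¹ = v → f = v⁻¹ := fun v hv => by rw [← hv, inv_inv]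
  rcases h with h | h | h | h | h | h
  · exact Or.inr (Or.inr (Or.inl (by rw [e _ h, one_div])))
  · exact Or.inr (Or.inr (Or.inr (Or.inr (Or.inl (by rw [e _ h, one_div])))))
  · exact Or.inl (by rw [e _ h, one_div, inv_inv])
  · refine Or.inr (Or.inr (Or.inr (Or.inr (Or.inr ?_))))
    rw [e _ h]
    have : 1 - 1 / u = (u - 1) / u := by field_simp
    rw [this, inv_div]
  · exact Or.inr (Or.inl (by rw [e _ h, one_div, inv_inv]))
  · refine Or.inr (Or.inr (Or.inr (Or.inl ?_)))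
    rw [e _ h, inv_div]
    field_simp

end orb

section general

variable {k : Type*} [Field k] [DecidableEq k] [CharZero k] {W : WeierstrassCurve.Affine k}
  {F : Type*} [Field F] [DecidableEq F] [Algebra k F] {X Y X' Y' : F} {P : W.Point}
  {hO : addOrderOf P = 8}
  [Fintype (AddSubgroup.zmultiples P)] [DecidableEq (AddSubgroup.zmultiples P)]
  {hg : Gen W X Y} {f : F} {D E G : ZMod 8 → ℤ}

lemma Q3.congr (h : Q3 hO hg f D E G) {D' E' G' : ZMod 8 → ℤ} (h1 : ∀ x, D x = D' x)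
    (h2 : ∀ x, E x = E' x) (h3 : ∀ x, G x = G' x) : Q3 hO hg f D' E' G' := by
  rw [← funext h1, ← funext h2, ← funext h3]; exact h

/-- one of the six orders -/
def Six (P : (ZMod 8 → ℤ) → (ZMod 8 → ℤ) → (ZMod 8 → ℤ) → Prop) (D E G : ZMod 8 → ℤ) : Prop :=
  P D E G ∨ P D G E ∨ P E D G ∨ P E G D ∨ P G D E ∨ P G E D

lemma Q3.six (h : Q3 hO hg f D E G) {R : F → Prop} (hs : ∀ f, R (1 - f) → R f)
    (hi : ∀ f, R f⁻¹ → R f) {P : (ZMod 8 → ℤ) → (ZMod 8 → ℤ) → (ZMod 8 → ℤ) → Prop}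
    (ho : Six P D E G) : ∃ (f' : F) (A B C : ZMod 8 → ℤ), P A B C ∧ Q3 hO hg f' A B C ∧
      (R f' → R f) := by
  rcases ho with ho | ho | ho | ho | ho | ho
  · exact ⟨_, _, _, _, ho, h, id⟩
  · exact ⟨_, _, _, _, ho, h.sub.inv.sub, fun h => hs _ (hi _ (hs _ h))⟩
  · exact ⟨_, _, _, _, ho, h.sub, fun h => hs _ h⟩
  · exact ⟨_, _, _, _, ho, h.inv.sub, fun h => hi _ (hs _ h)⟩
  · exact ⟨_, _, _, _, ho, h.sub.inv, fun h => hs _ (hi _ h)⟩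
  · exact ⟨_, _, _, _, ho, h.inv, fun h => hi _ h⟩

/-- the pencils -/
theorem pencil8 {d : ℤ} (hT : Tr D E G d) (h : Q3 hO hg f D E G) {S p q r : ZMod 8} {N : ℤ}
    (hN : 0 < N) (a1 : ∀ x, D x = N * mz S p x) (a2 : ∀ x, E x = N * mz S r x)
    (a3 : ∀ x, G x = N * mz S q x) : LineS (AddSubgroup.zmultiples P) X Y f := by
  obtain ⟨⟨hf, κ, w, h1⟩, ⟨hf', κ', w', h2⟩⟩ := h
  have hmz : ∀ (S p : ZMod 8) (a : AddSubgroup.zmultiples P), mz (e8 hO S) (e8 hO p) a =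
      mz S p ((e8 hO).symm a) := by
    intro S p a
    unfold mz
    simp only [← map_sub, AddEquiv.symm_apply_eq]
  have pos : ∀ S x : ZMod 8, 0 < mz S x x := fun S x => by
    unfold mz
    rw [if_pos rfl]
    split_ifs <;> norm_num
  have pos' : ∀ S x : ZMod 8, 0 < mz S x (S - x) := fun S x => by
    unfold mz
    rw [if_pos rfl]
    split_ifs <;> norm_num
  have b1 := hT.gd
  have b2 := hT.eg
  have b3 := hT.de
  simp only [a1, a2, a3] at b1 b2 b3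
  have hN0 : N ≠ 0 := hN.ne'
  have m0 : ∀ {S x y : ZMod 8}, 0 < mz S x y → N * mz S x y ≠ 0 :=
    fun h => mul_ne_zero hN0 h.ne'
  have inj : ∀ {a b : ZMod 8}, a ≠ b → e8 hO a ≠ e8 hO b := fun h h' => h ((e8 hO).injective h')
  have hn : Nd (e8 hO S) (e8 hO p) (e8 hO q) (e8 hO r) := by
    unfold Nd
    simp only [← map_sub]
    refine ⟨inj ?_, inj ?_, inj ?_, inj ?_, inj ?_, inj ?_⟩
    · rintro rfl
      exact m0 (pos S p) (b1 p (m0 (pos S p)))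
    · rintro rfl
      exact m0 (pos S (S - q)) (b1 (S - q) (m0 (pos' S q)))
    · rintro rfl
      exact m0 (pos S q) (b2 q (m0 (pos S q)))
    · rintro rfl
      exact m0 (pos S (S - r)) (b2 (S - r) (m0 (pos' S r)))
    · rintro rfl
      exact m0 (pos S p) (b3 p (m0 (pos S p)))
    · rintro rfl
      exact m0 (pos' S r) (b3 (S - r) (m0 (pos S (S - r))))
  refine case_two lc_ok ac_ok powers_ok hg hf hf' h1 h2 hN hn (fun x => ?_) (fun x => ?_)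
  · show D _ - G _ = _
    rw [a1, a3, hmz, hmz]; ring
  · show E _ - G _ = _
    rw [a2, a3, hmz, hmz]; ring

end general

section main

/-- the exceptional triples -/
def Ex8 (A B C : ZMod 8 → ℤ) : Prop :=
  (A = (![2, 0, 0, 0, 2, 0, 0, 0] : Fin 8 → ℤ) ∧ B = (![0, 3, 0, 0, 0, 1, 0, 0] : Fin 8 → ℤ) ∧
    C = (![0, 0, 0, 1, 0, 0, 0, 3] : Fin 8 → ℤ)) ∨
  (A = (![0, 3, 0, 0, 0, 1, 0, 0] : Fin 8 → ℤ) ∧ B = (![4, 0, 0, 0, 0, 0, 0, 0] : Fin 8 → ℤ) ∧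
    C = (![0, 0, 4, 0, 0, 0, 0, 0] : Fin 8 → ℤ)) ∨
  (A = (![0, 0, 0, 3, 0, 0, 0, 1] : Fin 8 → ℤ) ∧ B = (![4, 0, 0, 0, 0, 0, 0, 0] : Fin 8 → ℤ) ∧
    C = (![0, 0, 0, 0, 0, 0, 4, 0] : Fin 8 → ℤ)) ∨
  (A = (![1, 0, 1, 0, 1, 0, 1, 0] : Fin 8 → ℤ) ∧ B = (![0, 2, 0, 0, 0, 2, 0, 0] : Fin 8 → ℤ) ∧
    C = (![0, 0, 0, 2, 0, 0, 0, 2] : Fin 8 → ℤ)) ∨
  (A = (![2, 0, 2, 0, 2, 0, 2, 0] : Fin 8 → ℤ) ∧ B = (![0, 4, 0, 0, 0, 4, 0, 0] : Fin 8 → ℤ) ∧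
    C = (![0, 0, 0, 4, 0, 0, 0, 4] : Fin 8 → ℤ))

/-- the combinatorial statement -/
def Main8 : Prop := ∀ {D E G : ZMod 8 → ℤ} {d : ℤ}, Tr D E G d →
  d ≤ ∑ x, (if D x ≠ 0 then 1 else 0) + ∑ x, (if E x ≠ 0 then 1 else 0) +
    ∑ x, (if G x ≠ 0 then 1 else 0) → ∑ x, (D x - G x) • x = 0 → ∑ x, (E x - G x) • x = 0 →
  (∃ (S p q r : ZMod 8) (n : ℤ), 0 < n ∧ (∀ x, D x = n * mz S p x) ∧ (∀ x, E x = n * mz S r x) ∧
    (∀ x, G x = n * mz S q x)) ∨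
  ∃ s : ZMod 8, Six (fun A B C => Ex8 (fun x => A (x + s)) (fun x => B (x + s))
    (fun x => C (x + s))) D E G

/-- a vector as a function on `ZMod 8` -/
def vz (v : Fin 8 → ℤ) : ZMod 8 → ℤ := v

/-- the translates of line 4 -/
lemma shift4 (s : ZMod 8) :
    (∀ x : ZMod 8, vz ![1, 0, 1, 0, 1, 0, 1, 0] (x - s) = vz ![1, 0, 1, 0, 1, 0, 1, 0] x ∧
      vz ![0, 2, 0, 0, 0, 2, 0, 0] (x - s) = vz ![0, 2, 0, 0, 0, 2, 0, 0] x ∧
      vz ![0, 0, 0, 2, 0, 0, 0, 2] (x - s) = vz ![0, 0, 0, 2, 0, 0, 0, 2] x) ∨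
    (∀ x : ZMod 8, vz ![1, 0, 1, 0, 1, 0, 1, 0] (x - s) = vz ![1, 0, 1, 0, 1, 0, 1, 0] x ∧
      vz ![0, 2, 0, 0, 0, 2, 0, 0] (x - s) = vz ![0, 0, 0, 2, 0, 0, 0, 2] x ∧
      vz ![0, 0, 0, 2, 0, 0, 0, 2] (x - s) = vz ![0, 2, 0, 0, 0, 2, 0, 0] x) ∨
    (∀ x : ZMod 8, vz ![1, 0, 1, 0, 1, 0, 1, 0] (x - s) = vz ![0, 1, 0, 1, 0, 1, 0, 1] x ∧
      vz ![0, 2, 0, 0, 0, 2, 0, 0] (x - s) = vz ![2, 0, 0, 0, 2, 0, 0, 0] x ∧
      vz ![0, 0, 0, 2, 0, 0, 0, 2] (x - s) = vz ![0, 0, 2, 0, 0, 0, 2, 0] x) ∨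
    (∀ x : ZMod 8, vz ![1, 0, 1, 0, 1, 0, 1, 0] (x - s) = vz ![0, 1, 0, 1, 0, 1, 0, 1] x ∧
      vz ![0, 2, 0, 0, 0, 2, 0, 0] (x - s) = vz ![0, 0, 2, 0, 0, 0, 2, 0] x ∧
      vz ![0, 0, 0, 2, 0, 0, 0, 2] (x - s) = vz ![2, 0, 0, 0, 2, 0, 0, 0] x) := by
  revert s
  decide

variable {k : Type*} [Field k] [DecidableEq k] [CharZero k] {t : k}
  {F : Type*} [Field F] [DecidableEq F] [Algebra k F] {x y : F}

/-- the three kinds of nonconstant solutions -/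
def Cl8 (t : k) (hb : bb t ≠ 0) (x y f : F) : Prop :=
  LineS (AddSubgroup.zmultiples (P0 (cc t) hb)) x y f ∨ Orb (gg8 t x) f ∨
    Orb (gg8 t (algebraMap k F (bb t) * y / x ^ 2)) f

variable (ht : t ≠ 0) (ht1 : t - 1 ≠ 0) (ht2 : 2 * t - 1 ≠ 0) {hb : bb t ≠ 0}
    (hO : addOrderOf (P0 (cc t) hb) = 8) [Fintype (AddSubgroup.zmultiples (P0 (cc t) hb))]
    [DecidableEq (AddSubgroup.zmultiples (P0 (cc t) hb))] (hg : Gen (Wt (bb t) (cc t)) x y)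

include ht ht1 ht2 hO hg in
lemma gg_un : IsUn (AddSubgroup.zmultiples (P0 (cc t) hb)) x y (gg8 t x) ∧
    IsUn (AddSubgroup.zmultiples (P0 (cc t) hb)) x y (1 - gg8 t x) ∧
    IsUn (AddSubgroup.zmultiples (P0 (cc t) hb)) x y (gg8 t (algebraMap k F (bb t) * y / x ^ 2)) ∧
    IsUn (AddSubgroup.zmultiples (P0 (cc t) hb)) x y
      (1 - gg8 t (algebraMap k F (bb t) * y / x ^ 2)) := by
  refine ⟨?_, ?_, ?_, ?_⟩
  · rw [gx_mo (t := t) (x := x) (y := y)]; exact (pq_mo ht ht1 ht2 hO hg _).1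
  · rw [gx_mo' ht ht1 ht2 hg hb]
    exact ((pq_mo ht ht1 ht2 hO hg _).smul (neg_ne_zero.mpr (k0 ht ht1 ht2))).1
  · rw [g1_mo ht ht1 ht2 hg hb]
    exact ((pq_mo ht ht1 ht2 hO hg _).smul (neg_ne_zero.mpr (one_div_ne_zero ht))).1
  · rw [g1_mo' ht ht1 ht2 hg hb]
    exact (pq_mo ht ht1 ht2 hO hg _).1

include ht ht1 ht2 hO hg in
lemma cl8_sub (f : F) (h : Cl8 t hb x y (1 - f)) : Cl8 t hb x y f := by
  obtain ⟨h1, h2, h3, h4⟩ := gg_un ht ht1 ht2 hO hg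
  have n2 : gg8 t x - 1 ≠ 0 := by rw [← neg_sub]; exact neg_ne_zero.mpr h2.1
  have n4 : gg8 t (algebraMap k F (bb t) * y / x ^ 2) - 1 ≠ 0 := by
    rw [← neg_sub]; exact neg_ne_zero.mpr h4.1
  rcases h with h | h | h
  · exact Or.inl (h.orb (Or.inr (Or.inl (by ring))))
  · exact Or.inr (Or.inl (orb_sub h1.1 n2 h))
  · exact Or.inr (Or.inr (orb_sub h3.1 n4 h))

include ht ht1 ht2 hO hg in
lemma cl8_inv (f : F) (h : Cl8 t hb x y f⁻¹) : Cl8 t hb x y f := by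
  obtain ⟨h1, h2, h3, h4⟩ := gg_un ht ht1 ht2 hO hg
  have n2 : gg8 t x - 1 ≠ 0 := by rw [← neg_sub]; exact neg_ne_zero.mpr h2.1
  have n4 : gg8 t (algebraMap k F (bb t) * y / x ^ 2) - 1 ≠ 0 := by
    rw [← neg_sub]; exact neg_ne_zero.mpr h4.1
  rcases h with h | h | h
  · exact Or.inl (h.orb (Or.inr (Or.inr (Or.inl (by rw [one_div, inv_inv])))))
  · exact Or.inr (Or.inl (orb_inv h1.1 n2 h))
  · exact Or.inr (Or.inr (orb_inv h3.1 n4 h))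

include ht ht1 ht2 in
/-- the exceptional triples -/
theorem ex8 (hi : Ind3 t) {f : F} {D E G : ZMod 8 → ℤ} (h : Q3 hO hg f D E G) {s : ZMod 8}
    (ho : Six (fun A B C => Ex8 (fun x => A (x + s)) (fun x => B (x + s))
      (fun x => C (x + s))) D E G) : Cl8 t hb x y f := by
  obtain ⟨f', A, B, C, hE, h', hR⟩ := h.six (cl8_sub ht ht1 ht2 hO hg) (cl8_inv ht ht1 ht2 hO hg) ho
  apply hR
  clear hR h ho
  obtain ⟨X', Y', hg', e'⟩ := gen_add hg (((e8 hO (-s) :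
    AddSubgroup.zmultiples (P0 (cc t) hb)) : (Wt (bb t) (cc t)).Point))
  have e : gp hg' = gp hg + pp F (AddSubgroup.zmultiples (P0 (cc t) hb)) (e8 hO (-s)) := e'
  have h1 : Q3 hO hg' f' (fun x => A (x + s)) (fun x => B (x + s)) (fun x => C (x + s)) := by
    have := h'.tr e
    simpa only [sub_neg_eq_add] using this
  rcases hE with ⟨z1, z2, z3⟩ | ⟨z1, z2, z3⟩ | ⟨z1, z2, z3⟩ | ⟨z1, z2, z3⟩ | ⟨z1, z2, z3⟩
  · rw [z1, z2, z3] at h1
    exact (no1 ht ht1 ht2 hO hg' h1.inv.sub).elim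
  · rw [z1, z2, z3] at h1
    exact (no2 ht ht1 ht2 hO hg' hi h1.sub.inv.sub).elim
  · rw [z1, z2, z3] at h1
    exact (no3 ht ht1 ht2 hO hg' hi h1.sub.inv.sub).elim
  · have w1 : ∀ x, A x = (![1, 0, 1, 0, 1, 0, 1, 0] : Fin 8 → ℤ) (x - s) := fun x => by
      rw [← z1]; show A x = A (x - s + s); rw [sub_add_cancel]
    have w2 : ∀ x, B x = (![0, 2, 0, 0, 0, 2, 0, 0] : Fin 8 → ℤ) (x - s) := fun x => by
      rw [← z2]; show B x = B (x - s + s); rw [sub_add_cancel]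
    have w3 : ∀ x, C x = (![0, 0, 0, 2, 0, 0, 0, 2] : Fin 8 → ℤ) (x - s) := fun x => by
      rw [← z3]; show C x = C (x - s + s); rw [sub_add_cancel]
    rcases shift4 s with hs | hs | hs | hs
    · have h2 := h'.congr (fun x => (w1 x).trans (hs x).1) (fun x => (w2 x).trans (hs x).2.1)
        (fun x => (w3 x).trans (hs x).2.2)
      have h3 := cls2 ht ht1 ht2 hO hg h2.sub.inv.sub
      exact cl8_sub ht ht1 ht2 hO hg _ (cl8_inv ht ht1 ht2 hO hg _ (cl8_sub ht ht1 ht2 hO hg _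
        (Or.inr (Or.inr (Or.inl h3)))))
    · have h2 := h'.congr (fun x => (w1 x).trans (hs x).1) (fun x => (w2 x).trans (hs x).2.1)
        (fun x => (w3 x).trans (hs x).2.2)
      exact Or.inr (Or.inr (Or.inl (cls2 ht ht1 ht2 hO hg h2)))
    · have h2 := h'.congr (fun x => (w1 x).trans (hs x).1) (fun x => (w2 x).trans (hs x).2.1)
        (fun x => (w3 x).trans (hs x).2.2)
      exact Or.inr (Or.inl (Or.inl (cls1 ht ht1 ht2 hO hg h2)))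
    · have h2 := h'.congr (fun x => (w1 x).trans (hs x).1) (fun x => (w2 x).trans (hs x).2.1)
        (fun x => (w3 x).trans (hs x).2.2)
      have h3 := cls1 ht ht1 ht2 hO hg h2.sub.inv.sub
      exact cl8_sub ht ht1 ht2 hO hg _ (cl8_inv ht ht1 ht2 hO hg _ (cl8_sub ht ht1 ht2 hO hg _
        (Or.inr (Or.inl (Or.inl h3)))))
  · rw [z1, z2, z3] at h1
    -- one more translation
    obtain ⟨X'', Y'', hg'', e''⟩ := gen_add hg' (((e8 hO (-1) :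
      AddSubgroup.zmultiples (P0 (cc t) hb)) : (Wt (bb t) (cc t)).Point))
    have e1 : gp hg'' = gp hg' + pp F (AddSubgroup.zmultiples (P0 (cc t) hb)) (e8 hO (-1)) := e''
    have g1 : ∀ x, vz ![2, 0, 2, 0, 2, 0, 2, 0] (x - -1) = vz ![0, 2, 0, 2, 0, 2, 0, 2] x := by
      decide
    have g2 : ∀ x, vz ![0, 4, 0, 0, 0, 4, 0, 0] (x - -1) = vz ![4, 0, 0, 0, 4, 0, 0, 0] x := by
      decide
    have g3 : ∀ x, vz ![0, 0, 0, 4, 0, 0, 0, 4] (x - -1) = vz ![0, 0, 4, 0, 0, 0, 4, 0] x := by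
      decide
    exact (no5 ht ht1 ht2 hO hg'' ((h1.tr e1).congr g1 g2 g3)).elim

include ht ht1 ht2 hO hg in
/-- **the unit equation** -/
theorem unit8 (hM : Main8) (hi : Ind3 t) (hG : IndG (AddSubgroup.zmultiples (P0 (cc t) hb)) F)
    {f : F} (hf : IsUn (AddSubgroup.zmultiples (P0 (cc t) hb)) x y f)
    (hf' : IsUn (AddSubgroup.zmultiples (P0 (cc t) hb)) x y (1 - f)) :
    (∃ c : k, f = algebraMap k F c) ∨ Cl8 t hb x y f := by
  rcases exists_Q3 (hO := hO) hG hg hf hf' with h | ⟨D, E, G, d, hT, h, h1, h2, h3⟩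
  · exact Or.inl h
  right
  rcases hM hT h1 h2 h3 with ⟨S, p, q, r, n, hn, a1, a2, a3⟩ | ⟨s, hs⟩
  · exact Or.inl (pencil8 hT h hn a1 a2 a3)
  · exact ex8 ht ht1 ht2 hO hg hi h hs

end main

end Pool.Agent.UE8
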