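import Pool.Agent.Lib_helper76.RH.G
import Pool.Agent.Lib_helper40.UP.Prime

/-!
# The Riemann-Hurwitz bound for the divisors on a finite group of points
-/

set_option autoImplicit false
set_option linter.unusedSectionVars false

open scoped TensorProduct

namespace Pool.Agent.RH

open WeierstrassCurve.Affine UEG Polynomial WithZero GK UP
open MK4 (FT lg)

section

variable {k : Type*} [Field k] [DecidableEq k] [CharZero k] {W : WeierstrassCurve.Affine k}
  {F : Type*} [Field F] [DecidableEq F] [Algebra k F] {X Y : F}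

lemma io_tau [DecidableEq W.FunctionField] (hg : Gen W X Y) {T : W.Point} {X' Y' : F}
    (hg' : Gen W X' Y') (e : gp hg' = gp hg + bc F W T) (w : W.FunctionField) :
    UEG.io hg (tau T w) = UEG.io hg' w := by
  have key : (ioA hg).comp (tau T) = ioA hg' := by
    have h1 : mp ((ioA hg).comp (tau (W := W) T)) z0 = mp (ioA hg') z0 := by
      have e1 : mp ((ioA hg).comp (tau (W := W) T)) z0 = mp (ioA hg) (mp (tau T) z0) := by
        rcases z0 (W := W) with _ | ⟨x, y, h⟩ <;> rfl
      have e2 : mp (ioA hg) (z0 (W := W)) = gp hg := map_zz hg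
      have e3 : mp (ioA hg') (z0 (W := W)) = gp hg' := map_zz hg'
      have e4 : mp (ioA hg) (bK (W := W) T) = bc F W T := map_bc (ioA hg) T
      rw [e1, mp_z0, map_add, e2, e4, e3, e]
    have h' : (Point.some _ _ _ : (WF F W).Point) = Point.some _ _ _ := h1
    have h2 := Point.some.inj h'
    exact homA_ext h2.1 h2.2
  exact congrArg (fun f : W.FunctionField →ₐ[k] F => f w) key

variable {H : AddSubgroup W.Point}

/-- a function supported on `H` comes from a function of the function field supported on `H` -/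
lemma RR_io (hg : Gen W X Y) {w : W.FunctionField} (h : UEG.io hg w ∈ RR H X Y) :
    w ∈ RR H xK yK := by
  have key : RR H X Y ≤ (RR H (xK : W.FunctionField) yK).map (ioA hg) := by
    apply Algebra.adjoin_le
    rintro z ((rfl | hz) | ⟨a, b, hab, rfl⟩)
    · exact ⟨xK, mem_x, io_x hg⟩
    · rw [Set.mem_singleton_iff.mp hz]
      exact ⟨yK, mem_y, io_y hg⟩
    · refine ⟨(xK - cK a)⁻¹, mem_inv hab, ?_⟩
      show UEG.io hg (xK - cK a)⁻¹ = _
      rw [map_inv₀, map_sub, io_x, io_c]
  obtain ⟨w', hw', e⟩ := key h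
  have e' : UEG.io hg w' = UEG.io hg w := e
  rwa [io_inj hg e'] at hw'

lemma IsUn_io (hg : Gen W X Y) {w : W.FunctionField} (h : IsUn H X Y (UEG.io hg w)) :
    IsUn H xK yK w := by
  refine ⟨fun h0 => h.1 (by rw [h0, map_zero]), RR_io hg h.2.1, RR_io hg ?_⟩
  rw [map_inv₀]; exact h.2.2

variable [Fintype H] [DecidableEq H] {lc : W.FunctionField → k} (hlc : IsLC W lc)

include hlc in
/-- the divisor is given by the orders of the translates -/
lemma PU.v_tau [DecidableEq W.FunctionField] {hg : Gen W X Y} {f : F} (hf : IsUn H X Y f)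
    {m : H → ℤ} {κ : FT F} {w : W.FunctionField} (h : PU H lc hg f m κ w) (a : H) :
    v (W := W) (tau (a : W.Point) w) = exp (-(m a)) := by
  obtain ⟨X', Y', hg', e'⟩ := gen_add hg (-(a : W.Point))
  have e : gp hg' = gp hg + pp F H (-a) := e'
  obtain ⟨w', h'⟩ := PU.tr hlc e hf h
  have e1 : UEG.io hg (tau (-(a : W.Point)) w') = UEG.io hg w := by
    rw [io_tau hg hg' e' w', h'.io, h.io]
  have e2 : tau (-(a : W.Point)) w' = w := io_inj hg e1
  have e3 : tau (a : W.Point) w = w' := by
    rw [← e2, tau_tau, add_neg_cancel, tau_zero]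
  rw [e3, h'.v]
  congr 2
  simp

include hlc in
/-- **the Riemann-Hurwitz bound** -/
theorem rh_PU {hg : Gen W X Y} {f : F} (hf : IsUn H X Y f) (hf' : IsUn H X Y (1 - f))
    {m n : H → ℤ} {κ κ' : FT F} {w w' : W.FunctionField} (h : PU H lc hg f m κ w)
    (h' : PU H lc hg (1 - f) n κ' w') (hm : m ≠ 0) :
    ∑ a, (if 0 < n a then n a - 1 else 0) ≤ ∑ a, (if m a ≠ 0 then 1 else 0) := by
  classical
  have ew : w' = 1 - w := by
    apply io_inj hg
    rw [h'.io, map_sub, map_one, h.io]
  subst ew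
  refine rh (IsUn_io hg (by rw [h.io]; exact hf)) (IsUn_io hg (by rw [h'.io]; exact hf'))
    (by ring : w + (1 - w) = 1) ?_ (PU.v_tau hlc hf h) (PU.v_tau hlc hf' h')
  intro c hc
  apply hm
  funext a
  have h1 := PU.v_tau hlc hf h a
  have hc0 : c ≠ 0 := by
    rintro rfl
    exact h.ne (by rw [hc, map_zero])
  rw [hc, tau_c, v_c hc0, ← exp_zero] at h1
  have := exp_injective h1
  simp only [Pi.zero_apply]
  omega

include hlc in
/-- the degree is at most the number of points -/
theorem rh_deg {hg : Gen W X Y} {f : F} (hf : IsUn H X Y f) (hf' : IsUn H X Y (1 - f))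
    {m n : H → ℤ} {κ κ' : FT F} {w w' : W.FunctionField} (h : PU H lc hg f m κ w)
    (h' : PU H lc hg (1 - f) n κ' w') (hm : m ≠ 0) :
    ∑ x, max (n x) 0 ≤ ∑ x, (if max (m x) 0 ≠ 0 then 1 else 0) +
      ∑ x, (if max (n x) 0 ≠ 0 then 1 else 0) + ∑ x, (if max (-(m x)) 0 ≠ 0 then 1 else 0) := by
  have h1 := rh_PU hlc hf hf' h h' hm
  have h2 : ∑ x, max (n x) 0 = ∑ a, (if 0 < n a then n a - 1 else 0) +
      ∑ x, (if max (n x) 0 ≠ 0 then 1 else 0) := by
    rw [← Finset.sum_add_distrib]
    refine Finset.sum_congr rfl fun a _ => ?_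
    split_ifs <;> omega
  have h3 : ∑ a, (if m a ≠ 0 then (1 : ℤ) else 0) = ∑ x, (if max (m x) 0 ≠ 0 then (1 : ℤ) else 0) +
      ∑ x, (if max (-(m x)) 0 ≠ 0 then (1 : ℤ) else 0) := by
    rw [← Finset.sum_add_distrib]
    refine Finset.sum_congr rfl fun a _ => ?_
    split_ifs <;> omega
  rw [h3] at h1
  rw [h2]
  linarith

end

end Pool.Agent.RH
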