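import Pool.Agent.Lib_helper76.UE8.P10
import Pool.Agent.Lib_helper24.FAM.DefsT
import Pool.Agent.Lib_helper76.FAM.Tate

/-!
# Points of order eight: the unit equation and the closed elements for independent parameters
-/

set_option autoImplicit false
set_option linter.unusedSectionVars false

open scoped TensorProduct

namespace Pool.Agent.UE8

open WeierstrassCurve.Affine Polynomial WithZero GK UP
open UEG (Gen IsUn P0)
open TN (Wt Orb)
open FK4 (LineS Supp supp_iff OnlyConst Generic UnitEq8 S3 Indep3 ClosedIn SameS)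

variable {k : Type*} [Field k] [DecidableEq k] [CharZero k] {t : k}
  {F : Type*} [Field F] [Algebra k F] {x y : F}

/-- **the unit equation for a point of order eight** -/
theorem unitEq8 (hM : Main8) (ht : t ≠ 0) (hb : bb t ≠ 0) (hi : Ind3 t)
    (hO : addOrderOf (P0 (cc t) hb) = 8) (h : Generic (Wt (bb t) (cc t)) x y) :
    UnitEq8 (AddSubgroup.zmultiples (P0 (cc t) hb)) x y (bb t) (cc t) x y := by
  classical
  have ht1 : t - 1 ≠ 0 := by intro h; apply hb; unfold bb; rw [h, mul_zero]
  have ht2 : 2 * t - 1 ≠ 0 := by intro h; apply hb; unfold bb; rw [h, zero_mul]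
  have hfin : Finite (AddSubgroup.zmultiples (P0 (cc t) hb)) :=
    Finite.of_equiv _ (e8 hO).toEquiv
  have hft : Fintype (AddSubgroup.zmultiples (P0 (cc t) hb)) := Fintype.ofFinite _
  have hg := h.toU
  have hG := indG_of (F := F) (siegel8 hb ht hO hi)
  obtain ⟨u1, u2, u3, u4⟩ := gg_un ht ht1 ht2 hO hg
  intro f
  constructor
  · rintro ⟨h1, h2⟩
    rcases unit8' ht ht1 ht2 hO hg hM hi hG (st8 ht ht1 ht2 hO hg) (supp_iff.mp h1)
      (supp_iff.mp h2) with ⟨a, rfl⟩ | h3 | h3 | h3
    · left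
      refine ⟨a, ?_, ?_, rfl⟩
      · rintro rfl; exact h1.1 (map_zero _)
      · rintro rfl; exact h2.1 (by rw [map_one, sub_self])
    · exact Or.inr (Or.inl h3)
    · exact Or.inr (Or.inr ⟨x, Or.inl rfl, h3⟩)
    · exact Or.inr (Or.inr ⟨_, Or.inr rfl, h3⟩)
  · have key : ∀ {u : F}, Supp (AddSubgroup.zmultiples (P0 (cc t) hb)) x y u →
        Supp (AddSubgroup.zmultiples (P0 (cc t) hb)) x y (1 - u) → ∀ {f : F}, S3 u f →
        Supp (AddSubgroup.zmultiples (P0 (cc t) hb)) x y f ∧
        Supp (AddSubgroup.zmultiples (P0 (cc t) hb)) x y (1 - f) := by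
      intro u v1 v2 f hf
      have n1 := v1.1
      have n2 := v2.1
      have n3 : u - 1 ≠ 0 := by rw [← neg_sub]; exact neg_ne_zero.mpr n2
      have v3 : Supp (AddSubgroup.zmultiples (P0 (cc t) hb)) x y (u - 1) := v2.sub_comm
      rcases hf with rfl | rfl | rfl | rfl | rfl | rfl
      · exact ⟨v1, v2⟩
      · exact ⟨v2, by rw [sub_sub_cancel]; exact v1⟩
      · have e : 1 - 1 / u = (u - 1) / u := by field_simp
        rw [e]
        exact ⟨by rw [one_div]; exact v1.inv, v3.div v1⟩
      · have e : 1 - 1 / u = (u - 1) / u := by field_simp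
        rw [sub_sub_cancel, e]
        exact ⟨v3.div v1, by rw [one_div]; exact v1.inv⟩
      · have e : 1 - 1 / (1 - u) = -(u / (1 - u)) := by field_simp; ring
        rw [e]
        exact ⟨by rw [one_div]; exact v2.inv, (v1.div v2).neg⟩
      · have e : 1 - u / (u - 1) = -(u - 1)⁻¹ := by field_simp; ring
        rw [e]
        exact ⟨v1.div v3, v3.inv.neg⟩
    rintro (⟨a, h0, h1, rfl⟩ | h3 | ⟨z, rfl | rfl, h3⟩)
    · refine ⟨FK4.supp_const h0, ?_⟩
      rw [← map_one (algebraMap k F), ← map_sub]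
      exact FK4.supp_const (sub_ne_zero.mpr (Ne.symm h1))
    · exact h3.supp
    · exact key (supp_iff.mpr u1) (supp_iff.mpr u2) h3
    · exact key (supp_iff.mpr u3) (supp_iff.mpr u4) h3

variable {W : WeierstrassCurve.Affine k} {X Y : F} {P : W.Point}

/-- **points of order eight with independent parameters** -/
theorem eight_gen (hM : Main8) (hg : Generic W X Y) (ht : t ≠ 0) {hb : bb t ≠ 0}
    (hO : addOrderOf (P0 (cc t) hb) = 8) (h : Generic (Wt (bb t) (cc t)) x y)
    (hS : SameS (AddSubgroup.zmultiples P) X Y (AddSubgroup.zmultiples (P0 (cc t) hb)) x y)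
    (hi : Indep3 t (t - 1) (2 * t - 1)) :
    UnitEq8 (AddSubgroup.zmultiples P) X Y ((2 * t - 1) * (t - 1)) ((2 * t - 1) * (t - 1) / t) x y ∧
      ClosedIn (AddSubgroup.zmultiples P) X Y ⊥ := by
  constructor
  · have h1 := unitEq8 hM ht hb hi hO h
    unfold UnitEq8 at h1 ⊢
    simp only [hS.supp, hS.lineS]
    exact h1
  · refine FK4.closedIn_bot hg fun z hz hc => ?_
    rw [hS.sp] at hz
    exact closed8 hM ht hb hi hO h z hz hc

end Pool.Agent.UE8
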