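import Pool.Agent.Lib_helper76.UE8.P1
import Pool.Agent.Lib_helper76.UE8.U8

/-!
# Divisors on the multiples of a point of order eight
-/

set_option autoImplicit false
set_option linter.unusedSectionVars false

open scoped TensorProduct

namespace Pool.Agent.UE8

open WeierstrassCurve.Affine Polynomial WithZero GK UP
open UEG (Gen IsUn)
open MK4 (FT lg)

section e8

variable {A : Type*} [AddCommGroup A] {P : A}

/-- the multiples of `P`, numbered by `ZMod 8` -/
noncomputable def e8h (h8 : addOrderOf P = 8) : ZMod 8 →+ AddSubgroup.zmultiples P :=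
  ZMod.lift 8 ⟨zmultiplesHom (AddSubgroup.zmultiples P) ⟨P, AddSubgroup.mem_zmultiples P⟩, by
    rw [zmultiplesHom_apply]
    apply Subtype.ext
    show ((8 : ℕ) : ℤ) • P = 0
    rw [natCast_zsmul, ← h8]
    exact addOrderOf_nsmul_eq_zero P⟩

lemma e8h_int (h8 : addOrderOf P = 8) (n : ℤ) : ((e8h h8 (n : ZMod 8) : AddSubgroup.zmultiples P) : A)
    = n • P := by
  unfold e8h
  rw [ZMod.lift_coe]
  rfl

lemma e8h_val (h8 : addOrderOf P = 8) (i : ZMod 8) :
    ((e8h h8 i : AddSubgroup.zmultiples P) : A) = i.val • P := by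
  have h : ((i.val : ℤ) : ZMod 8) = i := by
    rw [Int.cast_natCast, ZMod.natCast_zmod_val]
  have := e8h_int h8 (i.val : ℤ)
  rw [h, natCast_zsmul] at this
  exact this

lemma e8h_bij (h8 : addOrderOf P = 8) : Function.Bijective (e8h h8) := by
  constructor
  · rw [injective_iff_map_eq_zero]
    intro i hi
    have h1 : i.val • P = 0 := by rw [← e8h_val h8, hi]; rfl
    have h2 := addOrderOf_dvd_of_nsmul_eq_zero h1
    rw [h8] at h2
    have h3 := ZMod.val_lt i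
    have h4 : i.val = 0 := Nat.eq_zero_of_dvd_of_lt h2 h3
    exact (ZMod.val_eq_zero i).mp h4
  · rintro ⟨Q, hQ⟩
    obtain ⟨m, rfl⟩ := AddSubgroup.mem_zmultiples_iff.mp hQ
    exact ⟨(m : ZMod 8), Subtype.ext (e8h_int h8 m)⟩

/-- the multiples of `P`, numbered by `ZMod 8` -/
noncomputable def e8 (h8 : addOrderOf P = 8) : ZMod 8 ≃+ AddSubgroup.zmultiples P :=
  AddEquiv.ofBijective (e8h h8) (e8h_bij h8)

lemma e8_val (h8 : addOrderOf P = 8) (i : ZMod 8) :
    ((e8 h8 i : AddSubgroup.zmultiples P) : A) = i.val • P := e8h_val h8 i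

end e8

section tr

variable {A B : Type*} [AddCommGroup A] [Fintype A] [DecidableEq A] [AddCommGroup B] [Fintype B]
  [DecidableEq B]

/-- change of group -/
lemma Tr_comp (e : B ≃+ A) {D E G : A → ℤ} {d : ℤ} (h : Tr D E G d) :
    Tr (fun x => D (e x)) (fun x => E (e x)) (fun x => G (e x)) d := by
  have hs : ∀ D : A → ℤ, ∑ x, D (e x) = ∑ x, D x := fun D => Equiv.sum_comp e.toEquiv D
  have hr : ∀ {D M : A → ℤ}, Rl D M → Rl (fun x => D (e x)) (fun x => M (e x)) := by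
    intro D M hr T T' hT hT' j
    have := hr (e T) (e T') hT hT' (e j)
    simpa only [map_add, map_sub] using this
  exact ⟨fun x => h.d0 _, fun x => h.e0 _, fun x => h.g0 _, fun x hx => h.de _ hx,
    fun x hx => h.eg _ hx, fun x hx => h.gd _ hx, by rw [hs, h.sd], by rw [hs, h.se],
    by rw [hs, h.sg], h.pos, hr h.rd, hr h.re, hr h.rg⟩

end tr

section PQ

variable {k : Type*} [Field k] [DecidableEq k] [CharZero k] {W : WeierstrassCurve.Affine k}
  {F : Type*} [Field F] [DecidableEq F] [Algebra k F] {X Y X' Y' : F} {P : W.Point}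
  (hO : addOrderOf P = 8)
  [Fintype (AddSubgroup.zmultiples P)] [DecidableEq (AddSubgroup.zmultiples P)]

/-- `f` is supported on the multiples of `P`, with the divisor `M` -/
def PQ (hg : Gen W X Y) (f : F) (M : ZMod 8 → ℤ) : Prop :=
  IsUn (AddSubgroup.zmultiples P) X Y f ∧ ∃ (κ : FT F) (w : W.FunctionField),
    PU (AddSubgroup.zmultiples P) (UEG.lc2 (W := W)) hg f (fun a => M ((e8 hO).symm a)) κ w

variable {hO} {hg : Gen W X Y}

lemma PQ.congr {f : F} {M M' : ZMod 8 → ℤ} (h : PQ hO hg f M) (hM : ∀ x, M x = M' x) :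
    PQ hO hg f M' := by
  have : M = M' := funext hM
  rw [← this]; exact h

lemma PQ.mul {f f' : F} {M M' : ZMod 8 → ℤ} (h : PQ hO hg f M) (h' : PQ hO hg f' M') :
    PQ hO hg (f * f') (fun x => M x + M' x) := by
  obtain ⟨h1, κ, w, h2⟩ := h
  obtain ⟨h1', κ', w', h2'⟩ := h'
  exact ⟨IsUn.mul hg h1 h1', _, _, h2.mul lc_ok h2'⟩

lemma PQ.inv {f : F} {M : ZMod 8 → ℤ} (h : PQ hO hg f M) :
    PQ hO hg f⁻¹ (fun x => -M x) := by
  obtain ⟨h1, κ, w, h2⟩ := h
  exact ⟨IsUn.inv hg h1, _, _, h2.inv lc_ok⟩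

lemma PQ.const (hg : Gen W X Y) {c : k} (hc : c ≠ 0) :
    PQ hO hg (algebraMap k F c) (fun _ => 0) := by
  refine ⟨?_, _, _, PU.const lc_ok hg hc⟩
  rw [← UEG.hR_c hg]; exact (UEG.good_IsUn hg).hc c hc

lemma PQ.smul {f : F} {M : ZMod 8 → ℤ} (h : PQ hO hg f M) {c : k} (hc : c ≠ 0) :
    PQ hO hg (algebraMap k F c * f) M :=
  ((PQ.const hg hc).mul h).congr fun x => zero_add _

lemma PQ.neg {f : F} {M : ZMod 8 → ℤ} (h : PQ hO hg f M) : PQ hO hg (-f) M := by
  have := h.smul (c := -1) (neg_ne_zero.mpr one_ne_zero)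
  rwa [map_neg, map_one, neg_one_mul] at this

lemma PQ.tr {T : ZMod 8} {hg' : Gen W X' Y'}
    (e : gp hg' = gp hg + pp F (AddSubgroup.zmultiples P) (e8 hO T)) {f : F} {M : ZMod 8 → ℤ}
    (h : PQ hO hg f M) : PQ hO hg' f (fun x => M (x - T)) := by
  obtain ⟨h1, κ, w, h2⟩ := h
  obtain ⟨w', h3⟩ := PU.tr lc_ok e h1 h2
  refine ⟨IsUn_tr hg (e8 hO T).2 hg' e h1, κ, w', ?_⟩
  have : (fun a => M ((e8 hO).symm a - T)) = fun a => M ((e8 hO).symm (a - e8 hO T)) := by
    funext a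
    rw [map_sub, AddEquiv.symm_apply_apply]
  rw [this]; exact h3

lemma PQ.unique {f : F} {M M' : ZMod 8 → ℤ} (h : PQ hO hg f M) (h' : PQ hO hg f M') (x : ZMod 8) :
    M x = M' x := by
  obtain ⟨h1, κ, w, h2⟩ := h
  obtain ⟨h1', κ', w', h2'⟩ := h'
  have := congrFun (h2.unique h2').1 (e8 hO x)
  simpa using this

/-- functions with the same divisor -/
lemma PQ.eq_smul {f f' : F} {M : ZMod 8 → ℤ} (h : PQ hO hg f M) (h' : PQ hO hg f' M) :
    ∃ c : k, c ≠ 0 ∧ f = algebraMap k F c * f' := by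
  obtain ⟨h1, κ, w, h2⟩ := h
  obtain ⟨h1', κ', w', h2'⟩ := h'
  have e : MK4.lg (f * f'⁻¹) ∈ TN.V0 k F := by
    rw [TN.lgmul h1.1 (inv_ne_zero h1'.1), TN.lginv, h2.lg, h2'.lg, neg_add, add_add_add_comm,
      add_neg_cancel, add_zero]
    exact Submodule.add_mem _ h2.κV (Submodule.neg_mem _ h2'.κV)
  obtain ⟨c, hc, e'⟩ := const_of_unit lc_ok ac_ok hg (IsUn.mul hg h1 (IsUn.inv hg h1')) e
  exact ⟨c, hc, by rw [← e', mul_assoc, inv_mul_cancel₀ h1'.1, mul_one]⟩

/-- a nonzero divisor -/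
lemma PQ.not_const {f : F} {M : ZMod 8 → ℤ} (h : PQ hO hg f M) {x : ZMod 8} (hx : M x ≠ 0) (c : k) :
    f ≠ algebraMap k F c := by
  rintro rfl
  have hc : c ≠ 0 := by
    rintro rfl
    exact h.1.1 (map_zero _)
  exact hx (h.unique (PQ.const hg hc) x)

/-- two functions with the same divisors -/
lemma PQ.eq {f f' : F} {M N : ZMod 8 → ℤ} (h : PQ hO hg f M) (h' : PQ hO hg f' M)
    (g : PQ hO hg (1 - f) N) (g' : PQ hO hg (1 - f') N) {x : ZMod 8} (hx : M x ≠ 0) : f = f' := by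
  obtain ⟨c, hc, e⟩ := h.eq_smul h'
  obtain ⟨c', hc', e'⟩ := g.eq_smul g'
  have e1 : algebraMap k F (c - c') * f' = algebraMap k F (1 - c') := by
    rw [map_sub, map_sub, map_one]
    rw [e] at e'
    linear_combination -e'
  by_cases h0 : c - c' = 0
  · rw [h0, map_zero, zero_mul] at e1
    have e2 : (1 : k) - c' = 0 := (map_eq_zero _).mp e1.symm
    have e3 : c = 1 := by linear_combination h0 - e2
    rw [e, e3, map_one, one_mul]
  · exfalso
    have hn : algebraMap k F (c - c') ≠ 0 := (_root_.map_ne_zero _).mpr h0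
    apply h'.not_const hx ((1 - c') / (c - c'))
    rw [map_div₀, eq_div_iff hn, mul_comm]
    exact e1

/-! ### three divisors -/

variable (hO) in
/-- the zeros of `f`, the zeros of `1 - f` and the poles -/
structure Q3 (hg : Gen W X Y) (f : F) (D E G : ZMod 8 → ℤ) : Prop where
  p : PQ hO hg f (fun x => D x - G x)
  q : PQ hO hg (1 - f) (fun x => E x - G x)

variable {f : F} {D E G : ZMod 8 → ℤ}

lemma Q3.sub (h : Q3 hO hg f D E G) : Q3 hO hg (1 - f) E D G :=
  ⟨h.q, by rw [sub_sub_cancel]; exact h.p⟩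

lemma Q3.inv (h : Q3 hO hg f D E G) : Q3 hO hg f⁻¹ G E D := by
  refine ⟨h.p.inv.congr fun x => by ring, ?_⟩
  have h0 := h.p.1.1
  have e : 1 - f⁻¹ = -((1 - f) * f⁻¹) := by field_simp; ring
  rw [e]
  exact (h.q.mul h.p.inv).neg.congr fun x => by ring

lemma Q3.tr (h : Q3 hO hg f D E G) {T : ZMod 8} {hg' : Gen W X' Y'}
    (e : gp hg' = gp hg + pp F (AddSubgroup.zmultiples P) (e8 hO T)) :
    Q3 hO hg' f (fun x => D (x - T)) (fun x => E (x - T)) (fun x => G (x - T)) :=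
  ⟨h.p.tr e, h.q.tr e⟩

/-- **the three fibres** -/
theorem exists_Q3 (hG : IndG (AddSubgroup.zmultiples P) F) (hg : Gen W X Y) {f : F}
    (hf : IsUn (AddSubgroup.zmultiples P) X Y f) (hf' : IsUn (AddSubgroup.zmultiples P) X Y (1 - f)) :
    (∃ c : k, f = algebraMap k F c) ∨ ∃ (D E G : ZMod 8 → ℤ) (d : ℤ), Tr D E G d ∧
      Q3 hO hg f D E G ∧ d ≤ ∑ x, (if D x ≠ 0 then 1 else 0) + ∑ x, (if E x ≠ 0 then 1 else 0) +
        ∑ x, (if G x ≠ 0 then 1 else 0) ∧ ∑ x, (D x - G x) • x = 0 ∧ ∑ x, (E x - G x) • x = 0 := by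
  obtain ⟨m, κ, w, h⟩ := exists_PU lc_ok hg hf
  obtain ⟨n, κ', w', h'⟩ := exists_PU lc_ok hg hf'
  by_cases hm : m = 0
  · left
    obtain ⟨c, -, e⟩ := const_of_unit lc_ok ac_ok hg hf (by
      rw [h.lg, hm]
      simp only [Pi.zero_apply, Int.cast_zero, zero_smul, Finset.sum_const_zero, add_zero]
      exact h.κV)
    exact ⟨c, e⟩
  right
  have hT := tr_of lc_ok hG hg hf hf' h h' hm
  have hV := val_one lc_ok hg hf hf' h h'
  have hR := RH.rh_deg lc_ok hf hf' h h' hm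
  have d1 : ∀ x, m x = max (m x) 0 - max (-(m x)) 0 := fun x => by
    rcases (hV x).1 with a | a | a <;> omega
  have d2 : ∀ x, n x = max (n x) 0 - max (-(m x)) 0 := fun x => by
    rcases (hV x).1 with a | a | a <;> omega
  have hs : ∀ g : AddSubgroup.zmultiples P → ℤ, ∑ x, g (e8 hO x) = ∑ x, g x :=
    fun g => Equiv.sum_comp (e8 hO).toEquiv g
  refine ⟨_, _, _, _, Tr_comp (e8 hO) hT, ⟨⟨hf, κ, w, ?_⟩, ⟨hf', κ', w', ?_⟩⟩, ?_, ?_, ?_⟩
  · have e : (fun a => max (m (e8 hO ((e8 hO).symm a))) 0 - max (-(m (e8 hO ((e8 hO).symm a)))) 0)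
        = m := by
      funext a
      rw [AddEquiv.apply_symm_apply, ← d1]
    show PU _ _ _ _ (fun a => max (m (e8 hO ((e8 hO).symm a))) 0 -
      max (-(m (e8 hO ((e8 hO).symm a)))) 0) _ _
    rw [e]; exact h
  · have e : (fun a => max (n (e8 hO ((e8 hO).symm a))) 0 - max (-(m (e8 hO ((e8 hO).symm a)))) 0)
        = n := by
      funext a
      rw [AddEquiv.apply_symm_apply, ← d2]
    show PU _ _ _ _ (fun a => max (n (e8 hO ((e8 hO).symm a))) 0 -
      max (-(m (e8 hO ((e8 hO).symm a)))) 0) _ _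
    rw [e]; exact h'
  · rw [hs (fun x => if max (m x) 0 ≠ 0 then 1 else 0),
      hs (fun x => if max (n x) 0 ≠ 0 then 1 else 0),
      hs (fun x => if max (-(m x)) 0 ≠ 0 then 1 else 0), ← hT.se]
    exact hR
  · have h1 := h.s1
    rw [← Equiv.sum_comp (e8 hO).toEquiv] at h1
    have h2 : e8 hO (∑ x, (max (m (e8 hO x)) 0 - max (-(m (e8 hO x))) 0) • x) = 0 := by
      rw [map_sum, ← h1]
      refine Finset.sum_congr rfl fun x _ => ?_
      rw [map_zsmul, ← d1]; rfl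
    exact (AddEquiv.map_eq_zero_iff _).mp h2
  · have h1 := h'.s1
    rw [← Equiv.sum_comp (e8 hO).toEquiv] at h1
    have h2 : e8 hO (∑ x, (max (n (e8 hO x)) 0 - max (-(m (e8 hO x))) 0) • x) = 0 := by
      rw [map_sum, ← h1]
      refine Finset.sum_congr rfl fun x _ => ?_
      rw [map_zsmul, ← d2]; rfl
    exact (AddEquiv.map_eq_zero_iff _).mp h2

end PQ

end Pool.Agent.UE8
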