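import Pool.Agent.Lib_helper76.UE8.P2

/-!
# The divisors of the basis of the functions supported on the multiples of a point of order eight
-/

set_option autoImplicit false
set_option linter.unusedSectionVars false

open scoped TensorProduct

namespace Pool.Agent.UE8

open WeierstrassCurve.Affine Polynomial WithZero GK UP
open UEG (Gen IsUn LineOK P0 negY_wt)
open TN (Wt)
open MK4 (FT lg)

/-- the divisor of a vertical line -/
def dV (i x : ZMod 8) : ℤ := (if x = i then 1 else 0) + (if x = -i then 1 else 0) -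
  2 * (if x = 0 then 1 else 0)

/-- the divisor of a line -/
def dL (i j x : ZMod 8) : ℤ := (if x = i then 1 else 0) + (if x = j then 1 else 0) +
  (if x = -(i + j) then 1 else 0) - 3 * (if x = 0 then 1 else 0)

section

variable {k : Type*} [Field k] [DecidableEq k] [CharZero k] {b c : k}
  {F : Type*} [Field F] [DecidableEq F] [Algebra k F] {x y : F} {P : (Wt b c).Point}
  {hO : addOrderOf P = 8}
  [Fintype (AddSubgroup.zmultiples P)] [DecidableEq (AddSubgroup.zmultiples P)]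
  {hg : Gen (Wt b c) x y}

lemma e8_eq {i : ZMod 8} {Q : (Wt b c).Point} (e : i.val • P = Q)
    (hQ : Q ∈ AddSubgroup.zmultiples P) : (⟨Q, hQ⟩ : AddSubgroup.zmultiples P) = e8 hO i :=
  Subtype.ext (by rw [e8_val]; exact e.symm)

lemma mem_e8 {i : ZMod 8} {Q : (Wt b c).Point} (e : i.val • P = Q) :
    Q ∈ AddSubgroup.zmultiples P := by
  rw [← e]; exact AddSubgroup.nsmul_mem_zmultiples _ _

lemma pq_vert (hO : addOrderOf P = 8) (hg : Gen (Wt b c) x y) {i : ZMod 8} {a a' : k}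
    (h : ∃ h, i.val • P = .some a a' h) : PQ hO hg (x - algebraMap k F a) (dV i) := by
  obtain ⟨h, e⟩ := h
  have hH := mem_e8 e
  refine ⟨UEG.isUn_x hg ⟨h, hH⟩, ?_⟩
  have h1 := PU.vert lc_ok hg h hH
  rw [e8_eq (hO := hO) e hH] at h1
  have : mV (e8 hO i) = fun a => dV i ((e8 hO).symm a) := by
    funext a
    unfold mV dV
    simp only [← map_neg, AddEquiv.symm_apply_eq, map_zero]
  rw [← this]
  exact ⟨_, _, h1⟩

lemma pq_line (hO : addOrderOf P = 8) (hg : Gen (Wt b c) x y) {i j : ZMod 8} {x₁ y₁ x₂ y₂ s e : k}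
    (h : ∃ h, i.val • P = .some x₁ y₁ h) (h' : ∃ h, j.val • P = .some x₂ y₂ h)
    (hl : LineOK b c x₁ y₁ x₂ y₂ s e) :
    PQ hO hg (y - (algebraMap k F s * x + algebraMap k F e)) (dL i j) := by
  obtain ⟨h1, e1⟩ := h
  obtain ⟨h2, e2⟩ := h'
  have m1 := mem_e8 e1
  have m2 := mem_e8 e2
  have hm : mL (e8 hO i) (e8 hO j) = fun a => dL i j ((e8 hO).symm a) := by
    funext a
    unfold mL dL
    simp only [← map_neg, ← map_add, AddEquiv.symm_apply_eq, map_zero]
  have a1 : (Wt b c).a₁ = 1 - c := rfl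
  have a2 : (Wt b c).a₂ = -b := rfl
  have a4 : (Wt b c).a₄ = 0 := rfl
  refine ⟨UEG.isUn_line hg ⟨h1, m1⟩ ⟨h2, m2⟩ hl, ?_⟩
  rw [← hm]
  obtain ⟨h3, ⟨h4, h5⟩ | ⟨h6', h7', h6, h7⟩⟩ := hl
  · have := PU.line lc_ok hg h1 h2 m1 m2 (fun h' => h4 h'.1)
    rw [e8_eq (hO := hO) e1 m1, e8_eq (hO := hO) e2 m2] at this
    rw [UEG.io_inc] at this
    have e3 : UEG.homR (algebraMap k F) x y hg.eq (UEG.yR - UEG.iP (UEG.ln (Wt b c) x₁ x₂ y₁ y₂)) =
      UEG.hR hg (UEG.yR - UEG.iP (UEG.ln (Wt b c) x₁ x₂ y₁ y₂)) := rfl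
    rw [e3, UEG.line_val hg h5 h4] at this
    have e4 : y - (algebraMap k F s * (x - algebraMap k F x₁) + algebraMap k F y₁) =
        y - (algebraMap k F s * x + algebraMap k F e) := by
      rw [h3, map_add, map_mul]; ring
    rw [e4] at this
    exact ⟨_, _, this⟩
  · subst h6' h7'
    have h9 : y₁ ≠ (Wt b c).negY x₁ y₁ := by
      rw [negY_wt]
      intro h'
      apply h6
      linear_combination h'
    have := PU.line lc_ok hg h1 h1 m1 m1 (fun h' => h9 h'.2)
    have e5 : (⟨_, m1⟩ : AddSubgroup.zmultiples P) = e8 hO j := e8_eq e2 m1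
    rw [e8_eq (hO := hO) e1 m1] at this e5
    nth_rewrite 2 [e5] at this
    rw [UEG.io_inc] at this
    have e3 : UEG.homR (algebraMap k F) x y hg.eq (UEG.yR - UEG.iP (UEG.ln (Wt b c) x₁ x₁ y₁ y₁)) =
      UEG.hR hg (UEG.yR - UEG.iP (UEG.ln (Wt b c) x₁ x₁ y₁ y₁)) := rfl
    rw [e3, UEG.line_val' hg (m := s) (by rw [negY_wt, a1, a2, a4]; linear_combination h7) h9]
      at this
    have e4 : y - (algebraMap k F s * (x - algebraMap k F x₁) + algebraMap k F y₁) =
        y - (algebraMap k F s * x + algebraMap k F e) := by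
      rw [h3, map_add, map_mul]; ring
    rw [e4] at this
    exact ⟨_, _, this⟩

end

section units

variable {k : Type*} [Field k] [DecidableEq k] [CharZero k] {t : k}
  {F : Type*} [Field F] [DecidableEq F] [Algebra k F] {x y : F}

/-- the divisors of the seven functions -/
def dU : Fin 7 → ZMod 8 → ℤ := ![dV 1, dV 2, dV 3, dV 4, dL 1 1, dL 1 2, dL 1 3]

lemma pq_uF (ht : t ≠ 0) (ht1 : t - 1 ≠ 0) (ht2 : 2 * t - 1 ≠ 0) (hb : bb t ≠ 0)
    (hO : addOrderOf (P0 (cc t) hb) = 8) [Fintype (AddSubgroup.zmultiples (P0 (cc t) hb))]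
    [DecidableEq (AddSubgroup.zmultiples (P0 (cc t) hb))] (hg : Gen (Wt (bb t) (cc t)) x y)
    (j : Fin 7) : PQ hO hg (uF t x y j) (dU j) := by
  have hc : cc t ≠ 0 := by
    unfold cc
    exact div_ne_zero (mul_ne_zero ht2 ht1) ht
  have hd : bb t = t * cc t := by unfold bb cc; field_simp
  have p1 : ∃ h, (1 : ZMod 8).val • P0 (cc t) hb = .some 0 0 h := ⟨_, one_nsmul _⟩
  have p2 : ∃ h, (2 : ZMod 8).val • P0 (cc t) hb = .some (bb t) (bb t * cc t) h :=
    UEG.two_P0 hb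
  have p3 : ∃ h, (3 : ZMod 8).val • P0 (cc t) hb = .some (cc t) (bb t - cc t) h :=
    UEG.three_P0 hb
  have p4 : ∃ h, (4 : ZMod 8).val • P0 (cc t) hb = .some (t * (t - 1)) (t ^ 2 * (cc t + 1 - t)) h :=
    UEG.four_P0 hb hc hd
  fin_cases j
  · have := pq_vert hO hg p1
    rwa [map_zero, sub_zero] at this
  · exact pq_vert hO hg p2
  · exact pq_vert hO hg p3
  · exact pq_vert hO hg p4
  · have h' : LineOK (bb t) (cc t) 0 0 0 0 0 0 := by
      refine ⟨by ring, Or.inr ⟨rfl, rfl, fun h' => hb (by linear_combination -h'), by ring⟩⟩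
    have := pq_line hO hg p1 p1 h'
    show PQ hO hg y (dL 1 1)
    simpa using this
  · have h' : LineOK (bb t) (cc t) 0 0 (bb t) (bb t * cc t) (cc t) 0 :=
      ⟨by ring, Or.inl ⟨Ne.symm hb, by ring⟩⟩
    have := pq_line hO hg p1 p2 h'
    rwa [map_zero, add_zero] at this
  · have h' : LineOK (bb t) (cc t) 0 0 (cc t) (bb t - cc t) (t - 1) 0 :=
      ⟨by ring, Or.inl ⟨Ne.symm hc, by rw [hd]; ring⟩⟩
    have := pq_line hO hg p1 p3 h'
    rwa [map_zero, add_zero] at this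

end units

end Pool.Agent.UE8
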