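import Pool.Agent.Lib_helper76.UE8.P3

/-!
# Exceptional divisors on the multiples of a point of order eight
-/

set_option autoImplicit false
set_option linter.unusedSectionVars false

open scoped TensorProduct

namespace Pool.Agent.UE8

open WeierstrassCurve.Affine Polynomial WithZero GK UP
open UEG (Gen IsUn LineOK P0 negY_wt)
open TN (Wt)
open MK4 (FT lg)

section general

variable {k : Type*} [Field k] [DecidableEq k] [CharZero k] {W : WeierstrassCurve.Affine k}
  {F : Type*} [Field F] [DecidableEq F] [Algebra k F] {X Y X' Y' : F} {P : W.Point}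
  {hO : addOrderOf P = 8}
  [Fintype (AddSubgroup.zmultiples P)] [DecidableEq (AddSubgroup.zmultiples P)]
  {hg : Gen W X Y}

lemma PQ.one (hg : Gen W X Y) : PQ hO hg 1 (fun _ => 0) := by
  have := PQ.const (hO := hO) hg (one_ne_zero (α := k))
  rwa [map_one] at this

lemma PQ.pow {f : F} {M : ZMod 8 → ℤ} (h : PQ hO hg f M) (n : ℕ) :
    PQ hO hg (f ^ n) (fun x => n * M x) := by
  induction n with
  | zero => rw [pow_zero]; exact (PQ.one hg).congr fun x => by simp
  | succ n ih =>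
    rw [pow_succ]
    exact (ih.mul h).congr fun x => by push_cast; ring

lemma PQ.zpow {f : F} {M : ZMod 8 → ℤ} (h : PQ hO hg f M) (n : ℤ) :
    PQ hO hg (f ^ n) (fun x => n * M x) := by
  obtain ⟨m, rfl | rfl⟩ := Int.eq_nat_or_neg n
  · rw [zpow_natCast]
    exact (h.pow m).congr fun x => by push_cast; ring
  · rw [zpow_neg, zpow_natCast]
    exact (h.pow m).inv.congr fun x => by push_cast; ring

lemma PQ.prod {ι : Type*} (s : Finset ι) {u : ι → F} {M : ι → ZMod 8 → ℤ}
    (h : ∀ i, PQ hO hg (u i) (M i)) : PQ hO hg (∏ i ∈ s, u i) (fun x => ∑ i ∈ s, M i x) := by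
  classical
  induction s using Finset.induction_on with
  | empty => rw [Finset.prod_empty]; exact (PQ.one hg).congr fun x => by simp
  | insert i s hi ih =>
    rw [Finset.prod_insert hi]
    exact ((h i).mul ih).congr fun x => by rw [Finset.sum_insert hi]

end general

section units

variable {k : Type*} [Field k] [DecidableEq k] [CharZero k] {t : k}
  {F : Type*} [Field F] [DecidableEq F] [Algebra k F] {x y : F}

/-- the monomials -/
def mo (t : k) (x y : F) (e : Fin 7 → ℤ) : F := ∏ j, uF t x y j ^ e j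

/-- the divisors of the monomials -/
def dM (e : Fin 7 → ℤ) (x : ZMod 8) : ℤ := ∑ j, e j * dU j x

variable (ht : t ≠ 0) (ht1 : t - 1 ≠ 0) (ht2 : 2 * t - 1 ≠ 0) {hb : bb t ≠ 0}
    (hO : addOrderOf (P0 (cc t) hb) = 8) [Fintype (AddSubgroup.zmultiples (P0 (cc t) hb))]
    [DecidableEq (AddSubgroup.zmultiples (P0 (cc t) hb))] (hg : Gen (Wt (bb t) (cc t)) x y)

include ht ht1 ht2 in
lemma pq_mo (e : Fin 7 → ℤ) : PQ hO hg (mo t x y e) (dM e) := by
  unfold mo
  exact (PQ.prod Finset.univ fun j => (pq_uF ht ht1 ht2 hb hO hg j).zpow (e j)).congr fun x => rfl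

include ht ht1 ht2 in
lemma pq_mo' {e : Fin 7 → ℤ} {f : F} {M : ZMod 8 → ℤ} (h : PQ hO hg f M)
    (he : ∀ x, M x = dM e x) : ∃ c : k, c ≠ 0 ∧ f = algebraMap k F c * mo t x y e :=
  (h.congr he).eq_smul (pq_mo ht ht1 ht2 hO hg e)

include ht ht1 ht2 in
/-- the relation -/
lemma rel3 {e e' : Fin 7 → ℤ} {f : F} {D E G : ZMod 8 → ℤ} (h : Q3 hO hg f D E G)
    (he : ∀ x, D x - G x = dM e x) (he' : ∀ x, E x - G x = dM e' x) :
    ∃ c c' : k, c ≠ 0 ∧ c' ≠ 0 ∧ f = algebraMap k F c * mo t x y e ∧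
      1 - f = algebraMap k F c' * mo t x y e' ∧
      algebraMap k F c * mo t x y e + algebraMap k F c' * mo t x y e' = 1 := by
  obtain ⟨c, hc, e1⟩ := pq_mo' ht ht1 ht2 hO hg h.p he
  obtain ⟨c', hc', e2⟩ := pq_mo' ht ht1 ht2 hO hg h.q he'
  exact ⟨c, c', hc, hc', e1, e2, by rw [← e1, ← e2]; ring⟩

end units

end Pool.Agent.UE8
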