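import Pool.Agent.Lib_helper76.UE8.P4

/-!
# Exceptional divisors on the multiples of a point of order eight: explicit functions
-/

set_option autoImplicit false
set_option linter.unusedSectionVars false

open scoped TensorProduct

namespace Pool.Agent.UE8

open WeierstrassCurve.Affine Polynomial WithZero GK UP
open UEG (Gen IsUn LineOK P0 negY_wt)
open TN (Wt)
open MK4 (FT lg)

section ids

variable {F : Type*} [Field F] {x y T C : F}
  (he : y ^ 2 + (1 - C) * x * y - T * C * y = x ^ 3 - T * C * x ^ 2)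
  (hC : T * C = (2 * T - 1) * (T - 1))
  (h0 : x ≠ 0) (h1 : x - T * C ≠ 0) (h2 : x - C ≠ 0) (h3 : x - T * (T - 1) ≠ 0) (h4 : y ≠ 0)
  (h5 : y - C * x ≠ 0) (h6 : y - (T - 1) * x ≠ 0)

include he h1 in
lemma i1 : y * (y - C * x) / (x - T * C) = x ^ 2 - y := by
  rw [div_eq_iff h1]
  linear_combination he

include he h4 h5 in
lemma i2 : x ^ 3 * (x - T * C) * (x - C) / (y * (y - C * x)) =
    x ^ 2 + y + (1 - C) * x - T * C := by
  rw [div_eq_iff (mul_ne_zero h4 h5)]
  linear_combination (-x ^ 2 + x * C - y) * he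

include he h2 h4 in
lemma i224 : (x - T * C) * (y - C * x) * (y - (T - 1) * x) / ((x - C) * y) =
    y - (C + T - 1) * x + (T - 1) * (T * C) := by
  rw [div_eq_iff (mul_ne_zero h2 h4)]
  linear_combination (-T * C + C) * he

include he hC h3 h4 in
lemma i233 : (x - T * C) * (y - (T - 1) * x) ^ 2 / ((x - T * (T - 1)) * y) =
    y - 2 * (T - 1) * x + (T - 1) * C := by
  rw [div_eq_iff (mul_ne_zero h3 h4)]
  linear_combination (T ^ 2 - T * C - T) * he + (-x ^ 3 + x ^ 2 * T * C + x * y * T - x * y * C - y * T * C) * hC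

include he h5 in
lemma i367 : x * (x - T * C) * (x - C) / (y - C * x) = y + x - T * C := by
  rw [div_eq_iff h5]
  linear_combination (-1) * he

include he hC h1 in
lemma iu : (y - 2 * (T - 1) * x + (T - 1) * C) * (y + x - T * C) / (x - T * C) =
    x ^ 2 + (C - 2 * (T - 1)) * y - 2 * (T - 1) * x + (T - 1) * C := by
  rw [div_eq_iff h1]
  linear_combination (1) * he + (y * C) * hC

include he h5 h6 in
lemma i466 : (x - T * C) * (x - C) * (x - T * (T - 1)) * y / ((y - C * x) * (y - (T - 1) * x)) =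
    y + T * x - T * (T * C) := by
  rw [div_eq_iff (mul_ne_zero h5 h6)]
  linear_combination (-y + T ^ 2 * C - T * C) * he

end ids

section units

variable {k : Type*} [Field k] [DecidableEq k] [CharZero k] {t : k}
  {F : Type*} [Field F] [DecidableEq F] [Algebra k F] {x y : F}

lemma mo_def (e0 e1 e2 e3 e4 e5 e6 : ℤ) : mo t x y ![e0, e1, e2, e3, e4, e5, e6] =
    x ^ e0 * (x - algebraMap k F (bb t)) ^ e1 * (x - algebraMap k F (cc t)) ^ e2 *
      (x - algebraMap k F (t * (t - 1))) ^ e3 * y ^ e4 *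
      (y - algebraMap k F (cc t) * x) ^ e5 * (y - algebraMap k F (t - 1) * x) ^ e6 := by
  unfold mo
  rw [Fin.prod_univ_seven]
  rfl

lemma eb : algebraMap k F (bb t) =
    (2 * algebraMap k F t - 1) * (algebraMap k F t - 1) := by
  unfold bb
  simp only [map_sub, map_mul, map_one, map_ofNat]

lemma eTC (ht : t ≠ 0) : algebraMap k F t * algebraMap k F (cc t) =
    (2 * algebraMap k F t - 1) * (algebraMap k F t - 1) := by
  rw [← map_mul, ← eb (t := t)]
  congr 1
  unfold bb cc; field_simp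

/-- the data -/
structure Dat (F : Type*) [Field F] (x y T C : F) : Prop where
  he : y ^ 2 + (1 - C) * x * y - T * C * y = x ^ 3 - T * C * x ^ 2
  hC : T * C = (2 * T - 1) * (T - 1)
  h0 : x ≠ 0
  h1 : x - T * C ≠ 0
  h2 : x - C ≠ 0
  h3 : x - T * (T - 1) ≠ 0
  h4 : y ≠ 0
  h5 : y - C * x ≠ 0
  h6 : y - (T - 1) * x ≠ 0

lemma eB (ht : t ≠ 0) : algebraMap k F (bb t) = algebraMap k F t * algebraMap k F (cc t) := by
  rw [eb, eTC ht]

lemma dat (ht : t ≠ 0) (ht1 : t - 1 ≠ 0) (ht2 : 2 * t - 1 ≠ 0) (hb : bb t ≠ 0)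
    (hg : Gen (Wt (bb t) (cc t)) x y) : Dat F x y (algebraMap k F t) (algebraMap k F (cc t)) := by
  have hun := isUn_uF ht ht1 ht2 hb hg
  have hu : ∀ j, uF t x y j ≠ 0 := fun j => (hun j).1
  have hg' := UE4.of_UEG hg
  have he := hg'.eq
  rw [eB ht] at he
  have e3 : (x - algebraMap k F (t * (t - 1))) ≠ 0 := hu 3
  have e6 : (y - algebraMap k F (t - 1) * x) ≠ 0 := hu 6
  have e1 : (x - algebraMap k F (bb t)) ≠ 0 := hu 1
  rw [map_mul, map_sub, map_one] at e3
  rw [map_sub, map_one] at e6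
  rw [eB ht] at e1
  exact ⟨he, eTC ht, hu 0, e1, hu 2, e3, hu 4, hu 5, e6⟩

lemma mo_def' (ht : t ≠ 0) (e0 e1 e2 e3 e4 e5 e6 : ℤ) : mo t x y ![e0, e1, e2, e3, e4, e5, e6] =
    x ^ e0 * (x - algebraMap k F t * algebraMap k F (cc t)) ^ e1 *
      (x - algebraMap k F (cc t)) ^ e2 *
      (x - algebraMap k F t * (algebraMap k F t - 1)) ^ e3 * y ^ e4 *
      (y - algebraMap k F (cc t) * x) ^ e5 * (y - (algebraMap k F t - 1) * x) ^ e6 := by
  rw [mo_def, eB ht, map_mul, map_sub, map_one]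

variable (ht : t ≠ 0) (ht1 : t - 1 ≠ 0) (ht2 : 2 * t - 1 ≠ 0) {hb : bb t ≠ 0}
    (hO : addOrderOf (P0 (cc t) hb) = 8) [Fintype (AddSubgroup.zmultiples (P0 (cc t) hb))]
    [DecidableEq (AddSubgroup.zmultiples (P0 (cc t) hb))] (hg : Gen (Wt (bb t) (cc t)) x y)

include ht ht1 ht2 in
/-- line 1 -/
lemma no1 {f : F} (h : Q3 hO hg f (![0, 3, 0, 0, 0, 1, 0, 0] : Fin 8 → ℤ)
    (![0, 0, 0, 1, 0, 0, 0, 3] : Fin 8 → ℤ) (![2, 0, 0, 0, 2, 0, 0, 0] : Fin 8 → ℤ)) : False := by
  obtain ⟨c, c', hc, hc', -, -, hr⟩ := rel3 ht ht1 ht2 hO hg (e := ![0, -1, 0, -1, 1, 1, 0])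
    (e' := ![3, 1, 1, -1, -1, -1, 0]) h (by decide) (by decide)
  obtain ⟨he, hC, h0, h1, h2, h3, h4, h5, h6⟩ := dat ht ht1 ht2 hb hg
  have e1 : mo t x y ![0, -1, 0, -1, 1, 1, 0] * (x - algebraMap k F t * (algebraMap k F t - 1)) =
      x ^ 2 - y := by
    rw [mo_def' ht, ← i1 he h1]
    simp only [zpow_zero, zpow_neg, zpow_one]
    field_simp
  have e2 : mo t x y ![3, 1, 1, -1, -1, -1, 0] * (x - algebraMap k F t * (algebraMap k F t - 1)) =
      x ^ 2 + y + (1 - algebraMap k F (cc t)) * x - algebraMap k F t * algebraMap k F (cc t) := by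
    rw [mo_def' ht, ← i2 he h4 h5]
    simp only [zpow_zero, zpow_neg, zpow_one]
    field_simp
  have e3 : algebraMap k F (-(c' * (t * cc t)) + t * (t - 1)) +
      algebraMap k F (c' * (1 - cc t) - 1) * x + algebraMap k F (c' - c) * y +
      algebraMap k F (c + c') * x ^ 2 + algebraMap k F 0 * (x * y) + algebraMap k F 0 * x ^ 3 +
      algebraMap k F 0 * (x ^ 2 * y) = 0 := by
    simp only [map_add, map_sub, map_mul, map_neg, map_one, map_zero]
    linear_combination (x - algebraMap k F t * (algebraMap k F t - 1)) * hr -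
      algebraMap k F c * e1 - algebraMap k F c' * e2
  obtain ⟨-, -, g1, g2, -⟩ := (UE4.of_UEG hg).ind e3
  have : (2 : k) * c = 0 := by linear_combination g2 - g1
  rcases mul_eq_zero.mp this with h7 | h7
  · norm_num at h7
  · exact hc h7

/-- the three numbers are independent -/
def Ind3 (t : k) : Prop :=
  ∀ l m n : ℤ, t ^ l * (t - 1) ^ m * (2 * t - 1) ^ n = 1 → l = 0 ∧ m = 0 ∧ n = 0

include ht ht1 ht2 in
/-- line 2 -/
lemma no2 (hi : Ind3 t) {f : F} (h : Q3 hO hg f (![0, 3, 0, 0, 0, 1, 0, 0] : Fin 8 → ℤ)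
    (![0, 0, 4, 0, 0, 0, 0, 0] : Fin 8 → ℤ) (![4, 0, 0, 0, 0, 0, 0, 0] : Fin 8 → ℤ)) : False := by
  obtain ⟨c, c', hc, hc', -, -, hr⟩ := rel3 ht ht1 ht2 hO hg (e := ![0, -1, 0, 0, 1, 1, 0])
    (e' := ![0, 2, -2, -1, -2, 2, 2]) h (by decide) (by decide)
  obtain ⟨he, hC, h0, h1, h2, h3, h4, h5, h6⟩ := dat ht ht1 ht2 hb hg
  have e1 : mo t x y ![0, -1, 0, 0, 1, 1, 0] = x ^ 2 - y := by
    rw [mo_def' ht, ← i1 he h1]
    simp only [zpow_zero, zpow_neg, zpow_one]
    field_simp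
  have e2 : mo t x y ![0, 2, -2, -1, -2, 2, 2] *
      (x - algebraMap k F t * (algebraMap k F t - 1)) =
      (y - (algebraMap k F (cc t) + algebraMap k F t - 1) * x + (algebraMap k F t - 1) *
        (algebraMap k F t * algebraMap k F (cc t))) ^ 2 := by
    rw [mo_def' ht, ← i224 he h2 h4]
    simp only [zpow_zero, zpow_neg, zpow_one]
    field_simp
  have e3 : algebraMap k F (c' * ((t - 1) * (t * cc t)) ^ 2 + t * (t - 1)) +
      algebraMap k F (-2 * c' * (cc t + t - 1) * ((t - 1) * (t * cc t)) - 1) * x +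
      algebraMap k F (c * (t * (t - 1)) + c' * (t * cc t + 2 * ((t - 1) * (t * cc t)))) * y +
      algebraMap k F (-(c * (t * (t - 1))) + c' * ((cc t + t - 1) ^ 2 - t * cc t)) * x ^ 2 +
      algebraMap k F (-c + c' * (-(1 - cc t) - 2 * (cc t + t - 1))) * (x * y) +
      algebraMap k F (c + c') * x ^ 3 + algebraMap k F 0 * (x ^ 2 * y) = 0 := by
    simp only [map_add, map_sub, map_mul, map_neg, map_one, map_zero, map_pow, map_ofNat]
    rw [e1] at hr
    linear_combination (x - algebraMap k F t * (algebraMap k F t - 1)) * hr -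
      algebraMap k F c' * e2 - algebraMap k F c' * he
  obtain ⟨-, -, -, -, g1, g2, -⟩ := (UE4.of_UEG hg).ind e3
  have hcc : t * cc t = (2 * t - 1) * (t - 1) := by unfold cc; field_simp
  have g3 : c' * (1 - (1 - cc t) - 2 * (cc t + t - 1)) = 0 := by linear_combination g1 + g2
  have g4 := (mul_eq_zero.mp g3).resolve_left hc'
  have g5 : (4 * t - 1) * (t - 1) = 0 := by
    linear_combination -t * g4 - hcc
  have g6 : 4 * t = 1 := by
    linear_combination (mul_eq_zero.mp g5).resolve_right ht1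
  have g7 : t ^ (1 : ℤ) * (t - 1) ^ (0 : ℤ) * (2 * t - 1) ^ (-2 : ℤ) = 1 := by
    have h22 : (2 * t - 1) ^ 2 ≠ 0 := pow_ne_zero 2 ht2
    rw [zpow_one, zpow_zero, mul_one, zpow_neg, ← div_eq_mul_inv, div_eq_one_iff_eq (by
      exact_mod_cast h22)]
    norm_cast
    linear_combination (-t + 1) * g6
  have := (hi _ _ _ g7).1
  norm_num at this

include ht ht1 ht2 in
/-- line 3 -/
lemma no3 (hi : Ind3 t) {f : F} (h : Q3 hO hg f (![0, 0, 0, 3, 0, 0, 0, 1] : Fin 8 → ℤ)
    (![0, 0, 0, 0, 0, 0, 4, 0] : Fin 8 → ℤ) (![4, 0, 0, 0, 0, 0, 0, 0] : Fin 8 → ℤ)) : False := by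
  obtain ⟨c, c', hc, hc', -, -, hr⟩ := rel3 ht ht1 ht2 hO hg (e := ![1, 1, 1, -1, -1, -1, 2])
    (e' := ![0, 2, 2, 1, 2, -2, -2]) h (by decide) (by decide)
  obtain ⟨he, hC, h0, h1, h2, h3, h4, h5, h6⟩ := dat ht ht1 ht2 hb hg
  have e1 : mo t x y ![1, 1, 1, -1, -1, -1, 2] = x ^ 2 + (algebraMap k F (cc t) -
      2 * (algebraMap k F t - 1)) * y - 2 * (algebraMap k F t - 1) * x +
      (algebraMap k F t - 1) * algebraMap k F (cc t) := by
    rw [mo_def' ht, ← iu he hC h1, ← i233 he hC h3 h4, ← i367 he h5]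
    simp only [zpow_zero, zpow_neg, zpow_one]
    field_simp
  have e2 : mo t x y ![0, 2, 2, 1, 2, -2, -2] *
      (x - algebraMap k F t * (algebraMap k F t - 1)) =
      (y + algebraMap k F t * x - algebraMap k F t * (algebraMap k F t * algebraMap k F (cc t))) ^ 2
        := by
    rw [mo_def' ht, ← i466 he h5 h6]
    simp only [zpow_zero, zpow_neg, zpow_one]
    field_simp
  have e3 : algebraMap k F (-(c * (t * (t - 1)) * ((t - 1) * cc t)) +
        c' * (t * (t * cc t)) ^ 2 + t * (t - 1)) +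
      algebraMap k F (c * ((t - 1) * cc t + 2 * (t - 1) * (t * (t - 1))) -
        2 * c' * t * (t * (t * cc t)) - 1) * x +
      algebraMap k F (-(c * (t * (t - 1)) * (cc t - 2 * (t - 1))) +
        c' * (t * cc t - 2 * (t * (t * cc t)))) * y +
      algebraMap k F (c * (-2 * (t - 1) - t * (t - 1)) + c' * (t ^ 2 - t * cc t)) * x ^ 2 +
      algebraMap k F (c * (cc t - 2 * (t - 1)) + c' * (-(1 - cc t) + 2 * t)) * (x * y) +
      algebraMap k F (c + c') * x ^ 3 + algebraMap k F 0 * (x ^ 2 * y) = 0 := by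
    simp only [map_add, map_sub, map_mul, map_neg, map_one, map_zero, map_pow, map_ofNat]
    rw [e1] at hr
    linear_combination (x - algebraMap k F t * (algebraMap k F t - 1)) * hr -
      algebraMap k F c' * e2 - algebraMap k F c' * he
  obtain ⟨-, -, -, -, g1, g2, -⟩ := (UE4.of_UEG hg).ind e3
  have g3 : c' * (4 * t - 3) = 0 := by linear_combination g1 - (cc t - 2 * (t - 1)) * g2
  have g4 := (mul_eq_zero.mp g3).resolve_left hc'
  have g7 : t ^ (0 : ℤ) * (t - 1) ^ (2 : ℤ) * (2 * t - 1) ^ (-4 : ℤ) = 1 := by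
    have h22 : (2 * t - 1) ^ 4 ≠ 0 := pow_ne_zero 4 ht2
    rw [zpow_zero, one_mul, zpow_neg, ← div_eq_mul_inv, div_eq_one_iff_eq (by
      exact_mod_cast h22)]
    norm_cast
    have h8 : t = 3 / 4 := by linear_combination g4 / 4
    rw [h8]; norm_num
  have := (hi _ _ _ g7).2.1
  norm_num at this

end units

end Pool.Agent.UE8
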