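import Pool.Agent.Lib_helper76.UE8.P5

/-!
# The two pulled back classes on the multiples of a point of order eight
-/

set_option autoImplicit false
set_option linter.unusedSectionVars false

open scoped TensorProduct

namespace Pool.Agent.UE8

open WeierstrassCurve.Affine Polynomial WithZero GK UP
open UEG (Gen IsUn LineOK P0 negY_wt)
open TN (Wt)
open MK4 (FT lg)

section ids

variable {F : Type*} [Field F] {x y T C : F}
  (he : y ^ 2 + (1 - C) * x * y - T * C * y = x ^ 3 - T * C * x ^ 2)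
  (hC : T * C = (2 * T - 1) * (T - 1))
  (h0 : x ≠ 0) (h1 : x - T * C ≠ 0) (h2 : x - C ≠ 0) (h3 : x - T * (T - 1) ≠ 0) (h4 : y ≠ 0)
  (h5 : y - C * x ≠ 0) (h6 : y - (T - 1) * x ≠ 0)

include hC h1 in
lemma j1 : 1 - x * (x - C) / (x - T * C) ^ 2 =
    -(2 * T * C - C) * ((x - T * (T - 1)) / (x - T * C) ^ 2) := by
  rw [one_sub_div (pow_ne_zero 2 h1), mul_div_assoc']
  congr 1
  linear_combination (T * C) * hC

include he h2 in
lemma k1 : (y - C * x) * (y - (T - 1) * x) / (x - C) = x ^ 2 - T * y := by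
  rw [div_eq_iff h2]
  linear_combination he

include he hC h3 in
lemma k2 : T * (y - (T - 1) * x) ^ 2 / (x - T * (T - 1)) = T * x ^ 2 - (2 * T - 1) * y := by
  rw [div_eq_iff h3]
  linear_combination (T) * he + (-x ^ 2 * T + x * y + y * T) * hC

include h0 in
lemma j2 (hT : T ≠ 0) (hC0 : C ≠ 0) (hs : x ^ 2 - y ≠ 0) :
    T * C * y / x ^ 2 * (T * C * y / x ^ 2 - C) / (T * C * y / x ^ 2 - T * C) ^ 2 =
      -(y * (x ^ 2 - T * y) / (T * (x ^ 2 - y) ^ 2)) := by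
  have e1 : T * C * y / x ^ 2 - C = -(C * (x ^ 2 - T * y) / x ^ 2) := by field_simp; ring
  have e2 : T * C * y / x ^ 2 - T * C = -(T * C * (x ^ 2 - y) / x ^ 2) := by field_simp; ring
  rw [e1, e2]
  field_simp

include he hC h0 h1 h2 h3 h4 h5 h6 in
lemma j3 (hT : T ≠ 0) (hC0 : C ≠ 0) :
    T * C * y / x ^ 2 * (T * C * y / x ^ 2 - C) / (T * C * y / x ^ 2 - T * C) ^ 2 =
      -(1 / T) * ((x - T * C) ^ 2 * (y - (T - 1) * x) / ((x - C) * y * (y - C * x))) := by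
  have hs : x ^ 2 - y ≠ 0 := by
    rw [← i1 he h1]
    exact div_ne_zero (mul_ne_zero h4 h5) h1
  rw [j2 h0 hT hC0 hs, ← k1 he h2, ← i1 he h1]
  field_simp

include he hC h0 h1 h2 h3 h4 h5 h6 in
lemma j4 (hT : T ≠ 0) (hC0 : C ≠ 0) :
    1 - T * C * y / x ^ 2 * (T * C * y / x ^ 2 - C) / (T * C * y / x ^ 2 - T * C) ^ 2 =
      x ^ 2 * (x - T * C) ^ 2 * (y - (T - 1) * x) ^ 2 / ((x - T * (T - 1)) * y ^ 2 *
        (y - C * x) ^ 2) := by
  have hs : x ^ 2 - y ≠ 0 := by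
    rw [← i1 he h1]
    exact div_ne_zero (mul_ne_zero h4 h5) h1
  have e1 : 1 - T * C * y / x ^ 2 * (T * C * y / x ^ 2 - C) / (T * C * y / x ^ 2 - T * C) ^ 2 =
      x ^ 2 * (T * x ^ 2 - (2 * T - 1) * y) / (T * (x ^ 2 - y) ^ 2) := by
    rw [j2 h0 hT hC0 hs]
    field_simp
    ring
  rw [e1, ← k2 he hC h3, ← i1 he h1]
  field_simp

end ids

section units

variable {k : Type*} [Field k] [DecidableEq k] [CharZero k] {t : k}
  {F : Type*} [Field F] [DecidableEq F] [Algebra k F] {x y : F}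

/-- the function on the quotient by the point of order two -/
def gg8 (t : k) (z : F) : F := z * (z - algebraMap k F (cc t)) / (z - algebraMap k F (bb t)) ^ 2

variable (ht : t ≠ 0) (ht1 : t - 1 ≠ 0) (ht2 : 2 * t - 1 ≠ 0) {hb : bb t ≠ 0}
    (hO : addOrderOf (P0 (cc t) hb) = 8) [Fintype (AddSubgroup.zmultiples (P0 (cc t) hb))]
    [DecidableEq (AddSubgroup.zmultiples (P0 (cc t) hb))] (hg : Gen (Wt (bb t) (cc t)) x y)

include ht ht1 ht2 in
lemma cc_ne : cc t ≠ 0 := by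
  unfold cc
  exact div_ne_zero (mul_ne_zero ht2 ht1) ht

lemma gx_mo : gg8 t x = mo t x y ![1, -2, 1, 0, 0, 0, 0] := by
  rw [mo_def]
  unfold gg8
  simp only [zpow_zero, zpow_neg, zpow_one, mul_one]
  have e : (x - algebraMap k F (bb t)) ^ (2 : ℤ) = (x - algebraMap k F (bb t)) ^ 2 := by
    norm_cast
  rw [e, div_eq_mul_inv]
  ring

include ht ht1 ht2 in
lemma k0 : 2 * bb t - cc t ≠ 0 := by
  have h1 := cc_ne ht ht1 ht2
  have h2 : 2 * bb t - cc t = (2 * t - 1) * cc t := by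
    unfold bb cc; field_simp
  rw [h2]; exact mul_ne_zero ht2 h1

include ht ht1 ht2 hg in
lemma gx_mo' (hb : bb t ≠ 0) : 1 - gg8 t x =
    algebraMap k F (-(2 * bb t - cc t)) * mo t x y ![0, -2, 0, 1, 0, 0, 0] := by
  obtain ⟨he, hC, h0, h1, h2, h3, h4, h5, h6⟩ := dat ht ht1 ht2 hb hg
  rw [mo_def' ht]
  unfold gg8
  rw [eB ht, j1 hC h1, map_neg, map_sub, map_mul, map_ofNat, eB ht]
  simp only [zpow_zero, zpow_neg, zpow_one, mul_one, one_mul]
  have e : (x - algebraMap k F t * algebraMap k F (cc t)) ^ (2 : ℤ) =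
      (x - algebraMap k F t * algebraMap k F (cc t)) ^ 2 := by
    norm_cast
  rw [e, div_eq_mul_inv]
  ring

include ht ht1 ht2 hg in
lemma g1_mo (hb : bb t ≠ 0) : gg8 t (algebraMap k F (bb t) * y / x ^ 2) =
    algebraMap k F (-(1 / t)) * mo t x y ![0, 2, -1, 0, -1, -1, 1] := by
  obtain ⟨he, hC, h0, h1, h2, h3, h4, h5, h6⟩ := dat ht ht1 ht2 hb hg
  rw [mo_def' ht]
  unfold gg8
  rw [eB ht, j3 he hC h0 h1 h2 h3 h4 h5 h6 ((_root_.map_ne_zero _).mpr ht)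
    ((_root_.map_ne_zero _).mpr (cc_ne ht ht1 ht2)), map_neg, map_div₀, map_one]
  simp only [zpow_zero, zpow_neg, zpow_one, mul_one, one_mul]
  have e : (x - algebraMap k F t * algebraMap k F (cc t)) ^ (2 : ℤ) =
      (x - algebraMap k F t * algebraMap k F (cc t)) ^ 2 := by
    norm_cast
  rw [e]
  field_simp

include ht ht1 ht2 hg in
lemma g1_mo' (hb : bb t ≠ 0) : 1 - gg8 t (algebraMap k F (bb t) * y / x ^ 2) =
    mo t x y ![2, 2, 0, -1, -2, -2, 2] := by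
  obtain ⟨he, hC, h0, h1, h2, h3, h4, h5, h6⟩ := dat ht ht1 ht2 hb hg
  rw [mo_def' ht]
  unfold gg8
  rw [eB ht, j4 he hC h0 h1 h2 h3 h4 h5 h6 ((_root_.map_ne_zero _).mpr ht)
    ((_root_.map_ne_zero _).mpr (cc_ne ht ht1 ht2))]
  simp only [zpow_zero, zpow_neg, zpow_one, mul_one, one_mul]
  have e : ∀ z : F, z ^ (2 : ℤ) = z ^ 2 := fun z => by norm_cast
  simp only [e]
  field_simp

include ht ht1 ht2 in
/-- line 4, first class -/
lemma cls1 {f : F} (h : Q3 hO hg f (![0, 1, 0, 1, 0, 1, 0, 1] : Fin 8 → ℤ)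
    (![2, 0, 0, 0, 2, 0, 0, 0] : Fin 8 → ℤ) (![0, 0, 2, 0, 0, 0, 2, 0] : Fin 8 → ℤ)) :
    f = gg8 t x := by
  have p1 : PQ hO hg (gg8 t x) (dM ![1, -2, 1, 0, 0, 0, 0]) := by
    rw [gx_mo (t := t) (x := x) (y := y)]; exact pq_mo ht ht1 ht2 hO hg _
  have p2 : PQ hO hg (1 - gg8 t x) (dM ![0, -2, 0, 1, 0, 0, 0]) := by
    rw [gx_mo' ht ht1 ht2 hg hb]
    exact (pq_mo ht ht1 ht2 hO hg _).smul (neg_ne_zero.mpr (k0 ht ht1 ht2))
  exact (h.p.congr (M' := dM ![1, -2, 1, 0, 0, 0, 0]) (by decide)).eq p1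
    (h.q.congr (M' := dM ![0, -2, 0, 1, 0, 0, 0]) (by decide)) p2 (x := 1) (by decide)

include ht ht1 ht2 in
/-- line 4, second class -/
lemma cls2 {f : F} (h : Q3 hO hg f (![1, 0, 1, 0, 1, 0, 1, 0] : Fin 8 → ℤ)
    (![0, 0, 0, 2, 0, 0, 0, 2] : Fin 8 → ℤ) (![0, 2, 0, 0, 0, 2, 0, 0] : Fin 8 → ℤ)) :
    f = gg8 t (algebraMap k F (bb t) * y / x ^ 2) := by
  have p1 : PQ hO hg (gg8 t (algebraMap k F (bb t) * y / x ^ 2))
      (dM ![0, 2, -1, 0, -1, -1, 1]) := by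
    rw [g1_mo ht ht1 ht2 hg hb]
    exact (pq_mo ht ht1 ht2 hO hg _).smul (neg_ne_zero.mpr (one_div_ne_zero ht))
  have p2 : PQ hO hg (1 - gg8 t (algebraMap k F (bb t) * y / x ^ 2))
      (dM ![2, 2, 0, -1, -2, -2, 2]) := by
    rw [g1_mo' ht ht1 ht2 hg hb]
    exact pq_mo ht ht1 ht2 hO hg _
  exact (h.p.congr (M' := dM ![0, 2, -1, 0, -1, -1, 1]) (by decide)).eq p1
    (h.q.congr (M' := dM ![2, 2, 0, -1, -2, -2, 2]) (by decide)) p2 (x := 0) (by decide)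

include ht ht1 ht2 in
/-- line 5 -/
lemma no5 {f : F} (h : Q3 hO hg f (![0, 2, 0, 2, 0, 2, 0, 2] : Fin 8 → ℤ)
    (![4, 0, 0, 0, 4, 0, 0, 0] : Fin 8 → ℤ) (![0, 0, 4, 0, 0, 0, 4, 0] : Fin 8 → ℤ)) : False := by
  obtain ⟨c, c', hc, hc', -, -, hr⟩ := rel3 ht ht1 ht2 hO hg (e := ![2, -4, 2, 0, 0, 0, 0])
    (e' := ![0, -4, 0, 2, 0, 0, 0]) h (by decide) (by decide)
  obtain ⟨he, hC, h0, h1, h2, h3, h4, h5, h6⟩ := dat ht ht1 ht2 hb hg
  have hb' : x - algebraMap k F (bb t) ≠ 0 := by rw [eB ht]; exact h1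
  have hr' : algebraMap k F c * x ^ 2 * (x - algebraMap k F (cc t)) ^ 2 + algebraMap k F c' *
      (x - algebraMap k F (t * (t - 1))) ^ 2 - (x - algebraMap k F (bb t)) ^ 4 = 0 := by
    rw [mo_def, mo_def] at hr
    simp only [zpow_zero, zpow_neg, zpow_one, mul_one, one_mul] at hr
    have e : ∀ z : F, z ^ (2 : ℤ) = z ^ 2 := fun z => by norm_cast
    have e' : ∀ z : F, z ^ (4 : ℤ) = z ^ 4 := fun z => by norm_cast
    simp only [e, e'] at hr
    field_simp at hr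
    linear_combination hr
  have hp := hg.tr' (C c * X ^ 2 * (X - C (cc t)) ^ 2 + C c' * (X - C (t * (t - 1))) ^ 2 -
    (X - C (bb t)) ^ 4) (by
      simp only [eval₂_add, eval₂_sub, eval₂_mul, eval₂_pow, eval₂_C, eval₂_X]
      exact hr')
  have q1 := congrArg (eval 0) hp
  have q2 := congrArg (eval (t * (t - 1))) hp
  have q3 := congrArg (eval (bb t)) hp
  simp only [eval_add, eval_sub, eval_mul, eval_pow, eval_C, eval_X, eval_zero] at q1 q2 q3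
  have hcc : t * cc t = bb t := by unfold bb cc; field_simp
  have hbt : bb t = (2 * t - 1) * (t - 1) := rfl
  obtain ⟨v, hv⟩ : ∃ v, v = cc t := ⟨_, rfl⟩
  rw [← hv] at q2 q3 hcc
  rw [hbt] at q1 q2 q3 hcc
  have g1 : c' * t ^ 2 = (2 * t - 1) ^ 4 * (t - 1) ^ 2 := by
    have : (t - 1) ^ 2 * (c' * t ^ 2 - (2 * t - 1) ^ 4 * (t - 1) ^ 2) = 0 := by
      linear_combination q1
    have := (mul_eq_zero.mp this).resolve_left (pow_ne_zero 2 ht1)
    linear_combination this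
  have g2 : c = 1 := by
    have : (t - 1) ^ 8 * (c - 1) = 0 := by
      linear_combination q2 + (c * (t - 1) ^ 2 * ((t * (t * (t - 1) - v)) + (t - 1) ^ 3)) * hcc
    have := (mul_eq_zero.mp this).resolve_left (pow_ne_zero 8 ht1)
    linear_combination this
  have g3 : (2 : k) * ((2 * t - 1) ^ 4 * (t - 1) ^ 6) = 0 := by
    subst g2
    linear_combination (t ^ 2) * q3 - (t - 1) ^ 4 * g1 + ((2 * t - 1) ^ 2 * (t - 1) ^ 2 *
      ((t * ((2 * t - 1) * (t - 1) - v)) + (2 * t - 1) * (t - 1) ^ 2)) * hcc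
  rcases mul_eq_zero.mp g3 with h7 | h7
  · norm_num at h7
  · exact mul_ne_zero (pow_ne_zero 4 ht2) (pow_ne_zero 6 ht1) h7

end units

end Pool.Agent.UE8
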