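import Pool.Agent.Lib_helper76.UE8.P7

/-!
# The unit equation on the multiples of a point of order eight: the divisors
-/

set_option autoImplicit false
set_option linter.unusedSectionVars false

open scoped TensorProduct

namespace Pool.Agent.UE8

open WeierstrassCurve.Affine Polynomial WithZero GK UP
open UEG (Gen IsUn LineOK P0 negY_wt)
open TN (Wt Orb)
open MK4 (FT lg)
open FK4 (LineS Supp supp_iff)

section general

variable {k : Type*} [Field k] [DecidableEq k] [CharZero k] {W : WeierstrassCurve.Affine k}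
  {F : Type*} [Field F] [DecidableEq F] [Algebra k F] {X Y : F}

/-- a function whose divisors are multiples of those of a cross ratio -/
lemma case_two' {H : AddSubgroup W.Point} [Fintype H] [DecidableEq H]
    {lc : W.FunctionField → k} (hlc : IsLC W lc)
    (hAC : AC W) (hP : Powers k F) (hg : Gen W X Y) {f : F} (hf : IsUn H X Y f)
    (hf' : IsUn H X Y (1 - f)) {m n : H → ℤ} {κ κ' : FT F} {w w' : W.FunctionField}
    (h : PU H lc hg f m κ w) (h' : PU H lc hg (1 - f) n κ' w') {S p q r : H} {N : ℤ} (hN : 0 < N)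
    (hn : Nd S p q r) (h1 : ∀ x, m x = N * (mz S p x - mz S q x))
    (h2 : ∀ x, n x = N * (mz S r x - mz S q x)) : N = 1 := by
  obtain ⟨M, rfl⟩ := Int.eq_ofNat_of_zero_le hN.le
  have hM : 0 < M := by exact_mod_cast hN
  have hL := lamH_lineS hg hn
  have hLu := supp_iff.mp hL.supp.1
  have hLu' := supp_iff.mp hL.supp.2
  have : CharZero F := charZero_of_injective_algebraMap (algebraMap k F).injective
  have hF := (sysH H hg).fam
  have hGV : ∀ a, GG (pp F H) a ∈ TN.V0 k F := hF.GV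
  obtain ⟨c, hc, e1⟩ := eq_pow hlc hAC hg hf h (n := M) h1 hLu ⟨_, by
    exact Submodule.sub_mem _ (Submodule.sub_mem _ (Submodule.add_mem _ (hGV _) (hGV _)) (hGV _))
      (hGV _), hF.lg0 S p q r hn⟩
  obtain ⟨c', hc', e2⟩ := eq_pow hlc hAC hg hf' h' (n := M) h2 hLu' ⟨_, by
    exact Submodule.sub_mem _ (Submodule.sub_mem _ (Submodule.add_mem _ (hGV _) (hGV _)) (hGV _))
      (hGV _), hF.lg1 S p q r hn⟩
  have htr : Transcendental k (lamH H hg S p q r) := (sysH H hg).tr S p q r hn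
  have e3 : algebraMap k F c * (lamH H hg S p q r) ^ M +
      algebraMap k F c' * (1 - lamH H hg S p q r) ^ M = 1 := by
    rw [← e1, ← e2]; ring
  obtain ⟨h3, h4⟩ := hP _ c c' M htr hc hc' hM e3
  rw [h3]; rfl

variable {P : W.Point} {hO : addOrderOf P = 8}
  [Fintype (AddSubgroup.zmultiples P)] [DecidableEq (AddSubgroup.zmultiples P)]
  {hg : Gen W X Y} {f : F} {D E G : ZMod 8 → ℤ}

/-- the pencils -/
theorem pencil8' {d : ℤ} (hT : Tr D E G d) (h : Q3 hO hg f D E G) {S p q r : ZMod 8} {N : ℤ}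
    (hN : 0 < N) (a1 : ∀ x, D x = N * mz S p x) (a2 : ∀ x, E x = N * mz S r x)
    (a3 : ∀ x, G x = N * mz S q x) : Nd S p q r ∧ Q3 hO hg f (mz S p) (mz S r) (mz S q) := by
  have h0 := h
  obtain ⟨⟨hf, κ, w, h1⟩, ⟨hf', κ', w', h2⟩⟩ := h
  have hmz : ∀ (S p : ZMod 8) (a : AddSubgroup.zmultiples P), mz (e8 hO S) (e8 hO p) a =
      mz S p ((e8 hO).symm a) := by
    intro S p a
    unfold mz
    simp only [← map_sub, AddEquiv.symm_apply_eq]
  have pos : ∀ S x : ZMod 8, 0 < mz S x x := fun S x => by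
    unfold mz
    rw [if_pos rfl]
    split_ifs <;> norm_num
  have pos' : ∀ S x : ZMod 8, 0 < mz S x (S - x) := fun S x => by
    unfold mz
    rw [if_pos rfl]
    split_ifs <;> norm_num
  have b1 := hT.gd
  have b2 := hT.eg
  have b3 := hT.de
  simp only [a1, a2, a3] at b1 b2 b3
  have hN0 : N ≠ 0 := hN.ne'
  have m0 : ∀ {S x y : ZMod 8}, 0 < mz S x y → N * mz S x y ≠ 0 :=
    fun h => mul_ne_zero hN0 h.ne'
  have inj : ∀ {a b : ZMod 8}, a ≠ b → e8 hO a ≠ e8 hO b := fun h h' => h ((e8 hO).injective h')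
  have hn : Nd S p q r := by
    refine ⟨?_, ?_, ?_, ?_, ?_, ?_⟩
    · rintro rfl
      exact m0 (pos S p) (b1 p (m0 (pos S p)))
    · rintro rfl
      exact m0 (pos S (S - q)) (b1 (S - q) (m0 (pos' S q)))
    · rintro rfl
      exact m0 (pos S q) (b2 q (m0 (pos S q)))
    · rintro rfl
      exact m0 (pos S (S - r)) (b2 (S - r) (m0 (pos' S r)))
    · rintro rfl
      exact m0 (pos S p) (b3 p (m0 (pos S p)))
    · rintro rfl
      exact m0 (pos' S r) (b3 (S - r) (m0 (pos S (S - r))))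
  have hn' : Nd (e8 hO S) (e8 hO p) (e8 hO q) (e8 hO r) := by
    obtain ⟨n1, n2, n3, n4, n5, n6⟩ := hn
    unfold Nd
    simp only [← map_sub]
    exact ⟨inj n1, inj n2, inj n3, inj n4, inj n5, inj n6⟩
  have h1' : N = 1 := case_two' lc_ok ac_ok powers_ok hg hf hf' h1 h2 hN hn' (fun x => by
    show D _ - G _ = _
    rw [a1, a3, hmz, hmz]; ring) (fun x => by
    show E _ - G _ = _
    rw [a2, a3, hmz, hmz]; ring)
  subst h1'
  exact ⟨hn, h0.congr (fun x => by rw [a1, one_mul]) (fun x => by rw [a2, one_mul])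
    (fun x => by rw [a3, one_mul])⟩

/-- the pencils are quotients of lines -/
theorem pencil8_line {S p q r : ZMod 8} (hn : Nd S p q r)
    (h : Q3 hO hg f (mz S p) (mz S r) (mz S q)) : LineS (AddSubgroup.zmultiples P) X Y f := by
  obtain ⟨⟨hf, κ, w, h1⟩, ⟨hf', κ', w', h2⟩⟩ := h
  have hmz : ∀ (S p : ZMod 8) (a : AddSubgroup.zmultiples P), mz (e8 hO S) (e8 hO p) a =
      mz S p ((e8 hO).symm a) := by
    intro S p a
    unfold mz
    simp only [← map_sub, AddEquiv.symm_apply_eq]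
  have inj : ∀ {a b : ZMod 8}, a ≠ b → e8 hO a ≠ e8 hO b := fun h h' => h ((e8 hO).injective h')
  have hn' : Nd (e8 hO S) (e8 hO p) (e8 hO q) (e8 hO r) := by
    obtain ⟨n1, n2, n3, n4, n5, n6⟩ := hn
    unfold Nd
    simp only [← map_sub]
    exact ⟨inj n1, inj n2, inj n3, inj n4, inj n5, inj n6⟩
  exact case_two lc_ok ac_ok powers_ok hg hf hf' h1 h2 one_pos hn' (fun x => by
    show mz S p _ - mz S q _ = _
    rw [hmz, hmz]; ring) (fun x => by
    show mz S r _ - mz S q _ = _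
    rw [hmz, hmz]; ring)

end general

section main

variable {k : Type*} [Field k] [DecidableEq k] [CharZero k] {t : k}
  {F : Type*} [Field F] [DecidableEq F] [Algebra k F] {x y : F}
variable (ht : t ≠ 0) (ht1 : t - 1 ≠ 0) (ht2 : 2 * t - 1 ≠ 0) {hb : bb t ≠ 0}
    (hO : addOrderOf (P0 (cc t) hb) = 8) [Fintype (AddSubgroup.zmultiples (P0 (cc t) hb))]
    [DecidableEq (AddSubgroup.zmultiples (P0 (cc t) hb))] (hg : Gen (Wt (bb t) (cc t)) x y)

/-- a property of the nonconstant solutions which is stable under `S₃` and holds for the three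
kinds of solutions -/
structure St8 (R : F → Prop) : Prop where
  hs : ∀ f, R (1 - f) → R f
  hi : ∀ f, R f⁻¹ → R f
  hp : ∀ f (S p q r : ZMod 8), Nd S p q r → Q3 hO hg f (mz S p) (mz S r) (mz S q) → R f
  h1 : ∀ f, Q3 hO hg f (![0, 1, 0, 1, 0, 1, 0, 1] : Fin 8 → ℤ)
    (![2, 0, 0, 0, 2, 0, 0, 0] : Fin 8 → ℤ) (![0, 0, 2, 0, 0, 0, 2, 0] : Fin 8 → ℤ) → R f
  h2 : ∀ f, Q3 hO hg f (![1, 0, 1, 0, 1, 0, 1, 0] : Fin 8 → ℤ)
    (![0, 0, 0, 2, 0, 0, 0, 2] : Fin 8 → ℤ) (![0, 2, 0, 0, 0, 2, 0, 0] : Fin 8 → ℤ) → R f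

include ht ht1 ht2 in
/-- the exceptional triples -/
theorem ex8' (hi : Ind3 t) {R : F → Prop} (hR : St8 hO hg R) {f : F} {D E G : ZMod 8 → ℤ}
    (h : Q3 hO hg f D E G) {s : ZMod 8}
    (ho : Six (fun A B C => Ex8 (fun x => A (x + s)) (fun x => B (x + s))
      (fun x => C (x + s))) D E G) : R f := by
  obtain ⟨f', A, B, C, hE, h', hR'⟩ := h.six hR.hs hR.hi ho
  apply hR'
  clear hR' h ho
  obtain ⟨X', Y', hg', e'⟩ := gen_add hg (((e8 hO (-s) :
    AddSubgroup.zmultiples (P0 (cc t) hb)) : (Wt (bb t) (cc t)).Point))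
  have e : gp hg' = gp hg + pp F (AddSubgroup.zmultiples (P0 (cc t) hb)) (e8 hO (-s)) := e'
  have h1 : Q3 hO hg' f' (fun x => A (x + s)) (fun x => B (x + s)) (fun x => C (x + s)) := by
    have := h'.tr e
    simpa only [sub_neg_eq_add] using this
  rcases hE with ⟨z1, z2, z3⟩ | ⟨z1, z2, z3⟩ | ⟨z1, z2, z3⟩ | ⟨z1, z2, z3⟩ | ⟨z1, z2, z3⟩
  · rw [z1, z2, z3] at h1
    exact (no1 ht ht1 ht2 hO hg' h1.inv.sub).elim
  · rw [z1, z2, z3] at h1
    exact (no2 ht ht1 ht2 hO hg' hi h1.sub.inv.sub).elim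
  · rw [z1, z2, z3] at h1
    exact (no3 ht ht1 ht2 hO hg' hi h1.sub.inv.sub).elim
  · have w1 : ∀ x, A x = vz ![1, 0, 1, 0, 1, 0, 1, 0] (x - s) := fun x => by
      unfold vz; rw [← z1]; show A x = A (x - s + s); rw [sub_add_cancel]
    have w2 : ∀ x, B x = vz ![0, 2, 0, 0, 0, 2, 0, 0] (x - s) := fun x => by
      unfold vz; rw [← z2]; show B x = B (x - s + s); rw [sub_add_cancel]
    have w3 : ∀ x, C x = vz ![0, 0, 0, 2, 0, 0, 0, 2] (x - s) := fun x => by
      unfold vz; rw [← z3]; show C x = C (x - s + s); rw [sub_add_cancel]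
    rcases shift4 s with hs | hs | hs | hs
    · have h2 := h'.congr (fun x => (w1 x).trans (hs x).1) (fun x => (w2 x).trans (hs x).2.1)
        (fun x => (w3 x).trans (hs x).2.2)
      exact hR.hs _ (hR.hi _ (hR.hs _ (hR.h2 _ h2.sub.inv.sub)))
    · exact hR.h2 _ (h'.congr (fun x => (w1 x).trans (hs x).1) (fun x => (w2 x).trans (hs x).2.1)
        (fun x => (w3 x).trans (hs x).2.2))
    · exact hR.h1 _ (h'.congr (fun x => (w1 x).trans (hs x).1) (fun x => (w2 x).trans (hs x).2.1)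
        (fun x => (w3 x).trans (hs x).2.2))
    · have h2 := h'.congr (fun x => (w1 x).trans (hs x).1) (fun x => (w2 x).trans (hs x).2.1)
        (fun x => (w3 x).trans (hs x).2.2)
      exact hR.hs _ (hR.hi _ (hR.hs _ (hR.h1 _ h2.sub.inv.sub)))
  · rw [z1, z2, z3] at h1
    -- one more translation
    obtain ⟨X'', Y'', hg'', e''⟩ := gen_add hg' (((e8 hO (-1) :
      AddSubgroup.zmultiples (P0 (cc t) hb)) : (Wt (bb t) (cc t)).Point))
    have e1 : gp hg'' = gp hg' + pp F (AddSubgroup.zmultiples (P0 (cc t) hb)) (e8 hO (-1)) := e''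
    have g1 : ∀ x, vz ![2, 0, 2, 0, 2, 0, 2, 0] (x - -1) = vz ![0, 2, 0, 2, 0, 2, 0, 2] x := by
      decide
    have g2 : ∀ x, vz ![0, 4, 0, 0, 0, 4, 0, 0] (x - -1) = vz ![4, 0, 0, 0, 4, 0, 0, 0] x := by
      decide
    have g3 : ∀ x, vz ![0, 0, 0, 4, 0, 0, 0, 4] (x - -1) = vz ![0, 0, 4, 0, 0, 0, 4, 0] x := by
      decide
    exact (no5 ht ht1 ht2 hO hg'' ((h1.tr e1).congr g1 g2 g3)).elim

include ht ht1 ht2 in
/-- **the unit equation** -/
theorem unit8' (hM : Main8) (hi : Ind3 t) (hG : IndG (AddSubgroup.zmultiples (P0 (cc t) hb)) F)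
    {R : F → Prop} (hR : St8 hO hg R) {f : F}
    (hf : IsUn (AddSubgroup.zmultiples (P0 (cc t) hb)) x y f)
    (hf' : IsUn (AddSubgroup.zmultiples (P0 (cc t) hb)) x y (1 - f)) :
    (∃ c : k, f = algebraMap k F c) ∨ R f := by
  rcases exists_Q3 (hO := hO) hG hg hf hf' with h | ⟨D, E, G, d, hT, h, h1, h2, h3⟩
  · exact Or.inl h
  right
  rcases hM hT h1 h2 h3 with ⟨S, p, q, r, n, hn, a1, a2, a3⟩ | ⟨s, hs⟩
  · obtain ⟨b1, b2⟩ := pencil8' hT h hn a1 a2 a3
    exact hR.hp _ _ _ _ _ b1 b2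
  · exact ex8' ht ht1 ht2 hO hg hi hR h hs

include ht ht1 ht2 in
/-- the geometric description -/
lemma st8 : St8 hO hg (Cl8 t hb x y) where
  hs := cl8_sub ht ht1 ht2 hO hg
  hi := cl8_inv ht ht1 ht2 hO hg
  hp _ _ _ _ _ hn h := Or.inl (pencil8_line hn h)
  h1 _ h := Or.inr (Or.inl (Or.inl (cls1 ht ht1 ht2 hO hg h)))
  h2 _ h := Or.inr (Or.inr (Or.inl (cls2 ht ht1 ht2 hO hg h)))

end main

end Pool.Agent.UE8
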