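import Pool.Agent.Lib_helper24.FAM.C8g
import Pool.Agent.Lib_helper76.UE8.P6

/-!
# The 58 solutions of the unit equation for a point of order eight
-/

set_option autoImplicit false
set_option linter.unusedSectionVars false
set_option linter.unusedSimpArgs false
set_option maxRecDepth 100000

namespace Pool.Agent.UE8

open Pool.Agent.KC72 Pool.Agent.N8C

section ev

variable {F : Type*} [Field F]

/-- monomials with natural exponents -/
def evn : List F → List ℕ → F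
  | x :: g, n :: ns => x ^ n * evn g ns
  | _, _ => 1

/-- the exponents agree -/
def okl : List ℤ → List ℕ → List ℕ → Bool
  | e :: es, d :: ds, n :: ns => decide (e + (d : ℤ) = (n : ℤ)) && okl es ds ns
  | [], [], [] => true
  | _, _, _ => false

lemma evl_evn {g : List F} (hg : ∀ x ∈ g, x ≠ 0) : ∀ {e : List ℤ} {d n : List ℕ},
    okl e d n = true → e.length = g.length → evl g e * evn g d = evn g n := by
  induction g with
  | nil =>
    intro e d n h hl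
    cases e with
    | nil =>
      cases d <;> cases n <;> simp_all [okl, evn]
    | cons _ _ => simp at hl
  | cons x g ih =>
    intro e d n h hl
    cases e with
    | nil => simp at hl
    | cons e es =>
      cases d with
      | nil => simp [okl] at h
      | cons d ds =>
        cases n with
        | nil => simp [okl] at h
        | cons n ns =>
          unfold okl at h
          rw [Bool.and_eq_true, decide_eq_true_iff] at h
          have hx : x ≠ 0 := hg x (by simp)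
          have h1 := ih (fun y hy => hg y (by simp [hy])) h.2 (by simpa using hl)
          rw [evl_cons, evn, evn, ← h1]
          have h2 : x ^ e * x ^ d = x ^ n := by
            rw [← zpow_natCast, ← zpow_add₀ hx, h.1, zpow_natCast]
          rw [← h2]; ring

lemma evn_ne {g : List F} (hg : ∀ x ∈ g, x ≠ 0) (d : List ℕ) : evn g d ≠ 0 := by
  induction g generalizing d with
  | nil => cases d <;> simp [evn]
  | cons x g ih =>
    cases d with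
    | nil => simp [evn]
    | cons n ns =>
      rw [evn]
      exact mul_ne_zero (pow_ne_zero _ (hg x (by simp))) (ih (fun y hy => hg y (by simp [hy])) ns)

/-- clearing the denominators -/
lemma clr {g : List F} (hg : ∀ x ∈ g, x ≠ 0) {s s' : Bool} {e e' : List ℤ} {d n m : List ℕ}
    (h1 : okl e d n = true) (h2 : okl e' d m = true) (hl : e.length = g.length)
    (hl' : e'.length = g.length)
    (h : (bif s then -1 else 1) * evn g n + (bif s' then -1 else 1) * evn g m = evn g d) :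
    ev g (s, e) + ev g (s', e') = 1 := by
  have h3 := evl_evn hg h1 hl
  have h4 := evl_evn hg h2 hl'
  apply mul_right_cancel₀ (evn_ne hg d)
  unfold ev
  show ((bif s then -1 else 1) * evl g e + (bif s' then -1 else 1) * evl g e') * evn g d =
    1 * evn g d
  linear_combination h + (bif s then -1 else 1) * h3 + (bif s' then -1 else 1) * h4

end ev

section sols

variable {F : Type*} [Field F] {x y T C : F}

/-- the generators -/
def gl8 (x y T C : F) : List F :=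
  [x, x - T * C, x - C, x - T * (T - 1), y, y - C * x, y - (T - 1) * x, T, T - 1, 2 * T - 1]

variable (he : y ^ 2 + (1 - C) * x * y - T * C * y = x ^ 3 - T * C * x ^ 2)
  (hC : T * C = (2 * T - 1) * (T - 1))

include he hC in
lemma c0 : (bif false then -1 else 1) * evn (gl8 x y T C) [0, 0, 1, 0, 0, 0, 2, 2, 0, 0] +
    (bif true then -1 else 1) * evn (gl8 x y T C) [0, 0, 0, 1, 0, 1, 1, 0, 0, 1] =
    evn (gl8 x y T C) [2, 0, 1, 1, 0, 0, 0, 0, 2, 0] := by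
  simp only [gl8, evn, cond_true, cond_false]
  linear_combination (x * T ^ 2 - 2 * x * T + x + 2 * T ^ 3 - T ^ 2 * C - 3 * T ^ 2 + T) * he + (-x ^ 3 * T ^ 2 + x ^ 2 * y * T + x ^ 2 * T ^ 2 * C + x * y * T ^ 2 - x * y * T * C - y * T ^ 2 * C) * hC

include he hC in
lemma c1 : (bif true then -1 else 1) * evn (gl8 x y T C) [0, 1, 0, 0, 0, 0, 2, 1, 0, 0] +
    (bif false then -1 else 1) * evn (gl8 x y T C) [0, 0, 0, 1, 1, 1, 0, 0, 0, 1] =
    evn (gl8 x y T C) [2, 1, 0, 1, 0, 0, 0, 0, 1, 0] := by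
  simp only [gl8, evn, cond_true, cond_false]
  linear_combination (x * T - x - 2 * T ^ 3 + T ^ 2 * C + 3 * T ^ 2 - T) * he + (x ^ 3 * T - x ^ 2 * y - x ^ 2 * T ^ 2 * C + x * y * T * C - x * y * T + y * T ^ 2 * C) * hC

include he hC in
lemma c2 : (bif false then -1 else 1) * evn (gl8 x y T C) [0, 0, 0, 0, 0, 0, 2, 1, 0, 0] +
    (bif false then -1 else 1) * evn (gl8 x y T C) [0, 0, 0, 1, 1, 0, 0, 0, 0, 1] =
    evn (gl8 x y T C) [2, 0, 0, 1, 0, 0, 0, 1, 0, 0] := by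
  simp only [gl8, evn, cond_true, cond_false]
  linear_combination (T) * he + (-x ^ 2 * T + x * y + y * T) * hC

include he hC in
lemma c3 : (bif true then -1 else 1) * evn (gl8 x y T C) [0, 1, 0, 0, 0, 1, 1, 0, 0, 0] +
    (bif false then -1 else 1) * evn (gl8 x y T C) [0, 0, 1, 0, 1, 1, 0, 1, 0, 0] =
    evn (gl8 x y T C) [2, 1, 1, 0, 0, 0, 0, 0, 1, 0] := by
  simp only [gl8, evn, cond_true, cond_false]
  linear_combination (x * T - x) * he + (0) * hC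

include he hC in
lemma c4 : (bif false then -1 else 1) * evn (gl8 x y T C) [0, 0, 0, 0, 0, 1, 1, 0, 0, 0] +
    (bif false then -1 else 1) * evn (gl8 x y T C) [0, 0, 1, 0, 1, 0, 0, 1, 0, 0] =
    evn (gl8 x y T C) [2, 0, 1, 0, 0, 0, 0, 0, 0, 0] := by
  simp only [gl8, evn, cond_true, cond_false]
  linear_combination (1) * he + (0) * hC

include he hC in
lemma c5 : (bif false then -1 else 1) * evn (gl8 x y T C) [0, 0, 0, 0, 1, 1, 0, 0, 0, 0] +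
    (bif false then -1 else 1) * evn (gl8 x y T C) [0, 1, 0, 0, 1, 0, 0, 0, 0, 0] =
    evn (gl8 x y T C) [2, 1, 0, 0, 0, 0, 0, 0, 0, 0] := by
  simp only [gl8, evn, cond_true, cond_false]
  linear_combination (1) * he + (0) * hC

include he hC in
lemma c6 : (bif false then -1 else 1) * evn (gl8 x y T C) [0, 1, 0, 1, 0, 1, 1, 0, 0, 0] +
    (bif false then -1 else 1) * evn (gl8 x y T C) [0, 0, 1, 1, 1, 1, 0, 0, 1, 0] =
    evn (gl8 x y T C) [0, 1, 1, 0, 0, 0, 2, 1, 0, 0] := by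
  simp only [gl8, evn, cond_true, cond_false]
  linear_combination (-x * T ^ 3 + x * T ^ 2 * C + x * T ^ 2 - x * T * C + x * C + 2 * T ^ 3 * C - T ^ 2 * C ^ 2 - 3 * T ^ 2 * C + T * C) * he + (x ^ 4 * T - x ^ 3 * y - x ^ 3 * T ^ 2 * C - x ^ 3 * T * C + x ^ 2 * y * T * C - x ^ 2 * y * T + x ^ 2 * y * C + x ^ 2 * T ^ 2 * C ^ 2 + x * y * T ^ 2 * C - x * y * T * C ^ 2 + x * y * T * C - y * T ^ 2 * C ^ 2) * hC

include he hC in
lemma c7 : (bif false then -1 else 1) * evn (gl8 x y T C) [0, 0, 0, 1, 0, 1, 1, 1, 0, 0] +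
    (bif false then -1 else 1) * evn (gl8 x y T C) [0, 0, 1, 1, 1, 0, 0, 0, 2, 0] =
    evn (gl8 x y T C) [0, 0, 1, 0, 0, 0, 2, 1, 0, 0] := by
  simp only [gl8, evn, cond_true, cond_false]
  linear_combination (-T ^ 3 + T ^ 2 + T * C) * he + (x ^ 3 * T - x ^ 2 * y - x ^ 2 * T * C - x * y * T + x * y * C + y * T * C) * hC

include he hC in
lemma c8 : (bif false then -1 else 1) * evn (gl8 x y T C) [0, 0, 0, 1, 1, 1, 0, 1, 0, 0] +
    (bif true then -1 else 1) * evn (gl8 x y T C) [0, 1, 0, 1, 1, 0, 0, 0, 1, 0] =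
    evn (gl8 x y T C) [0, 1, 0, 0, 0, 0, 2, 1, 0, 0] := by
  simp only [gl8, evn, cond_true, cond_false]
  linear_combination (-T ^ 3 + T ^ 2 * C + T ^ 2) * he + (x ^ 3 * T - x ^ 2 * y - x ^ 2 * T ^ 2 * C + x * y * T * C - x * y * T + y * T ^ 2 * C) * hC

include he hC in
lemma c9 : (bif false then -1 else 1) * evn (gl8 x y T C) [0, 0, 1, 0, 1, 1, 0, 0, 0, 0] +
    (bif true then -1 else 1) * evn (gl8 x y T C) [0, 1, 1, 0, 1, 0, 0, 0, 1, 0] =
    evn (gl8 x y T C) [0, 1, 0, 0, 0, 1, 1, 0, 0, 0] := by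
  simp only [gl8, evn, cond_true, cond_false]
  linear_combination (T * C - C) * he + (0) * hC

include he hC in
lemma c10 : (bif true then -1 else 1) * evn (gl8 x y T C) [0, 1, 0, 0, 0, 1, 2, 1, 0, 0] +
    (bif false then -1 else 1) * evn (gl8 x y T C) [0, 0, 0, 1, 1, 1, 1, 0, 0, 1] =
    evn (gl8 x y T C) [1, 1, 1, 1, 1, 0, 0, 0, 1, 0] := by
  simp only [gl8, evn, cond_true, cond_false]
  linear_combination (x * y * T - x * y + 2 * x * T ^ 4 - 2 * x * T ^ 3 * C - 3 * x * T ^ 3 + 2 * x * T ^ 2 * C + x * T ^ 2 - x * T * C - 2 * y * T ^ 3 + y * T ^ 2 * C + 3 * y * T ^ 2 - y * T - 2 * T ^ 4 * C + T ^ 3 * C ^ 2 + 3 * T ^ 3 * C - T ^ 2 * C) * he + (-x ^ 4 * T ^ 2 + x ^ 3 * y * T + x ^ 3 * T ^ 3 * C + x ^ 3 * T ^ 2 * C - x ^ 2 * y * T ^ 2 * C + x ^ 2 * y * T ^ 2 - x ^ 2 * y * T * C - x ^ 2 * T ^ 3 * C ^ 2 - x * y * T ^ 3 * C + x * y * T ^ 2 * C ^ 2 - x * y * T ^ 2 * C + y * T ^ 3 * C ^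 2) * hC

include he hC in
lemma c11 : (bif false then -1 else 1) * evn (gl8 x y T C) [0, 1, 0, 0, 0, 1, 2, 0, 0, 0] +
    (bif false then -1 else 1) * evn (gl8 x y T C) [0, 0, 1, 1, 1, 1, 0, 0, 0, 1] =
    evn (gl8 x y T C) [1, 1, 1, 1, 1, 0, 0, 0, 0, 0] := by
  simp only [gl8, evn, cond_true, cond_false]
  linear_combination (x * y - 2 * x * T ^ 3 + 2 * x * T ^ 2 * C + 3 * x * T ^ 2 - 2 * x * T * C - x * T + x * C - y * T * C + 2 * T ^ 3 * C - T ^ 2 * C ^ 2 - 3 * T ^ 2 * C + T * C) * he + (x ^ 4 * T - x ^ 3 * y - x ^ 3 * T ^ 2 * C - x ^ 3 * T * C + x ^ 2 * y * T * C - x ^ 2 * y * T + x ^ 2 * y * C + x ^ 2 * T ^ 2 * C ^ 2 + x * y * T ^ 2 * C - x * y * T * C ^ 2 + x * y * T * C - y * T ^ 2 * C ^ 2) * hC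

include he hC in
lemma c12 : (bif false then -1 else 1) * evn (gl8 x y T C) [0, 0, 0, 0, 0, 1, 1, 0, 0, 0] +
    (bif false then -1 else 1) * evn (gl8 x y T C) [0, 0, 1, 0, 0, 1, 0, 1, 0, 0] =
    evn (gl8 x y T C) [1, 1, 1, 0, 0, 0, 0, 0, 0, 0] := by
  simp only [gl8, evn, cond_true, cond_false]
  linear_combination (1) * he + (0) * hC

include he hC in
lemma c13 : (bif false then -1 else 1) * evn (gl8 x y T C) [0, 0, 0, 1, 1, 0, 1, 0, 0, 0] +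
    (bif true then -1 else 1) * evn (gl8 x y T C) [0, 0, 1, 1, 1, 0, 0, 0, 1, 0] =
    evn (gl8 x y T C) [0, 1, 0, 0, 0, 0, 2, 0, 0, 0] := by
  simp only [gl8, evn, cond_true, cond_false]
  linear_combination (-T ^ 2 + T * C + T) * he + (x ^ 3 - x ^ 2 * T * C - x * y * T + x * y * C + y * T * C) * hC

include he hC in
lemma c14 : (bif false then -1 else 1) * evn (gl8 x y T C) [1, 0, 2, 1, 1, 1, 0, 0, 0, 1] +
    (bif true then -1 else 1) * evn (gl8 x y T C) [0, 1, 0, 0, 0, 2, 2, 0, 1, 0] =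
    evn (gl8 x y T C) [0, 1, 2, 1, 2, 0, 0, 1, 0, 0] := by
  simp only [gl8, evn, cond_true, cond_false]
  linear_combination (-2 * x ^ 3 * T ^ 3 + x ^ 3 * T ^ 2 * C + 3 * x ^ 3 * T ^ 2 - x ^ 3 * T + 2 * x ^ 2 * y * T ^ 2 + x ^ 2 * y * T * C - 3 * x ^ 2 * y * T - x ^ 2 * y * C + x ^ 2 * y + x ^ 2 * T ^ 3 * C ^ 2 + 4 * x ^ 2 * T ^ 3 * C - 5 * x ^ 2 * T ^ 2 * C ^ 2 - 6 * x ^ 2 * T ^ 2 * C + 3 * x ^ 2 * T * C ^ 2 + 2 * x ^ 2 * T * C - x ^ 2 * C ^ 2 - x * y ^ 2 * T + x * y ^ 2 - 2 * x * y * T ^ 3 * C - x * y * T ^ 2 * C ^ 2 + 2 * x * y * T ^ 2 * C + x * y * T * C ^ 2 - 2 * x * T ^ 3 * C ^ 2 + x * T ^ 2 * C ^ 3 + 3 * x * T ^ 2 * C ^ 2 - x * T * C ^ 2 + y ^ 2 * T ^ 2 * C - y ^ 2 * T * C + y * T ^ 3 * C ^ 2 - y * T ^ 2 * C ^ 2) * he + (x ^ 6 * T - x ^ 5 * y - x ^ 5 * T ^ 2 * C - 2 * x ^ 5 * T * C + x ^ 4 * y * T * C - x ^ 4 * y * T + 2 * x ^ 4 * y * C + 2 * x ^ 4 * T ^ 2 * C ^ 2 + x ^ 4 *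 T * C ^ 2 + x ^ 3 * y * T ^ 2 * C - 2 * x ^ 3 * y * T * C ^ 2 + 2 * x ^ 3 * y * T * C - x ^ 3 * y * C ^ 2 - x ^ 3 * T ^ 2 * C ^ 3 - 2 * x ^ 2 * y * T ^ 2 * C ^ 2 + x ^ 2 * y * T * C ^ 3 - x ^ 2 * y * T * C ^ 2 + x * y * T ^ 2 * C ^ 3) * hC

include he hC in
lemma c15 : (bif false then -1 else 1) * evn (gl8 x y T C) [1, 0, 1, 1, 0, 1, 0, 1, 0, 0] +
    (bif true then -1 else 1) * evn (gl8 x y T C) [0, 0, 0, 0, 0, 1, 2, 0, 1, 0] =
    evn (gl8 x y T C) [0, 1, 1, 1, 1, 0, 0, 0, 0, 0] := by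
  simp only [gl8, evn, cond_true, cond_false]
  linear_combination (2 * x * T ^ 2 - 3 * x * T + x - y * T + y - T ^ 2 * C + T * C) * he + (-x ^ 4 + x ^ 3 * C + x ^ 2 * y * T - x * y * T * C) * hC

include he hC in
lemma c16 : (bif false then -1 else 1) * evn (gl8 x y T C) [1, 0, 1, 0, 0, 1, 0, 1, 0, 0] +
    (bif false then -1 else 1) * evn (gl8 x y T C) [0, 0, 0, 0, 0, 1, 1, 0, 1, 1] =
    evn (gl8 x y T C) [0, 1, 1, 0, 1, 0, 0, 1, 0, 0] := by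
  simp only [gl8, evn, cond_true, cond_false]
  linear_combination (2 * T ^ 2 - 3 * T + 1) * he + (-x ^ 3 + x ^ 2 * C + x * y * T - y * T * C) * hC

include he hC in
lemma c17 : (bif true then -1 else 1) * evn (gl8 x y T C) [0, 1, 0, 0, 0, 2, 2, 1, 0, 0] +
    (bif false then -1 else 1) * evn (gl8 x y T C) [0, 0, 1, 0, 1, 1, 2, 0, 0, 1] =
    evn (gl8 x y T C) [0, 1, 2, 1, 2, 0, 0, 0, 1, 0] := by
  simp only [gl8, evn, cond_true, cond_false]
  linear_combination (2 * x ^ 3 * T ^ 3 - x ^ 3 * T ^ 2 * C - 3 * x ^ 3 * T ^ 2 + x ^ 3 * T - 2 * x ^ 2 * y * T ^ 2 + x ^ 2 * y * T * C + 3 * x ^ 2 * y * T - x ^ 2 * y + x ^ 2 * T ^ 3 * C ^ 2 - 4 * x ^ 2 * T ^ 3 * C + 6 * x ^ 2 * T ^ 2 * C + x ^ 2 * T * C ^ 2 - 2 * x ^ 2 * T * C + x * y ^ 2 * T - x * y ^ 2 - 2 * x * y * T ^ 3 * C - x * y * T ^ 2 * C ^ 2 + 6 * x * y * T ^ 2 * C - 5 * x * y * T * C + x * y * C + 2 * x * T ^ 3 * C ^ 2 - x * T ^ 2 *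 C ^ 3 - 3 * x * T ^ 2 * C ^ 2 + x * T * C ^ 2 + y ^ 2 * T ^ 2 * C - 2 * y ^ 2 * T * C + y ^ 2 * C + y * T ^ 3 * C ^ 2 - 2 * y * T ^ 2 * C ^ 2 + y * T * C ^ 2) * he + (-x ^ 6 * T + x ^ 5 * y + x ^ 5 * T ^ 2 * C + 2 * x ^ 5 * T * C - x ^ 4 * y * T * C + x ^ 4 * y * T - 2 * x ^ 4 * y * C - 2 * x ^ 4 * T ^ 2 * C ^ 2 - x ^ 4 * T * C ^ 2 - x ^ 3 * y * T ^ 2 * C + 2 * x ^ 3 * y * T * C ^ 2 - 2 * x ^ 3 * y * T * C + x ^ 3 * y * C ^ 2 + x ^ 3 * T ^ 2 * C ^ 3 + 2 * x ^ 2 * y * T ^ 2 * C ^ 2 - x ^ 2 * y * T * C ^ 3 + x ^ 2 * y * T * C ^ 2 - x * y * T ^ 2 * C ^ 3) * hC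

include he hC in
lemma c18 : (bif false then -1 else 1) * evn (gl8 x y T C) [0, 1, 0, 0, 0, 2, 2, 1, 0, 0] +
    (bif false then -1 else 1) * evn (gl8 x y T C) [0, 0, 1, 1, 1, 1, 1, 0, 0, 2] =
    evn (gl8 x y T C) [0, 1, 2, 1, 2, 0, 0, 1, 0, 0] := by
  simp only [gl8, evn, cond_true, cond_false]
  linear_combination (-2 * x ^ 3 * T ^ 3 + x ^ 3 * T ^ 2 * C + 3 * x ^ 3 * T ^ 2 - x ^ 3 * T + 2 * x ^ 2 * y * T ^ 2 - x ^ 2 * y * T * C - 3 * x ^ 2 * y * T + x ^ 2 * y + 4 * x ^ 2 * T ^ 5 - 2 * x ^ 2 * T ^ 4 * C - 8 * x ^ 2 * T ^ 4 - x ^ 2 * T ^ 3 * C ^ 2 + 5 * x ^ 2 * T ^ 3 * C + 5 * x ^ 2 * T ^ 3 - 6 * x ^ 2 * T ^ 2 * C - x ^ 2 * T ^ 2 - x ^ 2 * T * C ^ 2 + 2 * x ^ 2 * T * C + x * y ^ 2 * T - 4 * x * y * T ^ 4 + 2 * x * y * T ^ 3 * C + 8 * x * y * T ^ 3 + x * y * T ^ 2 * C ^ 2 - 4 * x * y * T ^ 2 * C - 5 * x * y * T ^ 2 + 4 * x * y * T * C + x * y * T - x * y * C - 8 * x * T ^ 5 * C + 4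 * x * T ^ 4 * C ^ 2 + 16 * x * T ^ 4 * C - 4 * x * T ^ 3 * C ^ 2 - 10 * x * T ^ 3 * C + x * T ^ 2 * C ^ 3 + 3 * x * T ^ 2 * C ^ 2 + 2 * x * T ^ 2 * C - x * T * C ^ 2 - y ^ 2 * T ^ 2 * C + 4 * y * T ^ 4 * C - y * T ^ 3 * C ^ 2 - 8 * y * T ^ 3 * C + 5 * y * T ^ 2 * C - y * T * C + 4 * T ^ 5 * C ^ 2 - 2 * T ^ 4 * C ^ 3 - 8 * T ^ 4 * C ^ 2 + T ^ 3 * C ^ 3 + 5 * T ^ 3 * C ^ 2 - T ^ 2 * C ^ 2) * he + (x ^ 6 * T - x ^ 5 * y - 2 * x ^ 5 * T ^ 3 - x ^ 5 * T ^ 2 * C + x ^ 5 * T ^ 2 - 2 * x ^ 5 * T * C + 2 * x ^ 4 * y * T ^ 2 + x ^ 4 * y * T * C - 2 * x ^ 4 * y * T + 2 * x ^ 4 * y * C + 2 * x ^ 4 * T ^ 4 * C + 3 * x ^ 4 * T ^ 3 * C + 2 * x ^ 4 * T ^ 2 * C ^ 2 - 2 * x ^ 4 * T ^ 2 * C + x ^ 4 * T * C ^ 2 - 2 * x ^ 3 * y * T ^ 3 * C + 2 * x ^ 3 * y * T ^ 3 - 2 * x ^ 3 * y * T ^ 2 * C - x ^ 3 * y * T ^ 2 - 2 * x ^ 3 * y * T * C ^ 2 + 4 * x ^ 3 * y * T * C - x ^ 3 * y * C ^ 2 - 4 * x ^ 3 * T ^ 4 *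 C ^ 2 - x ^ 3 * T ^ 2 * C ^ 3 + x ^ 3 * T ^ 2 * C ^ 2 - 2 * x ^ 2 * y * T ^ 4 * C + 4 * x ^ 2 * y * T ^ 3 * C ^ 2 - 3 * x ^ 2 * y * T ^ 3 * C - 2 * x ^ 2 * y * T ^ 2 * C ^ 2 + 2 * x ^ 2 * y * T ^ 2 * C + x ^ 2 * y * T * C ^ 3 - 2 * x ^ 2 * y * T * C ^ 2 + 2 * x ^ 2 * T ^ 4 * C ^ 3 - x ^ 2 * T ^ 3 * C ^ 3 + 4 * x * y * T ^ 4 * C ^ 2 - 2 * x * y * T ^ 3 * C ^ 3 + 2 * x * y * T ^ 2 * C ^ 3 - x * y * T ^ 2 * C ^ 2 - 2 * y * T ^ 4 * C ^ 3 + y * T ^ 3 * C ^ 3) * hC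

include he hC in
lemma c19 : (bif false then -1 else 1) * evn (gl8 x y T C) [0, 0, 0, 0, 0, 1, 2, 0, 0, 0] +
    (bif false then -1 else 1) * evn (gl8 x y T C) [0, 0, 0, 1, 0, 1, 1, 0, 0, 1] =
    evn (gl8 x y T C) [0, 1, 1, 1, 1, 0, 0, 0, 0, 0] := by
  simp only [gl8, evn, cond_true, cond_false]
  linear_combination (y - 2 * T ^ 3 + 3 * T ^ 2 + T * C - T) * he + (x ^ 3 * T - x ^ 2 * T * C - x * y * T ^ 2 + y * T ^ 2 * C) * hC

include he hC in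
lemma c20 : (bif true then -1 else 1) * evn (gl8 x y T C) [0, 1, 0, 0, 0, 1, 2, 0, 0, 0] +
    (bif false then -1 else 1) * evn (gl8 x y T C) [0, 0, 1, 0, 1, 0, 2, 1, 0, 0] =
    evn (gl8 x y T C) [1, 0, 2, 1, 1, 0, 0, 0, 1, 0] := by
  simp only [gl8, evn, cond_true, cond_false]
  linear_combination (-2 * x ^ 2 * T ^ 2 + x ^ 2 * T * C + 3 * x ^ 2 * T - x ^ 2 + x * y * T - x * y + x * T ^ 2 * C - x * T * C ^ 2 - x * T * C) * he + (x ^ 5 - x ^ 4 * T * C - x ^ 4 * C - x ^ 3 * y * T + x ^ 3 * y * C + x ^ 3 * T * C ^ 2 + 2 * x ^ 2 * y * T * C - x ^ 2 * y * C ^ 2 - x * y * T * C ^ 2) * hC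

include he hC in
lemma c21 : (bif false then -1 else 1) * evn (gl8 x y T C) [0, 1, 0, 0, 0, 1, 2, 0, 0, 0] +
    (bif false then -1 else 1) * evn (gl8 x y T C) [0, 0, 1, 1, 1, 0, 1, 0, 0, 1] =
    evn (gl8 x y T C) [1, 0, 2, 1, 1, 0, 0, 0, 0, 0] := by
  simp only [gl8, evn, cond_true, cond_false]
  linear_combination (x * y - 2 * x * T ^ 3 + 2 * x * T ^ 2 * C + 3 * x * T ^ 2 - 2 * x * T * C - x * T + x * C - y * T * C + 2 * T ^ 3 * C - T ^ 2 * C ^ 2 - 3 * T ^ 2 * C + T * C) * he + (x ^ 4 * T - x ^ 3 * T ^ 2 * C - x ^ 3 * T * C - x ^ 2 * y * T ^ 2 + x ^ 2 * y * T * C + x ^ 2 * T ^ 2 * C ^ 2 + 2 * x * y * T ^ 2 * C - x * y * T * C ^ 2 - y * T ^ 2 * C ^ 2) * hC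

include he hC in
lemma c22 : (bif false then -1 else 1) * evn (gl8 x y T C) [0, 0, 0, 0, 0, 0, 2, 1, 0, 0] +
    (bif false then -1 else 1) * evn (gl8 x y T C) [0, 0, 0, 1, 0, 0, 1, 0, 0, 1] =
    evn (gl8 x y T C) [1, 0, 1, 1, 0, 0, 0, 1, 0, 0] := by
  simp only [gl8, evn, cond_true, cond_false]
  linear_combination (T) * he + (-x ^ 2 * T + x ^ 2 + x * y - x * T ^ 2 + x * T + y * T) * hC

include he hC in
lemma c23 : (bif false then -1 else 1) * evn (gl8 x y T C) [0, 0, 1, 0, 1, 0, 1, 1, 0, 0] +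
    (bif true then -1 else 1) * evn (gl8 x y T C) [0, 0, 1, 1, 1, 0, 0, 0, 1, 1] =
    evn (gl8 x y T C) [0, 1, 0, 0, 0, 1, 1, 1, 0, 0] := by
  simp only [gl8, evn, cond_true, cond_false]
  linear_combination (T ^ 2 * C - T * C) * he + (x ^ 2 * y - x * y * T ^ 2 + x * y * T - x * y * C + y * T ^ 2 * C - y * T * C) * hC

include he hC in
lemma c24 : (bif false then -1 else 1) * evn (gl8 x y T C) [1, 0, 1, 1, 0, 0, 1, 0, 0, 1] +
    (bif true then -1 else 1) * evn (gl8 x y T C) [0, 0, 0, 0, 0, 1, 2, 0, 1, 0] =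
    evn (gl8 x y T C) [0, 0, 2, 1, 1, 0, 0, 1, 0, 0] := by
  simp only [gl8, evn, cond_true, cond_false]
  linear_combination (2 * x * T ^ 2 - 3 * x * T + x - y * T + y - T ^ 2 * C + T * C) * he + (-x ^ 3 * T ^ 2 + x ^ 3 * T + x ^ 2 * y * T + x ^ 2 * T ^ 2 * C - x ^ 2 * T * C - x * y * T * C) * hC

include he hC in
lemma c25 : (bif false then -1 else 1) * evn (gl8 x y T C) [1, 0, 0, 1, 0, 0, 1, 0, 0, 0] +
    (bif false then -1 else 1) * evn (gl8 x y T C) [0, 0, 0, 0, 0, 0, 2, 0, 1, 0] =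
    evn (gl8 x y T C) [0, 0, 1, 1, 1, 0, 0, 0, 0, 0] := by
  simp only [gl8, evn, cond_true, cond_false]
  linear_combination (T - 1) * he + (-x ^ 2 * T + x ^ 2 + x * y) * hC

include he hC in
lemma c26 : (bif false then -1 else 1) * evn (gl8 x y T C) [0, 0, 0, 0, 0, 1, 2, 0, 0, 0] +
    (bif false then -1 else 1) * evn (gl8 x y T C) [0, 0, 1, 0, 0, 0, 2, 0, 0, 1] =
    evn (gl8 x y T C) [0, 0, 2, 1, 1, 0, 0, 0, 0, 0] := by
  simp only [gl8, evn, cond_true, cond_false]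
  linear_combination (y - T * C + C) * he + (-x ^ 3 * T + x ^ 3 + x ^ 2 * y + x ^ 2 * T * C - x ^ 2 * C - x * y * C) * hC

include he hC in
lemma c27 : (bif false then -1 else 1) * evn (gl8 x y T C) [0, 0, 0, 0, 0, 1, 1, 0, 0, 0] +
    (bif false then -1 else 1) * evn (gl8 x y T C) [0, 0, 1, 0, 0, 0, 1, 1, 0, 0] =
    evn (gl8 x y T C) [1, 0, 1, 1, 0, 0, 0, 0, 0, 0] := by
  simp only [gl8, evn, cond_true, cond_false]
  linear_combination (1) * he + (0) * hC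

include he hC in
lemma c28 : (bif false then -1 else 1) * evn (gl8 x y T C) [0, 1, 0, 1, 1, 0, 1, 0, 0, 0] +
    (bif false then -1 else 1) * evn (gl8 x y T C) [1, 1, 0, 0, 0, 0, 2, 0, 1, 0] =
    evn (gl8 x y T C) [0, 0, 1, 1, 1, 1, 0, 1, 0, 0] := by
  simp only [gl8, evn, cond_true, cond_false]
  linear_combination (x * T ^ 3 - x * T ^ 2 * C - 2 * x * T ^ 2 + x * T * C + x * T) * he + (-x ^ 4 * T + x ^ 4 + x ^ 3 * y + x ^ 3 * T ^ 2 * C - x ^ 3 * T * C - x ^ 2 * y * T * C) * hC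

include he hC in
lemma c29 : (bif false then -1 else 1) * evn (gl8 x y T C) [0, 1, 1, 1, 0, 0, 1, 0, 0, 1] +
    (bif false then -1 else 1) * evn (gl8 x y T C) [0, 0, 0, 0, 0, 1, 2, 0, 2, 0] =
    evn (gl8 x y T C) [0, 0, 2, 1, 0, 1, 0, 2, 0, 0] := by
  simp only [gl8, evn, cond_true, cond_false]
  linear_combination (-2 * x * T ^ 3 + 5 * x * T ^ 2 - 4 * x * T + x + y * T ^ 2 - 2 * y * T + y + T ^ 3 * C - 2 * T ^ 2 * C + T * C) * he + (x ^ 4 * T - x ^ 3 * T ^ 2 - 2 * x ^ 3 * T * C + x ^ 3 * T - x ^ 2 * y * T ^ 2 + x ^ 2 * y * T + x ^ 2 * T ^ 3 * C + x ^ 2 * T * C ^ 2 - x ^ 2 * T * C + x * y * T ^ 2 * C - x * y * T * C - x * T ^ 3 * C ^ 2 + x * T ^ 2 * C ^ 2) * hC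

include he hC in
lemma c30 : (bif false then -1 else 1) * evn (gl8 x y T C) [0, 1, 1, 1, 1, 0, 1, 1, 0, 0] +
    (bif true then -1 else 1) * evn (gl8 x y T C) [0, 1, 0, 0, 0, 1, 2, 0, 2, 0] =
    evn (gl8 x y T C) [0, 0, 2, 1, 1, 1, 0, 1, 0, 0] := by
  simp only [gl8, evn, cond_true, cond_false]
  linear_combination (2 * x ^ 2 * T ^ 3 - x ^ 2 * T ^ 2 * C - 5 * x ^ 2 * T ^ 2 + x ^ 2 * T * C + 4 * x ^ 2 * T - x ^ 2 - x * y * T ^ 2 + 2 * x * y * T - x * y - x * T ^ 4 * C + 2 * x * T ^ 3 * C + x * T ^ 2 * C ^ 2 - x * T ^ 2 * C - x * T * C ^ 2 + y * T ^ 3 * C - 2 * y * T ^ 2 * C + y * T * C) * he + (-x ^ 5 * T + x ^ 5 + x ^ 4 * y + x ^ 4 * T ^ 2 * C - x ^ 4 * C - x ^ 3 * y * T * C - x ^ 3 * y * C - x ^ 3 * T ^ 2 * C ^ 2 + x ^ 3 * T * C ^ 2 + x ^ 2 * y * T * C ^ 2) * hC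

include he hC in
lemma c31 : (bif false then -1 else 1) * evn (gl8 x y T C) [1, 1, 1, 0, 0, 0, 2, 0, 0, 1] +
    (bif true then -1 else 1) * evn (gl8 x y T C) [0, 0, 0, 0, 1, 1, 2, 0, 1, 0] =
    evn (gl8 x y T C) [0, 0, 2, 1, 1, 1, 0, 1, 0, 0] := by
  simp only [gl8, evn, cond_true, cond_false]
  linear_combination (-x ^ 2 * T ^ 2 * C + x ^ 2 * T * C + 2 * x * y * T ^ 2 - 3 * x * y * T + x * y + x * T ^ 2 * C ^ 2 - x * T * C ^ 2 - y ^ 2 * T + y ^ 2 - y * T ^ 2 * C + y * T * C) * he + (-x ^ 5 * T + x ^ 5 + x ^ 4 * y + x ^ 4 * T ^ 2 * C - x ^ 4 * C - x ^ 3 * y * T * C - x ^ 3 * y * C - x ^ 3 * T ^ 2 * C ^ 2 + x ^ 3 * T * C ^ 2 + x ^ 2 * y * T * C ^ 2) * hC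

include he hC in
lemma c32 : (bif false then -1 else 1) * evn (gl8 x y T C) [1, 1, 1, 0, 0, 0, 2, 1, 0, 0] +
    (bif false then -1 else 1) * evn (gl8 x y T C) [0, 1, 0, 0, 0, 1, 2, 0, 1, 0] =
    evn (gl8 x y T C) [0, 0, 2, 1, 1, 1, 0, 1, 0, 0] := by
  simp only [gl8, evn, cond_true, cond_false]
  linear_combination (x ^ 2 * T ^ 3 - x ^ 2 * T ^ 2 * C - 3 * x ^ 2 * T ^ 2 + x ^ 2 * T * C + 3 * x ^ 2 * T - x ^ 2 + x * y * T - x * y + x * T ^ 2 * C ^ 2 - x * T * C ^ 2 - y * T ^ 2 * C + y * T * C) * he + (-x ^ 5 * T + x ^ 5 + x ^ 4 * y + x ^ 4 * T ^ 2 * C - x ^ 4 * C - x ^ 3 * y * T * C - x ^ 3 * y * C - x ^ 3 * T ^ 2 * C ^ 2 + x ^ 3 * T * C ^ 2 + x ^ 2 * y * T * C ^ 2) * hC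

include he hC in
lemma c33 : (bif false then -1 else 1) * evn (gl8 x y T C) [0, 0, 0, 0, 1, 0, 2, 1, 0, 0] +
    (bif false then -1 else 1) * evn (gl8 x y T C) [0, 1, 0, 0, 0, 0, 2, 0, 0, 1] =
    evn (gl8 x y T C) [0, 0, 2, 1, 1, 0, 0, 1, 0, 0] := by
  simp only [gl8, evn, cond_true, cond_false]
  linear_combination (-2 * x * T ^ 2 + x * T * C + 3 * x * T - x + y * T - T ^ 2 * C + T * C) * he + (x ^ 4 - x ^ 3 * T * C - x ^ 3 * T + x ^ 3 - x ^ 2 * y * T + x ^ 2 * y * C + x ^ 2 * y + x ^ 2 * T ^ 2 * C - x ^ 2 * T * C) * hC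

include he hC in
lemma c34 : (bif false then -1 else 1) * evn (gl8 x y T C) [1, 1, 1, 0, 0, 0, 1, 1, 0, 0] +
    (bif true then -1 else 1) * evn (gl8 x y T C) [0, 0, 0, 0, 1, 1, 1, 0, 1, 0] =
    evn (gl8 x y T C) [0, 1, 1, 1, 1, 0, 0, 0, 0, 0] := by
  simp only [gl8, evn, cond_true, cond_false]
  linear_combination (x * T ^ 2 - x * T - y * T + y - T ^ 2 * C + T * C) * he + (0) * hC

include he hC in
lemma c35 : (bif false then -1 else 1) * evn (gl8 x y T C) [1, 0, 1, 0, 0, 0, 1, 0, 0, 0] +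
    (bif false then -1 else 1) * evn (gl8 x y T C) [0, 0, 0, 0, 0, 1, 1, 0, 1, 0] =
    evn (gl8 x y T C) [0, 0, 1, 1, 1, 0, 0, 0, 0, 0] := by
  simp only [gl8, evn, cond_true, cond_false]
  linear_combination (T - 1) * he + (0) * hC

include he hC in
lemma c36 : (bif false then -1 else 1) * evn (gl8 x y T C) [0, 0, 0, 0, 1, 1, 1, 0, 0, 0] +
    (bif false then -1 else 1) * evn (gl8 x y T C) [0, 1, 0, 0, 0, 1, 1, 1, 0, 0] =
    evn (gl8 x y T C) [0, 1, 1, 1, 1, 0, 0, 0, 0, 0] := by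
  simp only [gl8, evn, cond_true, cond_false]
  linear_combination (y - T ^ 2 * C + T * C) * he + (0) * hC

include he hC in
lemma c37 : (bif false then -1 else 1) * evn (gl8 x y T C) [0, 0, 0, 0, 1, 1, 0, 0, 0, 0] +
    (bif false then -1 else 1) * evn (gl8 x y T C) [0, 1, 0, 0, 0, 1, 0, 0, 0, 0] =
    evn (gl8 x y T C) [1, 1, 1, 0, 0, 0, 0, 0, 0, 0] := by
  simp only [gl8, evn, cond_true, cond_false]
  linear_combination (1) * he + (0) * hC

include he hC in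
lemma c38 : (bif false then -1 else 1) * evn (gl8 x y T C) [0, 1, 1, 0, 1, 0, 1, 1, 0, 0] +
    (bif false then -1 else 1) * evn (gl8 x y T C) [1, 1, 0, 0, 0, 1, 1, 0, 1, 0] =
    evn (gl8 x y T C) [0, 0, 1, 1, 1, 1, 0, 0, 0, 1] := by
  simp only [gl8, evn, cond_true, cond_false]
  linear_combination (2 * x * T ^ 3 - 2 * x * T ^ 2 * C - 3 * x * T ^ 2 + 2 * x * T * C + x * T - x * C - 2 * T ^ 3 * C + T ^ 2 * C ^ 2 + 3 * T ^ 2 * C - T * C) * he + (-x ^ 4 * T + x ^ 3 * y + x ^ 3 * T ^ 2 * C + x ^ 3 * T * C - x ^ 2 * y * T * C + x ^ 2 * y * T - x ^ 2 * y * C - x ^ 2 * T ^ 2 * C ^ 2 - x * y * T ^ 2 * C + x * y * T * C ^ 2 - x * y * T * C + y * T ^ 2 * C ^ 2) * hC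

include he hC in
lemma c39 : (bif false then -1 else 1) * evn (gl8 x y T C) [0, 1, 1, 0, 0, 0, 1, 1, 0, 0] +
    (bif true then -1 else 1) * evn (gl8 x y T C) [0, 0, 0, 0, 0, 1, 1, 0, 2, 0] =
    evn (gl8 x y T C) [0, 0, 1, 1, 0, 1, 0, 1, 0, 0] := by
  simp only [gl8, evn, cond_true, cond_false]
  linear_combination (-T ^ 2 + 2 * T - 1) * he + (x ^ 3 - x ^ 2 * C - x * y * T + y * T * C) * hC

include he hC in
lemma c40 : (bif false then -1 else 1) * evn (gl8 x y T C) [1, 1, 0, 0, 0, 0, 1, 0, 0, 0] +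
    (bif false then -1 else 1) * evn (gl8 x y T C) [0, 0, 0, 0, 1, 0, 1, 0, 1, 0] =
    evn (gl8 x y T C) [0, 0, 1, 1, 1, 0, 0, 0, 0, 0] := by
  simp only [gl8, evn, cond_true, cond_false]
  linear_combination (T - 1) * he + (0) * hC

include he hC in
lemma c41 : (bif false then -1 else 1) * evn (gl8 x y T C) [1, 1, 0, 0, 0, 1, 0, 1, 0, 0] +
    (bif false then -1 else 1) * evn (gl8 x y T C) [0, 0, 0, 0, 1, 1, 0, 0, 1, 1] =
    evn (gl8 x y T C) [0, 1, 1, 0, 1, 0, 0, 1, 0, 0] := by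
  simp only [gl8, evn, cond_true, cond_false]
  linear_combination (2 * T ^ 2 - 3 * T + 1) * he + (-x ^ 3 + x ^ 2 * T * C + x * y - y * T * C) * hC

include he hC in
lemma c42 : (bif false then -1 else 1) * evn (gl8 x y T C) [0, 0, 1, 0, 0, 0, 0, 1, 0, 0] +
    (bif false then -1 else 1) * evn (gl8 x y T C) [0, 1, 0, 0, 0, 0, 0, 0, 1, 0] =
    evn (gl8 x y T C) [0, 0, 0, 1, 0, 0, 0, 0, 0, 1] := by
  simp only [gl8, evn, cond_true, cond_false]
  linear_combination (0) * he + (-T) * hC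

include he hC in
lemma c43 : (bif false then -1 else 1) * evn (gl8 x y T C) [0, 0, 1, 0, 0, 0, 0, 2, 0, 0] +
    (bif true then -1 else 1) * evn (gl8 x y T C) [1, 0, 0, 0, 0, 0, 0, 0, 2, 0] =
    evn (gl8 x y T C) [0, 0, 0, 1, 0, 0, 0, 0, 0, 1] := by
  simp only [gl8, evn, cond_true, cond_false]
  linear_combination (0) * he + (-T) * hC

include he hC in
lemma c44 : (bif false then -1 else 1) * evn (gl8 x y T C) [0, 0, 1, 0, 0, 0, 0, 1, 0, 0] +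
    (bif true then -1 else 1) * evn (gl8 x y T C) [0, 0, 0, 0, 0, 0, 0, 0, 3, 0] =
    evn (gl8 x y T C) [0, 0, 0, 1, 0, 0, 0, 1, 0, 0] := by
  simp only [gl8, evn, cond_true, cond_false]
  linear_combination (0) * he + (-1) * hC

include he hC in
lemma c45 : (bif false then -1 else 1) * evn (gl8 x y T C) [0, 1, 0, 0, 0, 0, 0, 1, 0, 0] +
    (bif false then -1 else 1) * evn (gl8 x y T C) [1, 0, 0, 0, 0, 0, 0, 0, 1, 0] =
    evn (gl8 x y T C) [0, 0, 0, 1, 0, 0, 0, 0, 0, 1] := by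
  simp only [gl8, evn, cond_true, cond_false]
  linear_combination (0) * he + (-T) * hC

include he hC in
lemma c46 : (bif false then -1 else 1) * evn (gl8 x y T C) [0, 1, 0, 0, 0, 0, 0, 0, 0, 0] +
    (bif false then -1 else 1) * evn (gl8 x y T C) [0, 0, 0, 0, 0, 0, 0, 0, 2, 0] =
    evn (gl8 x y T C) [0, 0, 0, 1, 0, 0, 0, 0, 0, 0] := by
  simp only [gl8, evn, cond_true, cond_false]
  linear_combination (0) * he + (-1) * hC

include he hC in
lemma c47 : (bif false then -1 else 1) * evn (gl8 x y T C) [1, 0, 0, 0, 0, 0, 0, 0, 0, 0] +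
    (bif true then -1 else 1) * evn (gl8 x y T C) [0, 0, 0, 0, 0, 0, 0, 1, 1, 0] =
    evn (gl8 x y T C) [0, 0, 0, 1, 0, 0, 0, 0, 0, 0] := by
  simp only [gl8, evn, cond_true, cond_false]
  linear_combination (0) * he + (0) * hC

include he hC in
lemma c48 : (bif false then -1 else 1) * evn (gl8 x y T C) [0, 1, 0, 0, 0, 0, 0, 0, 0, 0] +
    (bif false then -1 else 1) * evn (gl8 x y T C) [1, 0, 0, 0, 0, 0, 0, 0, 1, 0] =
    evn (gl8 x y T C) [0, 0, 1, 0, 0, 0, 0, 1, 0, 0] := by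
  simp only [gl8, evn, cond_true, cond_false]
  linear_combination (0) * he + (0) * hC

include he hC in
lemma c49 : (bif false then -1 else 1) * evn (gl8 x y T C) [0, 1, 0, 0, 0, 0, 0, 1, 0, 0] +
    (bif false then -1 else 1) * evn (gl8 x y T C) [0, 0, 0, 0, 0, 0, 0, 0, 2, 1] =
    evn (gl8 x y T C) [0, 0, 1, 0, 0, 0, 0, 1, 0, 0] := by
  simp only [gl8, evn, cond_true, cond_false]
  linear_combination (0) * he + (-T + 1) * hC

include he hC in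
lemma c50 : (bif false then -1 else 1) * evn (gl8 x y T C) [1, 0, 0, 0, 0, 0, 0, 1, 0, 0] +
    (bif true then -1 else 1) * evn (gl8 x y T C) [0, 0, 0, 0, 0, 0, 0, 0, 1, 1] =
    evn (gl8 x y T C) [0, 0, 1, 0, 0, 0, 0, 1, 0, 0] := by
  simp only [gl8, evn, cond_true, cond_false]
  linear_combination (0) * he + (1) * hC

include he hC in
lemma c51 : (bif false then -1 else 1) * evn (gl8 x y T C) [1, 0, 0, 0, 0, 0, 0, 0, 0, 0] +
    (bif true then -1 else 1) * evn (gl8 x y T C) [0, 0, 0, 0, 0, 0, 0, 0, 1, 1] =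
    evn (gl8 x y T C) [0, 1, 0, 0, 0, 0, 0, 0, 0, 0] := by
  simp only [gl8, evn, cond_true, cond_false]
  linear_combination (0) * he + (1) * hC

include he hC in
lemma c52 : (bif false then -1 else 1) * evn (gl8 x y T C) [0, 0, 0, 0, 0, 1, 0, 1, 0, 0] +
    (bif false then -1 else 1) * evn (gl8 x y T C) [0, 0, 0, 0, 1, 0, 0, 0, 1, 0] =
    evn (gl8 x y T C) [0, 0, 0, 0, 0, 0, 1, 0, 0, 1] := by
  simp only [gl8, evn, cond_true, cond_false]
  linear_combination (0) * he + (-x) * hC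

include he hC in
lemma c53 : (bif false then -1 else 1) * evn (gl8 x y T C) [0, 0, 0, 0, 0, 1, 0, 1, 0, 0] +
    (bif false then -1 else 1) * evn (gl8 x y T C) [1, 0, 0, 0, 0, 0, 0, 0, 2, 0] =
    evn (gl8 x y T C) [0, 0, 0, 0, 0, 0, 1, 1, 0, 0] := by
  simp only [gl8, evn, cond_true, cond_false]
  linear_combination (0) * he + (-x) * hC

include he hC in
lemma c54 : (bif false then -1 else 1) * evn (gl8 x y T C) [0, 0, 0, 0, 1, 0, 0, 0, 0, 0] +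
    (bif true then -1 else 1) * evn (gl8 x y T C) [1, 0, 0, 0, 0, 0, 0, 0, 1, 0] =
    evn (gl8 x y T C) [0, 0, 0, 0, 0, 0, 1, 0, 0, 0] := by
  simp only [gl8, evn, cond_true, cond_false]
  linear_combination (0) * he + (0) * hC

include he hC in
lemma c55 : (bif false then -1 else 1) * evn (gl8 x y T C) [0, 0, 0, 0, 1, 0, 0, 1, 0, 0] +
    (bif true then -1 else 1) * evn (gl8 x y T C) [1, 0, 0, 0, 0, 0, 0, 0, 1, 1] =
    evn (gl8 x y T C) [0, 0, 0, 0, 0, 1, 0, 1, 0, 0] := by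
  simp only [gl8, evn, cond_true, cond_false]
  linear_combination (0) * he + (x) * hC

include he hC in
lemma c56 : (bif false then -1 else 1) * evn (gl8 x y T C) [0, 0, 1, 1, 2, 2, 0, 1, 0, 0] +
    (bif false then -1 else 1) * evn (gl8 x y T C) [0, 2, 0, 1, 1, 1, 1, 0, 0, 0] =
    evn (gl8 x y T C) [2, 2, 1, 0, 0, 0, 2, 1, 0, 0] := by
  simp only [gl8, evn, cond_true, cond_false]
  linear_combination (-x ^ 4 * T ^ 3 + x ^ 4 * T ^ 2 * C + x ^ 4 * T ^ 2 - x ^ 3 * y * T * C - x ^ 3 * y * T + x ^ 3 * y + x ^ 3 * T ^ 4 * C - x ^ 3 * T ^ 3 * C ^ 2 - x ^ 3 * T ^ 2 * C ^ 2 - x ^ 3 * T ^ 2 * C + x ^ 2 * y ^ 2 * T + x ^ 2 * y * T ^ 3 * C + x ^ 2 * y * T ^ 3 - 2 * x ^ 2 * y * T ^ 2 + x ^ 2 * y * T * C ^ 2 - x ^ 2 * y * T * C + x ^ 2 * y * T - x ^ 2 * T ^ 4 * C ^ 2 + x ^ 2 * T ^ 3 * C ^ 3 + x ^ 2 * T ^ 3 * C ^ 2 - x * y ^ 2 * T ^ 3 + x * y ^ 2 * T ^ 2 - x * y ^ 2 * T * C - x * y * T ^ 4 * C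 - x * y * T ^ 3 * C ^ 2 + 2 * x * y * T ^ 3 * C + x * y * T ^ 2 * C ^ 2 - x * y * T ^ 2 * C + y ^ 2 * T ^ 3 * C - y ^ 2 * T ^ 2 * C) * he + (x ^ 7 * T - x ^ 6 * y - 2 * x ^ 6 * T ^ 2 * C - x ^ 6 * T * C + 2 * x ^ 5 * y * T * C - x ^ 5 * y * T + x ^ 5 * y * C + x ^ 5 * T ^ 3 * C ^ 2 + 2 * x ^ 5 * T ^ 2 * C ^ 2 - x ^ 4 * y * T ^ 2 * C ^ 2 + 2 * x ^ 4 * y * T ^ 2 * C - 2 * x ^ 4 * y * T * C ^ 2 + x ^ 4 * y * T * C - x ^ 4 * T ^ 3 * C ^ 3 - x ^ 3 * y * T ^ 3 * C ^ 2 + x ^ 3 * y * T ^ 2 * C ^ 3 - 2 * x ^ 3 * y * T ^ 2 * C ^ 2 + x ^ 2 * y * T ^ 3 * C ^ 3) * hC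

include he hC in
lemma c57 : (bif false then -1 else 1) * evn (gl8 x y T C) [1, 0, 1, 0, 0, 0, 0, 1, 0, 0] +
    (bif true then -1 else 1) * evn (gl8 x y T C) [0, 0, 0, 1, 0, 0, 0, 0, 1, 2] =
    evn (gl8 x y T C) [0, 2, 0, 0, 0, 0, 0, 1, 0, 0] := by
  simp only [gl8, evn, cond_true, cond_false]
  linear_combination (0) * he + (2 * x * T - x - 2 * T ^ 3 - T ^ 2 * C + 3 * T ^ 2 - T) * hC


include he hC in
/-- **the 58 solutions** -/
theorem sols8 (hne : ∀ z ∈ gl8 x y T C, z ≠ 0) : Sols (gl8 x y T C) c8g_cls := by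
  intro p hp
  unfold c8g_cls at hp
  simp only [List.mem_cons, List.not_mem_nil, or_false] at hp
  rcases hp with rfl | rfl | rfl | rfl | rfl | rfl | rfl | rfl | rfl | rfl | rfl | rfl | rfl | rfl | rfl | rfl | rfl | rfl | rfl | rfl | rfl | rfl | rfl | rfl | rfl | rfl | rfl | rfl | rfl | rfl | rfl | rfl | rfl | rfl | rfl | rfl | rfl | rfl | rfl | rfl | rfl | rfl | rfl | rfl | rfl | rfl | rfl | rfl | rfl | rfl | rfl | rfl | rfl | rfl | rfl | rfl | rfl | rfl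
  · exact clr hne (by decide) (by decide) rfl rfl (c0 he hC)
  · exact clr hne (by decide) (by decide) rfl rfl (c1 he hC)
  · exact clr hne (by decide) (by decide) rfl rfl (c2 he hC)
  · exact clr hne (by decide) (by decide) rfl rfl (c3 he hC)
  · exact clr hne (by decide) (by decide) rfl rfl (c4 he hC)
  · exact clr hne (by decide) (by decide) rfl rfl (c5 he hC)
  · exact clr hne (by decide) (by decide) rfl rfl (c6 he hC)
  · exact clr hne (by decide) (by decide) rfl rfl (c7 he hC)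
  · exact clr hne (by decide) (by decide) rfl rfl (c8 he hC)
  · exact clr hne (by decide) (by decide) rfl rfl (c9 he hC)
  · exact clr hne (by decide) (by decide) rfl rfl (c10 he hC)
  · exact clr hne (by decide) (by decide) rfl rfl (c11 he hC)
  · exact clr hne (by decide) (by decide) rfl rfl (c12 he hC)
  · exact clr hne (by decide) (by decide) rfl rfl (c13 he hC)
  · exact clr hne (by decide) (by decide) rfl rfl (c14 he hC)
  · exact clr hne (by decide) (by decide) rfl rfl (c15 he hC)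
  · exact clr hne (by decide) (by decide) rfl rfl (c16 he hC)
  · exact clr hne (by decide) (by decide) rfl rfl (c17 he hC)
  · exact clr hne (by decide) (by decide) rfl rfl (c18 he hC)
  · exact clr hne (by decide) (by decide) rfl rfl (c19 he hC)
  · exact clr hne (by decide) (by decide) rfl rfl (c20 he hC)
  · exact clr hne (by decide) (by decide) rfl rfl (c21 he hC)
  · exact clr hne (by decide) (by decide) rfl rfl (c22 he hC)
  · exact clr hne (by decide) (by decide) rfl rfl (c23 he hC)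
  · exact clr hne (by decide) (by decide) rfl rfl (c24 he hC)
  · exact clr hne (by decide) (by decide) rfl rfl (c25 he hC)
  · exact clr hne (by decide) (by decide) rfl rfl (c26 he hC)
  · exact clr hne (by decide) (by decide) rfl rfl (c27 he hC)
  · exact clr hne (by decide) (by decide) rfl rfl (c28 he hC)
  · exact clr hne (by decide) (by decide) rfl rfl (c29 he hC)
  · exact clr hne (by decide) (by decide) rfl rfl (c30 he hC)
  · exact clr hne (by decide) (by decide) rfl rfl (c31 he hC)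
  · exact clr hne (by decide) (by decide) rfl rfl (c32 he hC)
  · exact clr hne (by decide) (by decide) rfl rfl (c33 he hC)
  · exact clr hne (by decide) (by decide) rfl rfl (c34 he hC)
  · exact clr hne (by decide) (by decide) rfl rfl (c35 he hC)
  · exact clr hne (by decide) (by decide) rfl rfl (c36 he hC)
  · exact clr hne (by decide) (by decide) rfl rfl (c37 he hC)
  · exact clr hne (by decide) (by decide) rfl rfl (c38 he hC)
  · exact clr hne (by decide) (by decide) rfl rfl (c39 he hC)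
  · exact clr hne (by decide) (by decide) rfl rfl (c40 he hC)
  · exact clr hne (by decide) (by decide) rfl rfl (c41 he hC)
  · exact clr hne (by decide) (by decide) rfl rfl (c42 he hC)
  · exact clr hne (by decide) (by decide) rfl rfl (c43 he hC)
  · exact clr hne (by decide) (by decide) rfl rfl (c44 he hC)
  · exact clr hne (by decide) (by decide) rfl rfl (c45 he hC)
  · exact clr hne (by decide) (by decide) rfl rfl (c46 he hC)
  · exact clr hne (by decide) (by decide) rfl rfl (c47 he hC)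
  · exact clr hne (by decide) (by decide) rfl rfl (c48 he hC)
  · exact clr hne (by decide) (by decide) rfl rfl (c49 he hC)
  · exact clr hne (by decide) (by decide) rfl rfl (c50 he hC)
  · exact clr hne (by decide) (by decide) rfl rfl (c51 he hC)
  · exact clr hne (by decide) (by decide) rfl rfl (c52 he hC)
  · exact clr hne (by decide) (by decide) rfl rfl (c53 he hC)
  · exact clr hne (by decide) (by decide) rfl rfl (c54 he hC)
  · exact clr hne (by decide) (by decide) rfl rfl (c55 he hC)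
  · exact clr hne (by decide) (by decide) rfl rfl (c56 he hC)
  · exact clr hne (by decide) (by decide) rfl rfl (c57 he hC)

end sols

end Pool.Agent.UE8
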