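import Pool.Agent.Lib_helper76.UE8.P8
import Pool.Agent.Lib_helper76.UE8.Sols

/-!
# The classes of the certificate for a point of order eight
-/

set_option autoImplicit false
set_option linter.unusedSectionVars false
set_option maxRecDepth 100000

open scoped TensorProduct

namespace Pool.Agent.UE8

open WeierstrassCurve.Affine Polynomial WithZero GK UP
open UEG (Gen IsUn LineOK P0 negY_wt)
open TN (Wt Orb)
open MK4 (FT lg)
open FK4 (LineS Supp supp_iff)
open KC72 N8C

/-- the divisor of a monomial -/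
def dvl : List (ZMod 8 → ℤ) → List ℤ → ZMod 8 → ℤ
  | d :: ds, e :: es, x => e * d x + dvl ds es x
  | _, _, _ => 0

/-- the divisors of the generators -/
def ds8 : List (ZMod 8 → ℤ) := [dV 1, dV 2, dV 3, dV 4, dL 1 1, dL 1 2, dL 1 3,
  fun _ => 0, fun _ => 0, fun _ => 0]

/-- a digit -/
def dg (n : ℕ) (x : ZMod 8) : ℤ := ((n / 16 ^ x.val % 16 : ℕ) : ℤ)

/-- the code of an orbit -/
def cdn (S p : ℕ) : ℕ := 16 ^ p + 16 ^ ((S + 8 - p) % 8)

lemma mz_dg : ∀ S p x : ZMod 8, mz S p x = dg (cdn S.val p.val) x := by decide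

/-- the zeros of `f`, the zeros of `1 - f` and the poles for the 58 classes -/
def T8 : List (ℕ × ℕ × ℕ × ℕ) := [
  (0, 8192, 65792, 536870912),
  (1, 8192, 1048592, 536870912),
  (2, 8192, 16777217, 536870912),
  (3, 65792, 1048592, 536870912),
  (4, 65792, 16777217, 536870912),
  (5, 1048592, 16777217, 536870912),
  (6, 65792, 1048592, 8192),
  (7, 65792, 16777217, 8192),
  (8, 1048592, 16777217, 8192),
  (9, 1048592, 16777217, 65792),
  (10, 4352, 65552, 285212672),
  (11, 4352, 1048577, 285212672),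
  (12, 65552, 1048577, 285212672),
  (13, 65552, 1048577, 4352),
  (14, 269484032, 512, 33554432),
  (15, 269484032, 4112, 33554432),
  (16, 269484032, 65537, 33554432),
  (17, 512, 4112, 33554432),
  (18, 512, 65537, 33554432),
  (19, 4112, 65537, 33554432),
  (20, 512, 4112, 269484032),
  (21, 512, 65537, 269484032),
  (22, 4112, 65537, 269484032),
  (23, 4112, 65537, 512),
  (24, 268500992, 272, 17825792),
  (25, 268500992, 4097, 17825792),
  (26, 272, 4097, 17825792),
  (27, 272, 4097, 268500992),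
  (28, 16842752, 268439552, 2097152),
  (29, 16842752, 32, 2097152),
  (30, 16842752, 257, 2097152),
  (31, 268439552, 32, 2097152),
  (32, 268439552, 257, 2097152),
  (33, 32, 257, 2097152),
  (34, 268439552, 32, 16842752),
  (35, 268439552, 257, 16842752),
  (36, 32, 257, 16842752),
  (37, 32, 257, 268439552),
  (38, 16781312, 268435712, 1114112),
  (39, 16781312, 17, 1114112),
  (40, 268435712, 17, 1114112),
  (41, 268435712, 17, 16781312),
  (42, 1052672, 16777472, 131072),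
  (43, 1052672, 268435472, 131072),
  (44, 1052672, 2, 131072),
  (45, 16777472, 268435472, 131072),
  (46, 16777472, 2, 131072),
  (47, 268435472, 2, 131072),
  (48, 16777472, 268435472, 1052672),
  (49, 16777472, 2, 1052672),
  (50, 268435472, 2, 1052672),
  (51, 268435472, 2, 16777472),
  (52, 1048832, 16777232, 69632),
  (53, 1048832, 268435457, 69632),
  (54, 16777232, 268435457, 69632),
  (55, 16777232, 268435457, 1048832),
  (56, 2097184, 16843009, 536879104),
  (57, 269488144, 131074, 33554944)]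

/-- one of the six orders -/
def pm (a b c D E G : ℕ) : Bool := (D == a && E == b && G == c) || (D == a && G == b && E == c) ||
  (E == a && D == b && G == c) || (E == a && G == b && D == c) || (G == a && D == b && E == c) ||
  (G == a && E == b && D == c)

/-- different orbits -/
def nd (S p q r : ℕ) : Bool := p != q && p != (S + 8 - q) % 8 && q != r && q != (S + 8 - r) % 8 &&
  p != r && p != (S + 8 - r) % 8

lemma sub_val : ∀ S p q : ZMod 8, p = S - q ↔ p.val = (S.val + 8 - q.val) % 8 := by decide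

lemma nd_of {S p q r : ZMod 8} (h : Nd S p q r) : nd S.val p.val q.val r.val = true := by
  obtain ⟨h1, h2, h3, h4, h5, h6⟩ := h
  have inj : ∀ {a b : ZMod 8}, a ≠ b → a.val ≠ b.val := fun h h' => h (ZMod.val_injective _ h')
  unfold nd
  simp only [Bool.and_eq_true, bne_iff_ne]
  exact ⟨⟨⟨⟨⟨inj h1, fun h => h2 ((sub_val _ _ _).mpr h)⟩, inj h3⟩,
    fun h => h4 ((sub_val _ _ _).mpr h)⟩, inj h5⟩, fun h => h6 ((sub_val _ _ _).mpr h)⟩

/-- all pencils are in the table -/
theorem srch : ((List.range 8).all fun S => (List.range 8).all fun p => (List.range 8).all fun q =>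
    (List.range 8).all fun r => !(nd S p q r) ||
      T8.any fun t => pm t.2.1 t.2.2.1 t.2.2.2 (cdn S p) (cdn S r) (cdn S q)) = true := by
  decide +kernel

/-- the table is correct -/
theorem T8_ok : ∀ t ∈ T8, t.1 < c8g_cls.length ∧ (∀ x, dvl ds8 (c8g_cls.getD t.1 default).1.2 x =
    dg t.2.1 x - dg t.2.2.2 x) ∧ (∀ x, dvl ds8 (c8g_cls.getD t.1 default).2.2 x =
    dg t.2.2.1 x - dg t.2.2.2 x) ∧ ∃ x, dg t.2.1 x - dg t.2.2.2 x ≠ 0 := by
  decide +kernel

/-- the divisors belong to a class of the table -/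
def Mat (D E G : ZMod 8 → ℤ) : Prop := ∃ c ∈ c8g_cls, (∃ x, dvl ds8 c.1.2 x ≠ 0) ∧
  Six (fun A B C => (∀ x, A x - C x = dvl ds8 c.1.2 x) ∧ (∀ x, B x - C x = dvl ds8 c.2.2 x)) D E G

lemma mat_of {D E G : ZMod 8 → ℤ} {d e g : ℕ} (hD : ∀ x, D x = dg d x) (hE : ∀ x, E x = dg e x)
    (hG : ∀ x, G x = dg g x) (h : (T8.any fun t => pm t.2.1 t.2.2.1 t.2.2.2 d e g) = true) :
    Mat D E G := by
  rw [List.any_eq_true] at h
  obtain ⟨t, ht, h⟩ := h
  obtain ⟨h1, h2, h3, h4⟩ := T8_ok t ht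
  refine ⟨c8g_cls.getD t.1 default, by
    rw [List.getD_eq_getElem?_getD, List.getElem?_eq_getElem h1, Option.getD_some]
    exact List.getElem_mem h1, ?_, ?_⟩
  · obtain ⟨x, hx⟩ := h4
    exact ⟨x, by rw [h2]; exact hx⟩
  unfold pm at h
  simp only [Bool.or_eq_true, Bool.and_eq_true, beq_iff_eq] at h
  rcases h with ((((⟨⟨r1, r2⟩, r3⟩ | ⟨⟨r1, r2⟩, r3⟩) | ⟨⟨r1, r2⟩, r3⟩) | ⟨⟨r1, r2⟩, r3⟩) |
    ⟨⟨r1, r2⟩, r3⟩) | ⟨⟨r1, r2⟩, r3⟩
  · exact Or.inl ⟨fun x => by rw [h2, hD, hG, r1, r3], fun x => by rw [h3, hE, hG, r2, r3]⟩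
  · exact Or.inr (Or.inl ⟨fun x => by rw [h2, hD, hE, r1, r3], fun x => by rw [h3, hG, hE, r2, r3]⟩)
  · exact Or.inr (Or.inr (Or.inl ⟨fun x => by rw [h2, hE, hG, r1, r3],
      fun x => by rw [h3, hD, hG, r2, r3]⟩))
  · exact Or.inr (Or.inr (Or.inr (Or.inl ⟨fun x => by rw [h2, hE, hD, r1, r3],
      fun x => by rw [h3, hG, hD, r2, r3]⟩)))
  · exact Or.inr (Or.inr (Or.inr (Or.inr (Or.inl ⟨fun x => by rw [h2, hG, hE, r1, r3],
      fun x => by rw [h3, hD, hE, r2, r3]⟩))))
  · exact Or.inr (Or.inr (Or.inr (Or.inr (Or.inr ⟨fun x => by rw [h2, hG, hD, r1, r3],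
      fun x => by rw [h3, hE, hD, r2, r3]⟩))))

lemma mat_nd {S p q r : ZMod 8} (h : Nd S p q r) : Mat (mz S p) (mz S r) (mz S q) := by
  refine mat_of (fun x => mz_dg _ _ _) (fun x => mz_dg _ _ _) (fun x => mz_dg _ _ _) ?_
  have h1 := srch
  have hm : ∀ a : ZMod 8, a.val ∈ List.range 8 := fun a => List.mem_range.mpr (ZMod.val_lt a)
  rw [List.all_eq_true] at h1
  have h2 := h1 _ (hm S)
  rw [List.all_eq_true] at h2
  have h3 := h2 _ (hm p)
  rw [List.all_eq_true] at h3
  have h4 := h3 _ (hm q)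
  rw [List.all_eq_true] at h4
  have h5 := h4 _ (hm r)
  rw [nd_of h, Bool.not_true, Bool.false_or] at h5
  exact h5

lemma mat_1 : Mat (vz ![0, 1, 0, 1, 0, 1, 0, 1]) (vz ![2, 0, 0, 0, 2, 0, 0, 0])
    (vz ![0, 0, 2, 0, 0, 0, 2, 0]) :=
  mat_of (d := 269488144) (e := 131074) (g := 33554944) (by decide) (by decide) (by decide)
    (by decide +kernel)

lemma mat_2 : Mat (vz ![1, 0, 1, 0, 1, 0, 1, 0]) (vz ![0, 0, 0, 2, 0, 0, 0, 2])
    (vz ![0, 2, 0, 0, 0, 2, 0, 0]) :=
  mat_of (d := 16843009) (e := 536879104) (g := 2097184) (by decide) (by decide) (by decide)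
    (by decide +kernel)

end Pool.Agent.UE8
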